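import Mathlib

/-! Near-cancellation lemma (part (B) of the plan for MP_6b834f_an). -/

open MeasureTheory Set Filter Topology Real

namespace IDP

/-- change of variables for a function with derivative at least `m > 0`. -/
lemma lintegral_comp_le_of_speed (x x' : ℝ → ℝ) (m M a b : ℝ) (hab : a ≤ b) (hm : 0 < m)
    (hx : ∀ t ∈ Icc a b, HasDerivWithinAt x (x' t) (Icc a b) t)
    (hx1 : ∀ t ∈ Icc a b, m ≤ x' t) (hx2 : ∀ t ∈ Icc a b, x' t ≤ M) (G : ℝ → ENNReal) :
    ∫⁻ t in Icc a b, G (x t) ≤ ENNReal.ofReal (1 / m) *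
      ∫⁻ y in Icc (x a) (x a + M * (b - a)), G y := by
  have hcont : ContinuousOn x (Icc a b) := fun t ht => (hx t ht).continuousWithinAt
  have hmono : StrictMonoOn x (Icc a b) := by
    apply strictMonoOn_of_hasDerivWithinAt_pos (convex_Icc a b) hcont (f' := x')
    · intro t ht
      exact (hx t (interior_subset ht)).mono interior_subset
    · intro t ht
      exact lt_of_lt_of_le hm (hx1 t (interior_subset ht))
  have hmono2 : MonotoneOn (fun t => M * t - x t) (Icc a b) := by
    apply monotoneOn_of_hasDerivWithinAt_nonneg (convex_Icc a b) (f' := fun t => M - x' t)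
    · exact (continuousOn_const.mul continuousOn_id).sub hcont
    · intro t ht
      have h1 : HasDerivWithinAt (fun t : ℝ => M * t) M (interior (Icc a b)) t := by
        simpa using ((hasDerivWithinAt_id t (interior (Icc a b))).const_mul M)
      exact h1.sub ((hx t (interior_subset ht)).mono interior_subset)
    · intro t ht
      have := hx2 t (interior_subset ht)
      linarith
  have hsub : x '' Icc a b ⊆ Icc (x a) (x a + M * (b - a)) := by
    rintro _ ⟨t, ht, rfl⟩
    have ha : a ∈ Icc a b := ⟨le_rfl, hab⟩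
    refine ⟨hmono.monotoneOn ha ht ht.1, ?_⟩
    have h1 := hmono2 ha ht ht.1
    simp only at h1
    have hM : 0 ≤ M := by
      have := hx1 a ha
      have := hx2 a ha
      linarith
    have h2 : M * (t - a) ≤ M * (b - a) := by
      apply mul_le_mul_of_nonneg_left _ hM
      linarith [ht.2]
    nlinarith
  have hcv := lintegral_image_eq_lintegral_abs_deriv_mul measurableSet_Icc hx hmono.injOn G
  calc ∫⁻ t in Icc a b, G (x t)
      ≤ ∫⁻ t in Icc a b, ENNReal.ofReal (1 / m) * (ENNReal.ofReal |x' t| * G (x t)) := by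
        apply setLIntegral_mono' measurableSet_Icc
        intro t ht
        rw [← mul_assoc, ← ENNReal.ofReal_mul (by positivity)]
        have h1 : (1 : ENNReal) ≤ ENNReal.ofReal (1 / m * |x' t|) := by
          rw [← ENNReal.ofReal_one]
          apply ENNReal.ofReal_le_ofReal
          have h2 : m ≤ |x' t| := (hx1 t ht).trans (le_abs_self _)
          rw [div_mul_eq_mul_div, one_mul, le_div_iff₀ hm]
          linarith
        calc G (x t) = 1 * G (x t) := (one_mul _).symm
          _ ≤ _ := by gcongr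
    _ = ENNReal.ofReal (1 / m) * ∫⁻ t in Icc a b, (ENNReal.ofReal |x' t| * G (x t)) := by
        rw [lintegral_const_mul' _ _ ENNReal.ofReal_ne_top]
    _ = ENNReal.ofReal (1 / m) * ∫⁻ y in x '' Icc a b, G y := by rw [hcv]
    _ ≤ _ := by
        gcongr

/-- lower bound through the imaginary part -/
lemma log_sub_le_cos (u : ℂ) (hc : Real.cos (u.im / 2) ≠ 0) :
    Real.log (max 1 ‖Complex.exp u‖) - Real.log ‖1 + Complex.exp u‖
      ≤ -Real.log (Real.cos (u.im / 2)) := by
  set w := Real.exp u.re with hw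
  have hw0 : 0 < w := Real.exp_pos _
  set c := Real.cos (u.im / 2) with hcdef
  have hcos : Real.cos u.im = 2 * c ^ 2 - 1 := by
    have := Real.cos_two_mul (u.im / 2)
    rw [← this]; congr 1; ring
  have hnorm : ‖Complex.exp u‖ = w := by rw [Complex.norm_exp]
  have hsq : ‖1 + Complex.exp u‖ ^ 2 = (1 - w) ^ 2 + 4 * w * c ^ 2 := by
    rw [← Complex.normSq_eq_norm_sq, Complex.normSq_apply]
    have hre : (1 + Complex.exp u).re = 1 + w * Real.cos u.im := by
      simp [Complex.exp_re, hw]
    have him : (1 + Complex.exp u).im = w * Real.sin u.im := by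
      simp [Complex.exp_im, hw]
    rw [hre, him]
    have hs := Real.sin_sq_add_cos_sq u.im
    have : (1 + w * Real.cos u.im) * (1 + w * Real.cos u.im)
        + w * Real.sin u.im * (w * Real.sin u.im)
        = 1 + 2 * w * Real.cos u.im + w ^ 2 * (Real.sin u.im ^ 2 + Real.cos u.im ^ 2) := by ring
    rw [this, hs, hcos]; ring
  have hc1 : c ^ 2 ≤ 1 := by
    have := Real.cos_sq_le_one (u.im / 2)
    exact this
  have hcpos : 0 < c ^ 2 := by positivity
  have hmax : (max 1 w) ^ 2 * c ^ 2 ≤ ‖1 + Complex.exp u‖ ^ 2 := by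
    rw [hsq]
    rcases le_total 1 w with h | h
    · rw [max_eq_right h]
      nlinarith [mul_nonneg (sub_nonneg.2 hc1) (sq_nonneg (1 - w)),
        mul_nonneg hcpos.le hw0.le]
    · rw [max_eq_left h]
      nlinarith [mul_nonneg (sub_nonneg.2 hc1) (sq_nonneg (1 - w)),
        mul_nonneg hcpos.le hw0.le, mul_nonneg hcpos.le (sq_nonneg w)]
  have hmpos : 0 < max 1 w := lt_of_lt_of_le one_pos (le_max_left _ _)
  have hpos : 0 < ‖1 + Complex.exp u‖ ^ 2 := lt_of_lt_of_le (by positivity) hmax
  have hlog := Real.log_le_log (by positivity) hmax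
  rw [Real.log_mul (by positivity) (by positivity), Real.log_pow, Real.log_pow, Real.log_pow] at hlog
  rw [hnorm]
  push_cast at hlog
  linarith

/-- lower bound through the real part -/
lemma log_sub_le_re (u : ℂ) (hc : u.re ≠ 0) :
    Real.log (max 1 ‖Complex.exp u‖) - Real.log ‖1 + Complex.exp u‖
      ≤ Real.log 2 + max 0 (-Real.log u.re) := by
  set w := Real.exp u.re with hw
  have hw0 : 0 < w := Real.exp_pos _
  have hnorm : ‖Complex.exp u‖ = w := by rw [Complex.norm_exp]
  have h1 : |1 - w| ≤ ‖1 + Complex.exp u‖ := by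
    have := abs_norm_sub_norm_le (1 : ℂ) (-Complex.exp u)
    rw [norm_neg, norm_one, hnorm, sub_neg_eq_add] at this
    exact this
  -- `max 1 w * min 1 |x| / 2 ≤ |1 - w|`
  have hx : 0 < |u.re| := abs_pos.2 hc
  have key : max 1 w * (min 1 |u.re| / 2) ≤ |1 - w| := by
    have aux : ∀ v : ℝ, 0 < v → Real.exp v * (min 1 v / 2) ≤ Real.exp v - 1 := by
      intro v hv
      have h2 : Real.exp v ≥ 1 + v := by linarith [Real.add_one_le_exp v]
      have h3 : min 1 v / 2 * (1 + v) ≤ v := by
        rcases le_total 1 v with h | h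
        · rw [min_eq_left h]; linarith
        · rw [min_eq_right h]; nlinarith
      have h4 : min 1 v / 2 ≤ 1 / 2 := by
        have := min_le_left 1 v; linarith
      have h4' : 0 ≤ min 1 v / 2 := by positivity
      nlinarith
    have aux2 : ∀ v : ℝ, 0 < v → min 1 v / 2 ≤ 1 - Real.exp (-v) := by
      intro v hv
      have h5 := aux v hv
      have h6 : Real.exp (-v) * Real.exp v = 1 := by rw [← Real.exp_add]; simp
      have h7 : 0 < Real.exp (-v) := Real.exp_pos _
      have h8 : Real.exp (-v) * (Real.exp v * (min 1 v / 2)) ≤ Real.exp (-v) * (Real.exp v - 1) :=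
        mul_le_mul_of_nonneg_left h5 h7.le
      calc min 1 v / 2 = Real.exp (-v) * Real.exp v * (min 1 v / 2) := by rw [h6, one_mul]
        _ = Real.exp (-v) * (Real.exp v * (min 1 v / 2)) := by ring
        _ ≤ Real.exp (-v) * (Real.exp v - 1) := h8
        _ = Real.exp (-v) * Real.exp v - Real.exp (-v) := by ring
        _ = _ := by rw [h6]
    rcases lt_or_gt_of_ne hc with h | h
    · have hw1 : w < 1 := by rw [hw]; exact Real.exp_lt_one_iff.2 h
      rw [max_eq_left hw1.le, abs_of_neg h, abs_of_pos (by linarith), one_mul]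
      have := aux2 (-u.re) (by linarith)
      rw [neg_neg] at this
      exact this
    · have hw1 : 1 < w := by rw [hw]; exact Real.one_lt_exp_iff.2 h
      rw [max_eq_right hw1.le, abs_of_pos h, abs_of_neg (by linarith)]
      have := aux u.re h
      linarith
  have hmpos : 0 < max 1 w := lt_of_lt_of_le one_pos (le_max_left _ _)
  have hmin : 0 < min 1 |u.re| / 2 := by positivity
  have hpos : 0 < ‖1 + Complex.exp u‖ := lt_of_lt_of_le (lt_of_lt_of_le (by positivity) key) h1
  have hlog := Real.log_le_log (by positivity) (key.trans h1)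
  rw [Real.log_mul (by positivity) (by positivity), Real.log_div (by positivity) (by norm_num)]
    at hlog
  have hminlog : -max 0 (-Real.log u.re) ≤ Real.log (min 1 |u.re|) := by
    rcases le_total 1 |u.re| with h | h
    · rw [min_eq_left h, Real.log_one]
      have := le_max_left 0 (-Real.log u.re)
      linarith
    · rw [min_eq_right h, Real.log_abs]
      have := le_max_right 0 (-Real.log u.re)
      linarith
  rw [hnorm]
  linarith

lemma lintegral_log_bound (s : Set ℝ) :
    ∫⁻ y in s, (if y = 0 then ⊤ else ENNReal.ofReal (-Real.log y)) ≤ ENNReal.ofReal 2 := by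
  have hae : (fun y : ℝ => (if y = 0 then (⊤ : ENNReal) else ENNReal.ofReal (-Real.log y)))
      =ᵐ[volume] (fun y => ENNReal.ofReal (-Real.log y)) := by
    have h0 : ∀ᵐ y : ℝ ∂volume, y ≠ 0 := by
      rw [ae_iff]; simp
    filter_upwards [h0] with y hy
    simp [hy]
  calc ∫⁻ y in s, (if y = 0 then ⊤ else ENNReal.ofReal (-Real.log y))
      ≤ ∫⁻ y, (if y = 0 then ⊤ else ENNReal.ofReal (-Real.log y)) := setLIntegral_le_lintegral _ _
    _ = ∫⁻ y, ENNReal.ofReal (-Real.log y) := lintegral_congr_ae hae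
    _ = ∫⁻ y, (Ioc (-1 : ℝ) 1).indicator (fun y => ENNReal.ofReal (-Real.log y)) y := by
        apply lintegral_congr
        intro y
        by_cases hy : y ∈ Ioc (-1 : ℝ) 1
        · rw [indicator_of_mem hy]
        · rw [indicator_of_notMem hy]
          apply ENNReal.ofReal_of_nonpos
          have h1 : 1 ≤ |y| := by
            rw [mem_Ioc, not_and_or] at hy
            rcases hy with hy | hy
            · push Not at hy
              exact le_abs.2 (Or.inr (by linarith))
            · push Not at hy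
              exact le_abs.2 (Or.inl hy.le)
          rw [← Real.log_abs]
          have := Real.log_nonneg h1
          linarith
    _ = ∫⁻ y in Ioc (-1 : ℝ) 1, ENNReal.ofReal (-Real.log y) :=
        lintegral_indicator measurableSet_Ioc _
    _ = ENNReal.ofReal (∫ y in Ioc (-1 : ℝ) 1, -Real.log y) := by
        rw [ofReal_integral_eq_lintegral_ofReal]
        · have : IntervalIntegrable (fun y => -Real.log y) volume (-1) 1 :=
            intervalIntegral.intervalIntegrable_log'.neg
          exact (intervalIntegrable_iff_integrableOn_Ioc_of_le (by norm_num)).1 this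
        · rw [Filter.EventuallyLE, ae_restrict_iff' measurableSet_Ioc]
          refine ae_of_all _ (fun y hy => ?_)
          have : |y| ≤ 1 := abs_le.2 ⟨hy.1.le, hy.2⟩
          have h2 := Real.log_nonpos (abs_nonneg y) this
          rw [Real.log_abs] at h2
          simp only [Pi.zero_apply]
          linarith
    _ = ENNReal.ofReal 2 := by
        congr 1
        rw [← intervalIntegral.integral_of_le (by norm_num : (-1 : ℝ) ≤ 1),
          intervalIntegral.integral_neg, integral_log]
        norm_num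

lemma integral_log_cos_half (c : ℝ) :
    ∫ y in c..(c + 2 * π), -Real.log (Real.cos (y / 2)) = 2 * π * Real.log 2 := by
  have hper : Function.Periodic (fun y : ℝ => -Real.log (Real.cos (y / 2))) (2 * π) := by
    intro y
    simp only
    have : (y + 2 * π) / 2 = y / 2 + π := by ring
    rw [this, Real.cos_add_pi, Real.log_neg_eq_log]
  rw [hper.intervalIntegral_add_eq c (-π)]
  have h1 : ∫ y in (-π)..(-π + 2 * π), -Real.log (Real.cos (y / 2))
      = 2 * ∫ v in (-π/2)..(π/2), -Real.log (Real.cos v) := by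
    have h := intervalIntegral.integral_comp_div (a := -π) (b := -π + 2 * π)
      (fun v => -Real.log (Real.cos v)) (c := (2 : ℝ)) (by norm_num)
    rw [h, smul_eq_mul]
    congr 2
    ring
  rw [h1]
  have h2 : ∫ v in (-π/2)..(π/2), -Real.log (Real.cos v) = ∫ v in (0)..π, -Real.log (Real.sin v) := by
    have h := intervalIntegral.integral_comp_add_right (a := -π/2) (b := π/2)
      (fun v => -Real.log (Real.sin v)) (π / 2)
    rw [show (-π/2 + π/2) = 0 by ring, show π/2 + π/2 = π by ring] at h
    rw [← h]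
    apply intervalIntegral.integral_congr
    intro v _
    simp only [Real.sin_add_pi_div_two]
  rw [h2, intervalIntegral.integral_neg, integral_log_sin_zero_pi]
  ring

lemma intervalIntegrable_log_cos_half (c d : ℝ) :
    IntervalIntegrable (fun y => -Real.log (Real.cos (y / 2))) volume c d := by
  have h : IntervalIntegrable (fun x => Real.log (Real.cos x)) volume (c / 2) (d / 2) :=
    intervalIntegrable_log_cos
  have h2 := IntervalIntegrable.comp_mul_left (c := (1 / 2 : ℝ)) h
  have e1 : c / 2 / (1 / 2) = c := by ring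
  have e2 : d / 2 / (1 / 2) = d := by ring
  rw [e1, e2] at h2
  have h3 := h2.neg
  refine h3.congr ?_
  intro x _
  simp only [Pi.neg_apply]
  rw [show (1 / 2 : ℝ) * x = x / 2 by ring]

lemma lintegral_cos_bound (c L : ℝ) (hL : 0 ≤ L) :
    ∫⁻ y in Icc c (c + L), (if Real.cos (y / 2) = 0 then ⊤
      else ENNReal.ofReal (-Real.log (Real.cos (y / 2)))) ≤
      ENNReal.ofReal ((L + 2 * π) * Real.log 2) := by
  have hae : (fun y : ℝ => (if Real.cos (y / 2) = 0 then (⊤ : ENNReal)
      else ENNReal.ofReal (-Real.log (Real.cos (y / 2)))))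
      =ᵐ[volume] (fun y => ENNReal.ofReal (-Real.log (Real.cos (y / 2)))) := by
    have h0 : ∀ᵐ y : ℝ ∂volume, Real.cos (y / 2) ≠ 0 := by
      rw [ae_iff]
      have : {y : ℝ | ¬ Real.cos (y / 2) ≠ 0} = Set.range (fun k : ℤ => (2 * k + 1) * π) := by
        ext y
        simp only [ne_eq, not_not, Set.mem_ofPred_eq, mem_range]
        rw [Real.cos_eq_zero_iff]
        constructor
        · rintro ⟨k, hk⟩
          exact ⟨k, by linarith⟩
        · rintro ⟨k, hk⟩
          exact ⟨k, by rw [← hk]⟩
      rw [this]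
      exact (Set.countable_range _).measure_zero _
    filter_upwards [h0] with y hy
    simp [hy]
  obtain ⟨n, hn1, hn2⟩ : ∃ n : ℤ, L ≤ n * (2 * π) ∧ n * (2 * π) ≤ L + 2 * π := by
    refine ⟨⌈L / (2 * π)⌉, ?_, ?_⟩
    · have h := Int.le_ceil (L / (2 * π))
      rwa [div_le_iff₀ (by positivity)] at h
    · have h := (Int.ceil_lt_add_one (L / (2 * π))).le
      have h3 : (⌈L / (2 * π)⌉ : ℝ) * (2 * π) ≤ (L / (2 * π) + 1) * (2 * π) :=
        mul_le_mul_of_nonneg_right h (by positivity)
      have h4 : (L / (2 * π) + 1) * (2 * π) = L + 2 * π := by field_simp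
      linarith
  have hper : Function.Periodic (fun y : ℝ => -Real.log (Real.cos (y / 2))) (2 * π) := by
    intro y
    simp only
    have : (y + 2 * π) / 2 = y / 2 + π := by ring
    rw [this, Real.cos_add_pi, Real.log_neg_eq_log]
  have hnn : ∀ y : ℝ, 0 ≤ -Real.log (Real.cos (y / 2)) := by
    intro y
    have := Real.log_nonpos (abs_nonneg _) (Real.abs_cos_le_one (y / 2))
    rw [Real.log_abs] at this
    linarith
  have hle : c ≤ c + n * (2 * π) := by linarith
  calc ∫⁻ y in Icc c (c + L), (if Real.cos (y / 2) = 0 then (⊤ : ENNReal)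
      else ENNReal.ofReal (-Real.log (Real.cos (y / 2))))
      = ∫⁻ y in Icc c (c + L), ENNReal.ofReal (-Real.log (Real.cos (y / 2))) :=
        lintegral_congr_ae (ae_restrict_of_ae hae)
    _ ≤ ∫⁻ y in Icc c (c + n * (2 * π)), ENNReal.ofReal (-Real.log (Real.cos (y / 2))) :=
        lintegral_mono_set (Icc_subset_Icc_right (by linarith))
    _ = ∫⁻ y in Ioc c (c + n * (2 * π)), ENNReal.ofReal (-Real.log (Real.cos (y / 2))) :=
        setLIntegral_congr Ioc_ae_eq_Icc.symm
    _ = ENNReal.ofReal (∫ y in Ioc c (c + n * (2 * π)), -Real.log (Real.cos (y / 2))) := by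
        rw [ofReal_integral_eq_lintegral_ofReal]
        · exact (intervalIntegrable_iff_integrableOn_Ioc_of_le hle).1
            (intervalIntegrable_log_cos_half _ _)
        · exact ae_of_all _ hnn
    _ ≤ ENNReal.ofReal ((L + 2 * π) * Real.log 2) := by
        apply ENNReal.ofReal_le_ofReal
        rw [← intervalIntegral.integral_of_le hle]
        have h := hper.intervalIntegral_add_zsmul_eq n c
          (fun t₁ t₂ => intervalIntegrable_log_cos_half t₁ t₂)
        rw [zsmul_eq_mul, zsmul_eq_mul] at h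
        rw [h]
        have h5 := integral_log_cos_half 0
        rw [zero_add] at h5
        rw [integral_log_cos_half c]
        have hlog2 : 0 ≤ Real.log 2 := Real.log_nonneg (by norm_num)
        nlinarith

/-- case of a dominating real part, `ε = ±1`. -/
lemma near_cancel_re (g g' : ℝ → ℂ) (γ : ℂ) (a b ε : ℝ) (hε : ε = 1 ∨ ε = -1) (hab : a ≤ b)
    (hγ : γ ≠ 0)
    (hg : ∀ t ∈ Set.Icc a b, HasDerivWithinAt g (g' t) (Set.Icc a b) t)
    (hg' : ∀ t ∈ Set.Icc a b, ‖g' t - γ‖ ≤ ‖γ‖ / 2) (hre : 7 / 10 * ‖γ‖ ≤ ε * γ.re) :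
    ∫⁻ t in Set.Icc a b, ENNReal.ofReal
        (Real.log (max 1 ‖Complex.exp (g t)‖) - Real.log ‖1 + Complex.exp (g t)‖)
      ≤ ENNReal.ofReal (100 * ((b - a) + 1 / ‖γ‖)) := by
  have hγ' : 0 < ‖γ‖ := norm_pos_iff.2 hγ
  have habs : |ε| = 1 := by rcases hε with h | h <;> rw [h] <;> simp
  have hderiv : ∀ t ∈ Icc a b,
      HasDerivWithinAt (fun t => ε * (g t).re) (ε * (g' t).re) (Icc a b) t := by
    intro t ht
    have h1 : HasDerivWithinAt (fun t => (g t).re) ((g' t).re) (Icc a b) t := by
      have h2 := (Complex.reCLM.hasFDerivAt (x := g t)).comp_hasDerivWithinAt t (hg t ht)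
      exact h2
    exact h1.const_mul ε
  have hdiff : ∀ t ∈ Icc a b, |ε * (g' t).re - ε * γ.re| ≤ ‖γ‖ / 2 := by
    intro t ht
    rw [← mul_sub, abs_mul, habs, one_mul, ← Complex.sub_re]
    exact (Complex.abs_re_le_norm _).trans (hg' t ht)
  have hlow : ∀ t ∈ Icc a b, ‖γ‖ / 5 ≤ ε * (g' t).re := by
    intro t ht
    have := (abs_le.1 (hdiff t ht)).1
    linarith
  have hup : ∀ t ∈ Icc a b, ε * (g' t).re ≤ 3 / 2 * ‖γ‖ := by
    intro t ht
    have h1 := (abs_le.1 (hdiff t ht)).2
    have h2 : ε * γ.re ≤ ‖γ‖ := by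
      calc ε * γ.re ≤ |ε * γ.re| := le_abs_self _
        _ = |γ.re| := by rw [abs_mul, habs, one_mul]
        _ ≤ _ := Complex.abs_re_le_norm _
    linarith
  have hmain := lintegral_comp_le_of_speed (fun t => ε * (g t).re) (fun t => ε * (g' t).re)
    (‖γ‖ / 5) (3 / 2 * ‖γ‖) a b hab (by positivity) hderiv hlow hup
    (fun y => if y = 0 then ⊤ else ENNReal.ofReal (-Real.log y))
  have hpt : ∀ t, ENNReal.ofReal
      (Real.log (max 1 ‖Complex.exp (g t)‖) - Real.log ‖1 + Complex.exp (g t)‖)
      ≤ ENNReal.ofReal (Real.log 2) +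
        (fun y => if y = 0 then ⊤ else ENNReal.ofReal (-Real.log y)) (ε * (g t).re) := by
    intro t
    simp only
    split_ifs with h0
    · simp
    · have hre0 : (g t).re ≠ 0 := by
        intro h; apply h0; rw [h, mul_zero]
      have hlog : Real.log (ε * (g t).re) = Real.log (g t).re := by
        rcases hε with h | h
        · rw [h, one_mul]
        · rw [h, neg_one_mul, Real.log_neg_eq_log]
      rw [hlog]
      have h1 := log_sub_le_re (g t) hre0
      have h2 : max 0 (-Real.log (g t).re) = (ENNReal.ofReal (-Real.log (g t).re)).toReal := by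
        rw [ENNReal.toReal_ofReal', max_comm]
      calc _ ≤ ENNReal.ofReal (Real.log 2 + max 0 (-Real.log (g t).re)) :=
            ENNReal.ofReal_le_ofReal h1
        _ = ENNReal.ofReal (Real.log 2) + ENNReal.ofReal (max 0 (-Real.log (g t).re)) := by
            rw [ENNReal.ofReal_add (Real.log_nonneg (by norm_num)) (le_max_left _ _)]
        _ = _ := by
            rw [h2, ENNReal.ofReal_toReal ENNReal.ofReal_ne_top]
  calc _ ≤ ∫⁻ t in Icc a b, (ENNReal.ofReal (Real.log 2) +
        (fun y => if y = 0 then ⊤ else ENNReal.ofReal (-Real.log y)) (ε * (g t).re)) :=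
        lintegral_mono hpt
    _ = ENNReal.ofReal (Real.log 2) * volume (Icc a b) + ∫⁻ t in Icc a b,
        (fun y => if y = 0 then ⊤ else ENNReal.ofReal (-Real.log y)) (ε * (g t).re) := by
        rw [lintegral_add_left measurable_const, lintegral_const, Measure.restrict_apply_univ]
    _ ≤ ENNReal.ofReal (Real.log 2) * ENNReal.ofReal (b - a) +
        ENNReal.ofReal (1 / (‖γ‖ / 5)) * ENNReal.ofReal 2 := by
        rw [Real.volume_Icc]
        refine add_le_add le_rfl (hmain.trans ?_)
        gcongr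
        exact lintegral_log_bound _
    _ ≤ _ := by
        rw [← ENNReal.ofReal_mul (Real.log_nonneg (by norm_num)),
          ← ENNReal.ofReal_mul (by positivity), ← ENNReal.ofReal_add]
        · apply ENNReal.ofReal_le_ofReal
          have h1 : Real.log 2 ≤ 1 := by
            have := Real.log_two_lt_d9; linarith
          have h2 : 1 / (‖γ‖ / 5) * 2 = 10 * (1 / ‖γ‖) := by field_simp; norm_num
          rw [h2]
          have h3 : 0 < 1 / ‖γ‖ := by positivity
          nlinarith
        · exact mul_nonneg (Real.log_nonneg (by norm_num)) (by linarith)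
        · positivity

/-- case of a dominating imaginary part, `ε = ±1`. -/
lemma near_cancel_im (g g' : ℝ → ℂ) (γ : ℂ) (a b ε : ℝ) (hε : ε = 1 ∨ ε = -1) (hab : a ≤ b)
    (hγ : γ ≠ 0)
    (hg : ∀ t ∈ Set.Icc a b, HasDerivWithinAt g (g' t) (Set.Icc a b) t)
    (hg' : ∀ t ∈ Set.Icc a b, ‖g' t - γ‖ ≤ ‖γ‖ / 2) (hre : 7 / 10 * ‖γ‖ ≤ ε * γ.im) :
    ∫⁻ t in Set.Icc a b, ENNReal.ofReal
        (Real.log (max 1 ‖Complex.exp (g t)‖) - Real.log ‖1 + Complex.exp (g t)‖)
      ≤ ENNReal.ofReal (100 * ((b - a) + 1 / ‖γ‖)) := by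
  have hγ' : 0 < ‖γ‖ := norm_pos_iff.2 hγ
  have habs : |ε| = 1 := by rcases hε with h | h <;> rw [h] <;> simp
  have hderiv : ∀ t ∈ Icc a b,
      HasDerivWithinAt (fun t => ε * (g t).im) (ε * (g' t).im) (Icc a b) t := by
    intro t ht
    have h1 : HasDerivWithinAt (fun t => (g t).im) ((g' t).im) (Icc a b) t := by
      have h2 := (Complex.imCLM.hasFDerivAt (x := g t)).comp_hasDerivWithinAt t (hg t ht)
      exact h2
    exact h1.const_mul ε
  have hdiff : ∀ t ∈ Icc a b, |ε * (g' t).im - ε * γ.im| ≤ ‖γ‖ / 2 := by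
    intro t ht
    rw [← mul_sub, abs_mul, habs, one_mul, ← Complex.sub_im]
    exact (Complex.abs_im_le_norm _).trans (hg' t ht)
  have hlow : ∀ t ∈ Icc a b, ‖γ‖ / 5 ≤ ε * (g' t).im := by
    intro t ht
    have := (abs_le.1 (hdiff t ht)).1
    linarith
  have hup : ∀ t ∈ Icc a b, ε * (g' t).im ≤ 3 / 2 * ‖γ‖ := by
    intro t ht
    have h1 := (abs_le.1 (hdiff t ht)).2
    have h2 : ε * γ.im ≤ ‖γ‖ := by
      calc ε * γ.im ≤ |ε * γ.im| := le_abs_self _
        _ = |γ.im| := by rw [abs_mul, habs, one_mul]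
        _ ≤ _ := Complex.abs_im_le_norm _
    linarith
  have hmain := lintegral_comp_le_of_speed (fun t => ε * (g t).im) (fun t => ε * (g' t).im)
    (‖γ‖ / 5) (3 / 2 * ‖γ‖) a b hab (by positivity) hderiv hlow hup
    (fun y => if Real.cos (y / 2) = 0 then ⊤ else ENNReal.ofReal (-Real.log (Real.cos (y / 2))))
  have hpt : ∀ t, ENNReal.ofReal
      (Real.log (max 1 ‖Complex.exp (g t)‖) - Real.log ‖1 + Complex.exp (g t)‖)
      ≤ (fun y => if Real.cos (y / 2) = 0 then ⊤
          else ENNReal.ofReal (-Real.log (Real.cos (y / 2)))) (ε * (g t).im) := by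
    intro t
    simp only
    have hcos : Real.cos (ε * (g t).im / 2) = Real.cos ((g t).im / 2) := by
      rcases hε with h | h
      · rw [h, one_mul]
      · rw [h, neg_one_mul, neg_div, Real.cos_neg]
    rw [hcos]
    split_ifs with h0
    · simp
    · exact ENNReal.ofReal_le_ofReal (log_sub_le_cos (g t) h0)
  calc _ ≤ ∫⁻ t in Icc a b, (fun y => if Real.cos (y / 2) = 0 then ⊤
          else ENNReal.ofReal (-Real.log (Real.cos (y / 2)))) (ε * (g t).im) :=
        lintegral_mono hpt
    _ ≤ ENNReal.ofReal (1 / (‖γ‖ / 5)) *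
        ENNReal.ofReal ((3 / 2 * ‖γ‖ * (b - a) + 2 * π) * Real.log 2) := by
        refine hmain.trans ?_
        gcongr
        exact lintegral_cos_bound _ _ (mul_nonneg (by positivity) (by linarith))
    _ ≤ _ := by
        rw [← ENNReal.ofReal_mul (by positivity)]
        apply ENNReal.ofReal_le_ofReal
        have h1 : Real.log 2 ≤ 1 := by
          have := Real.log_two_lt_d9; linarith
        have h1' : 0 ≤ Real.log 2 := Real.log_nonneg (by norm_num)
        have hpi : π ≤ 4 := Real.pi_le_four
        have h2 : 1 / (‖γ‖ / 5) * ((3 / 2 * ‖γ‖ * (b - a) + 2 * π) * Real.log 2)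
            = (15 / 2 * (b - a) + 10 * π * (1 / ‖γ‖)) * Real.log 2 := by
          field_simp; ring
        rw [h2]
        have h3 : 0 < 1 / ‖γ‖ := by positivity
        have hpi0 := Real.pi_pos
        have h4 : 0 ≤ 15 / 2 * (b - a) + 10 * π * (1 / ‖γ‖) := by
          have : 0 ≤ b - a := by linarith
          positivity
        have h5 : (15 / 2 * (b - a) + 10 * π * (1 / ‖γ‖)) * Real.log 2
            ≤ 15 / 2 * (b - a) + 10 * π * (1 / ‖γ‖) := by
          nlinarith
        have h6 : π * (1 / ‖γ‖) ≤ 4 * (1 / ‖γ‖) := mul_le_mul_of_nonneg_right hpi h3.le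
        nlinarith

/-- (B) near-cancellation lemma: if `g` moves with almost constant speed `γ` then
`1 + e^g` is rarely small. -/
theorem near_cancel (g g' : ℝ → ℂ) (γ : ℂ) (a b : ℝ) (hab : a ≤ b) (hγ : γ ≠ 0)
    (hg : ∀ t ∈ Set.Icc a b, HasDerivWithinAt g (g' t) (Set.Icc a b) t)
    (hg' : ∀ t ∈ Set.Icc a b, ‖g' t - γ‖ ≤ ‖γ‖ / 2) :
    ∫⁻ t in Set.Icc a b, ENNReal.ofReal
        (Real.log (max 1 ‖Complex.exp (g t)‖) - Real.log ‖1 + Complex.exp (g t)‖)
      ≤ ENNReal.ofReal (100 * ((b - a) + 1 / ‖γ‖)) := by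
  have hγ' : 0 < ‖γ‖ := norm_pos_iff.2 hγ
  have hsq : ‖γ‖ ^ 2 = γ.re ^ 2 + γ.im ^ 2 := by
    rw [← Complex.normSq_eq_norm_sq, Complex.normSq_apply]; ring
  by_cases hre : 7 / 10 * ‖γ‖ ≤ |γ.re|
  · rcases le_total 0 γ.re with h | h
    · rw [abs_of_nonneg h] at hre
      exact near_cancel_re g g' γ a b 1 (Or.inl rfl) hab hγ hg hg' (by linarith)
    · rw [abs_of_nonpos h] at hre
      exact near_cancel_re g g' γ a b (-1) (Or.inr rfl) hab hγ hg hg' (by linarith)
  · have him : 7 / 10 * ‖γ‖ ≤ |γ.im| := by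
      by_contra hcon
      push Not at hre hcon
      have h1 : γ.re ^ 2 ≤ (7 / 10 * ‖γ‖) ^ 2 := by
        rw [← sq_abs]; exact pow_le_pow_left₀ (abs_nonneg _) hre.le 2
      have h2 : γ.im ^ 2 ≤ (7 / 10 * ‖γ‖) ^ 2 := by
        rw [← sq_abs]; exact pow_le_pow_left₀ (abs_nonneg _) hcon.le 2
      nlinarith
    rcases le_total 0 γ.im with h | h
    · rw [abs_of_nonneg h] at him
      exact near_cancel_im g g' γ a b 1 (Or.inl rfl) hab hγ hg hg' (by linarith)
    · rw [abs_of_nonpos h] at him
      exact near_cancel_im g g' γ a b (-1) (Or.inr rfl) hab hγ hg hg' (by linarith)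

end IDP
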