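import Mathlib
import Pool.Agent.Helper21.IDP.Defs

/-! Label sequence (part (C) of the plan for MP_6b834f_an). -/

open Filter Topology Real

namespace IDP
namespace Labels

noncomputable section

/-- number of slots of label `m` in block `n` -/
def cnt (d : ℕ → ℝ) (H : ℕ → ℕ) (n m : ℕ) : ℕ := if m < H n then ⌊(n : ℝ) * d m⌋₊ else 0

/-- first slot of label `m` in block `n` -/
def start (d : ℕ → ℝ) (H : ℕ → ℕ) (n m : ℕ) : ℕ := ∑ i ∈ Finset.range m, cnt d H n i

/-- slot of the `j`-th position of block `n` -/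
def slot (n j : ℕ) : ℕ := if j % 2 = 0 then j / 2 else n + 1 + j / 2

/-- the slot `t` of block `n` carries label `m` -/
def InArc (d : ℕ → ℝ) (H : ℕ → ℕ) (n t m : ℕ) : Prop :=
  start d H n m ≤ t ∧ t < start d H n (m + 1)

open Classical in
/-- label of slot `t` in block `n` at position `k` -/
def labAt (d : ℕ → ℝ) (H : ℕ → ℕ) (a : ℕ → Option ℂ) (β : ℕ → ℂ) (n t k : ℕ) : Option ℂ :=
  if h : ∃ m, InArc d H n t m then a (Classical.choose h) else some (β (2 * H n + k % 2))

/-- the label sequence -/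
def lab (d : ℕ → ℝ) (H : ℕ → ℕ) (a : ℕ → Option ℂ) (β : ℕ → ℂ) (k : ℕ) : Option ℂ :=
  labAt d H a β (Nat.sqrt k) (slot (Nat.sqrt k) (k - Nat.sqrt k * Nat.sqrt k)) k

end

variable {d : ℕ → ℝ} {H : ℕ → ℕ} {a : ℕ → Option ℂ} {β : ℕ → ℂ}

lemma start_succ (n m : ℕ) : start d H n (m + 1) = start d H n m + cnt d H n m := by
  unfold start; rw [Finset.sum_range_succ]

lemma start_mono (n : ℕ) : Monotone (start d H n) := by
  apply monotone_nat_of_le_succ
  intro m
  rw [start_succ]; omega

lemma inArc_unique {n t m m' : ℕ} (h : InArc d H n t m) (h' : InArc d H n t m') : m = m' := by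
  rcases lt_trichotomy m m' with hlt | heq | hgt
  · have := start_mono (d := d) (H := H) n (Nat.succ_le_of_lt hlt)
    have h1 := h.2
    have h2 := h'.1
    simp only [Nat.succ_eq_add_one] at this
    omega
  · exact heq
  · have := start_mono (d := d) (H := H) n (Nat.succ_le_of_lt hgt)
    have h1 := h'.2
    have h2 := h.1
    simp only [Nat.succ_eq_add_one] at this
    omega

lemma labAt_eq_of_inArc {n t m k : ℕ} (h : InArc d H n t m) :
    labAt d H a β n t k = a m := by
  unfold labAt
  have hex : ∃ m, InArc d H n t m := ⟨m, h⟩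
  rw [dif_pos hex]
  rw [inArc_unique (Classical.choose_spec hex) h]

lemma labAt_eq_of_not {n t k : ℕ} (h : ¬ ∃ m, InArc d H n t m) :
    labAt d H a β n t k = some (β (2 * H n + k % 2)) := by
  unfold labAt
  rw [dif_neg h]

lemma labAt_eq_iff (ha : Function.Injective a) (hβ : ∀ i n, a n ≠ some (β i)) {n t m k : ℕ} :
    labAt d H a β n t k = a m ↔ InArc d H n t m := by
  constructor
  · intro h
    by_cases hex : ∃ m, InArc d H n t m
    · obtain ⟨m', hm'⟩ := hex
      rw [labAt_eq_of_inArc hm'] at h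
      rw [← ha h]; exact hm'
    · rw [labAt_eq_of_not hex] at h
      exact absurd h.symm (hβ _ _)
  · exact labAt_eq_of_inArc

lemma cnt_le (hd : ∀ n, 0 ≤ d n ∧ d n ≤ 1) (n m : ℕ) : cnt d H n m ≤ n := by
  unfold cnt
  split_ifs
  · apply Nat.floor_le_of_le
    have h1 := (hd m).2
    have h2 : (0 : ℝ) ≤ n := Nat.cast_nonneg n
    nlinarith
  · exact Nat.zero_le _

lemma cnt_le_real (hd : ∀ n, 0 ≤ d n ∧ d n ≤ 1) (n m : ℕ) : (cnt d H n m : ℝ) ≤ n * d m := by
  unfold cnt
  have h2 : (0 : ℝ) ≤ n * d m := mul_nonneg (Nat.cast_nonneg n) (hd m).1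
  split_ifs
  · exact Nat.floor_le h2
  · simpa using h2

lemma le_cnt_real {n m : ℕ} (h : m < H n) : (n : ℝ) * d m - 1 ≤ cnt d H n m := by
  unfold cnt
  rw [if_pos h]
  have := Nat.lt_floor_add_one ((n : ℝ) * d m)
  linarith

lemma cnt_mono (hd : ∀ n, 0 ≤ d n ∧ d n ≤ 1) (hH : Monotone H) {n n' : ℕ} (hn : n ≤ n') (m : ℕ) :
    cnt d H n m ≤ cnt d H n' m := by
  unfold cnt
  split_ifs with h1 h2
  · apply Nat.floor_mono
    have : (n : ℝ) ≤ n' := by exact_mod_cast hn
    exact mul_le_mul_of_nonneg_right this (hd m).1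
  · exact absurd (lt_of_lt_of_le h1 (hH hn)) h2
  · exact Nat.zero_le _
  · exact le_rfl

lemma start_mono_left (hd : ∀ n, 0 ≤ d n ∧ d n ≤ 1) (hH : Monotone H) {n n' : ℕ} (hn : n ≤ n')
    (m : ℕ) : start d H n m ≤ start d H n' m :=
  Finset.sum_le_sum (fun i _ => cnt_mono hd hH hn i)

lemma start_le (hd : ∀ n, 0 ≤ d n ∧ d n ≤ 1) (hs : Summable d) (hsum : ∑' n, d n ≤ 2) (n m : ℕ) :
    start d H n m ≤ 2 * n := by
  have h : (start d H n m : ℝ) ≤ 2 * n := by
    unfold start
    push_cast
    calc ∑ i ∈ Finset.range m, (cnt d H n i : ℝ) ≤ ∑ i ∈ Finset.range m, (n : ℝ) * d i :=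
          Finset.sum_le_sum (fun i _ => cnt_le_real hd n i)
      _ = n * ∑ i ∈ Finset.range m, d i := by rw [Finset.mul_sum]
      _ ≤ n * 2 := by
          apply mul_le_mul_of_nonneg_left _ (Nat.cast_nonneg n)
          exact (hs.sum_le_tsum _ (fun i _ => (hd i).1)).trans hsum
      _ = 2 * n := by ring
  exact_mod_cast h

/-- in one block, number of positions with label `m` -/
lemma card_block (hd : ∀ n, 0 ≤ d n ∧ d n ≤ 1) (hs : Summable d) (hsum : ∑' n, d n ≤ 2)
    (n m : ℕ) [DecidablePred fun j => InArc d H n (slot n j) m] :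
    ((Finset.range (2 * n + 1)).filter (fun j => InArc d H n (slot n j) m)).card
      = cnt d H n m := by
  have h1 : cnt d H n m = (Finset.Ico (start d H n m) (start d H n (m + 1))).card := by
    rw [Nat.card_Ico, start_succ]; omega
  rw [h1]
  have h2 := start_le (H := H) hd hs hsum n (m + 1)
  apply Finset.card_nbij' (i := fun j => slot n j)
    (j := fun t => if t ≤ n then 2 * t else 2 * (t - n - 1) + 1)
  · intro j hj
    simp only [Finset.coe_filter, Finset.mem_range, Set.mem_ofPred_eq] at hj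
    simp only [Finset.coe_Ico, Set.mem_Ico]
    exact hj.2
  · intro t ht
    simp only [Finset.coe_Ico, Set.mem_Ico] at ht
    simp only [Finset.coe_filter, Finset.mem_range, Set.mem_ofPred_eq]
    have hslot : slot n (if t ≤ n then 2 * t else 2 * (t - n - 1) + 1) = t := by
      unfold slot
      split_ifs <;> omega
    refine ⟨?_, ?_⟩
    · split_ifs <;> omega
    · rw [hslot]; exact ht
  · intro j hj
    simp only [Finset.coe_filter, Finset.mem_range, Set.mem_ofPred_eq] at hj
    unfold slot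
    dsimp only
    split_ifs <;> omega
  · intro t ht
    simp only [Finset.coe_Ico, Set.mem_Ico] at ht
    unfold slot
    dsimp only
    split_ifs <;> omega

lemma sqrt_block {n j : ℕ} (hj : j < 2 * n + 1) : Nat.sqrt (n * n + j) = n := by
  rw [Nat.sqrt_add_eq n (by omega)]

lemma card_sq (hd : ∀ n, 0 ≤ d n ∧ d n ≤ 1) (hs : Summable d) (hsum : ∑' n, d n ≤ 2)
    (ha : Function.Injective a) (hβ : ∀ i n, a n ≠ some (β i)) (m N : ℕ)
    [DecidablePred fun i => lab d H a β i = a m] :
    ((Finset.range (N * N)).filter (fun i => lab d H a β i = a m)).card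
      = ∑ n ∈ Finset.range N, cnt d H n m := by
  classical
  induction N with
  | zero => simp
  | succ N ih =>
    rw [Finset.sum_range_succ, ← ih]
    have hsplit : Finset.range ((N + 1) * (N + 1)) =
        Finset.range (N * N) ∪ (Finset.range (2 * N + 1)).map (addLeftEmbedding (N * N)) := by
      have : (N + 1) * (N + 1) = N * N + (2 * N + 1) := by ring
      rw [this, Finset.range_add]
    rw [hsplit, Finset.filter_union, Finset.card_union_of_disjoint]
    · congr 1
      rw [← card_block (H := H) hd hs hsum N m, Finset.filter_map, Finset.card_map]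
      apply congrArg
      apply Finset.filter_congr
      intro j hj
      rw [Finset.mem_range] at hj
      simp only [Function.comp_apply, addLeftEmbedding_apply]
      unfold lab
      rw [sqrt_block hj, Nat.add_sub_cancel_left, labAt_eq_iff ha hβ]
    · apply Finset.disjoint_filter_filter
      rw [Finset.disjoint_left]
      intro x hx hx'
      rw [Finset.mem_range] at hx
      rw [Finset.mem_map] at hx'
      obtain ⟨y, _, hy⟩ := hx'
      simp only [addLeftEmbedding_apply] at hy
      omega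

/-- consecutive labels are distinct -/
lemma lab_ne_succ (hd : ∀ n, 0 ≤ d n ∧ d n ≤ 1) (hH : Monotone H)
    (ha : Function.Injective a) (hβ : ∀ i n, a n ≠ some (β i)) (hβi : Function.Injective β)
    (k : ℕ) : lab d H a β k ≠ lab d H a β (k + 1) := by
  set n := Nat.sqrt k with hn
  have hk1 : n * n ≤ k := Nat.sqrt_le k
  have hk2 : k ≤ n * n + n + n := Nat.sqrt_le_add k
  obtain ⟨j, hj⟩ : ∃ j, k = n * n + j := ⟨k - n * n, by omega⟩
  have hjn : j ≤ 2 * n := by omega
  intro heq
  have e1 : lab d H a β k = labAt d H a β n (slot n j) k := by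
    unfold lab
    rw [← hn]
    congr 2
    omega
  rw [e1] at heq
  rcases lt_or_eq_of_le hjn with hlt | hjeq
  · have e2 : lab d H a β (k + 1) = labAt d H a β n (slot n (j + 1)) (k + 1) := by
      have hs : Nat.sqrt (k + 1) = n := by
        rw [hj, add_assoc]; exact sqrt_block (by omega)
      unfold lab
      rw [hs]
      congr 2
      omega
    rw [e2] at heq
    by_cases h1 : ∃ m, InArc d H n (slot n j) m
    · obtain ⟨m, hm⟩ := h1
      rw [labAt_eq_of_inArc hm] at heq
      have hm2 := (labAt_eq_iff ha hβ).1 heq.symm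
      have hc := cnt_le (H := H) hd n m
      unfold InArc at hm hm2
      rw [start_succ] at hm hm2
      unfold slot at hm hm2
      split_ifs at hm hm2 <;> omega
    · by_cases h2 : ∃ m, InArc d H n (slot n (j + 1)) m
      · obtain ⟨m, hm⟩ := h2
        rw [labAt_eq_of_inArc hm] at heq
        exact h1 ⟨m, (labAt_eq_iff ha hβ).1 heq⟩
      · rw [labAt_eq_of_not h1, labAt_eq_of_not h2] at heq
        have := hβi (Option.some.inj heq)
        omega
  · have e2 : lab d H a β (k + 1) = labAt d H a β (n + 1) (slot (n + 1) 0) (k + 1) := by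
      have hkk : k + 1 = (n + 1) * (n + 1) + 0 := by rw [hj, hjeq]; ring
      have hs : Nat.sqrt (k + 1) = n + 1 := by
        rw [hkk]; exact sqrt_block (by omega)
      unfold lab
      rw [hs]
      congr 2
      omega
    rw [e2] at heq
    by_cases h1 : ∃ m, InArc d H n (slot n j) m
    · obtain ⟨m, hm⟩ := h1
      rw [labAt_eq_of_inArc hm] at heq
      have hm2 := (labAt_eq_iff ha hβ).1 heq.symm
      have hc := cnt_le (H := H) hd n m
      unfold InArc at hm hm2
      rw [start_succ] at hm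
      have h0 : start d H n m ≤ start d H (n + 1) m := start_mono_left hd hH (Nat.le_succ n) m
      have h3 : slot (n + 1) 0 = 0 := by simp [slot]
      have h4 : slot n j = n := by
        unfold slot
        rw [hjeq]
        simp
      rw [h3] at hm2
      rw [h4] at hm
      omega
    · by_cases h2 : ∃ m, InArc d H (n + 1) (slot (n + 1) 0) m
      · obtain ⟨m, hm⟩ := h2
        rw [labAt_eq_of_inArc hm] at heq
        exact h1 ⟨m, (labAt_eq_iff ha hβ).1 heq⟩
      · rw [labAt_eq_of_not h1, labAt_eq_of_not h2] at heq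
        have h5 := hβi (Option.some.inj heq)
        have h6 : H n ≤ H (n + 1) := hH (Nat.le_succ n)
        omega

/-- labels used up to stage `h` -/
def used (a : ℕ → Option ℂ) (β : ℕ → ℂ) (h : ℕ) : Set (Option ℂ) :=
  (a '' Set.Iio h) ∪ ((fun i => some (β i)) '' Set.Iio (2 * h + 2))

lemma used_finite (h : ℕ) : (used a β h).Finite :=
  ((Set.finite_Iio h).image _).union ((Set.finite_Iio _).image _)

lemma used_mono : Monotone (used a β) := by
  intro h h' hh
  unfold used
  apply Set.union_subset_union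
  · exact Set.image_mono (Set.Iio_subset_Iio hh)
  · exact Set.image_mono (Set.Iio_subset_Iio (by omega))

lemma lab_mem_used (k : ℕ) : lab d H a β k ∈ used a β (H (Nat.sqrt k)) := by
  unfold lab
  set n := Nat.sqrt k
  set t := slot n (k - n * n)
  by_cases h : ∃ m, InArc d H n t m
  · obtain ⟨m, hm⟩ := h
    rw [labAt_eq_of_inArc hm]
    left
    refine ⟨m, ?_, rfl⟩
    by_contra hcon
    rw [Set.mem_Iio] at hcon
    have hm' := hm
    unfold InArc at hm'
    rw [start_succ] at hm'
    have : cnt d H n m = 0 := by unfold cnt; rw [if_neg hcon]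
    omega
  · rw [labAt_eq_of_not h]
    right
    exact ⟨_, by rw [Set.mem_Iio]; omega, rfl⟩

lemma det2_vec_ne {x y : Option ℂ} (h : x ≠ y) : det2 (vec x) (vec y) ≠ 0 := by
  have hs : ∀ c : ℂ, ((Real.sqrt (1 + ‖c‖ ^ 2) : ℝ) : ℂ) ≠ 0 := by
    intro c
    have : 0 < Real.sqrt (1 + ‖c‖ ^ 2) := Real.sqrt_pos.2 (by positivity)
    exact_mod_cast this.ne'
  cases x with
  | none =>
    cases y with
    | none => exact absurd rfl h
    | some c =>
      simp only [det2, vec]
      simpa using hs c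
  | some b =>
    cases y with
    | none =>
      simp only [det2, vec]
      simpa using hs b
    | some c =>
      simp only [det2, vec]
      have hbc : b ≠ c := fun hh => h (by rw [hh])
      have h1 := hs b
      have h2 := hs c
      intro h0
      apply hbc
      field_simp at h0
      exact sub_eq_zero.1 (by simpa using h0)

/-- exponent controlling the separation of the labels used up to stage `h` -/
lemma exists_sep (h : ℕ) : ∃ E : ℕ, ∀ x ∈ used a β h, ∀ y ∈ used a β h, x ≠ y →
    Real.exp (-(E : ℝ)) ≤ ‖det2 (vec x) (vec y)‖ := by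
  classical
  have hfin := (used_finite (a := a) (β := β) h)
  have hpair : ∀ p : Option ℂ × Option ℂ, ∃ E : ℕ, p.1 ≠ p.2 →
      Real.exp (-(E : ℝ)) ≤ ‖det2 (vec p.1) (vec p.2)‖ := by
    intro p
    by_cases hp : p.1 = p.2
    · exact ⟨0, fun hh => absurd hp hh⟩
    · have hpos : 0 < ‖det2 (vec p.1) (vec p.2)‖ := norm_pos_iff.2 (det2_vec_ne hp)
      obtain ⟨E, hE⟩ := exists_nat_gt (-Real.log ‖det2 (vec p.1) (vec p.2)‖)
      refine ⟨E, fun _ => ?_⟩
      rw [← Real.le_log_iff_exp_le hpos]
      linarith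
  choose E hE using hpair
  refine ⟨∑ p ∈ hfin.toFinset ×ˢ hfin.toFinset, E p, ?_⟩
  intro x hx y hy hxy
  have h1 := hE (x, y) hxy
  refine le_trans ?_ h1
  apply Real.exp_le_exp.2
  have h2 : E (x, y) ≤ ∑ p ∈ hfin.toFinset ×ˢ hfin.toFinset, E p := by
    apply Finset.single_le_sum (f := E) (fun _ _ => Nat.zero_le _)
    rw [Finset.mem_product]
    exact ⟨hfin.mem_toFinset.2 hx, hfin.mem_toFinset.2 hy⟩
  have h3 : (E (x, y) : ℝ) ≤ ((∑ p ∈ hfin.toFinset ×ˢ hfin.toFinset, E p : ℕ) : ℝ) := by
    exact_mod_cast h2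
  linarith

/-- a slow function `H` -/
lemma exists_slow (a : ℕ → Option ℂ) (β : ℕ → ℂ) : ∃ (H : ℕ → ℕ) (C : ℕ), Monotone H ∧
    Tendsto H atTop atTop ∧
    ∀ n, ∀ x ∈ used a β (H n), ∀ y ∈ used a β (H n), x ≠ y →
    Real.exp (-((n : ℝ) + C)) ≤ ‖det2 (vec x) (vec y)‖ := by
  classical
  choose E hE using (exists_sep (a := a) (β := β))
  let H : ℕ → ℕ := fun n => Nat.findGreatest (fun h => E h ≤ n + E 0) n
  have hspec : ∀ n, E (H n) ≤ n + E 0 := by
    intro n
    exact Nat.findGreatest_spec (P := fun h => E h ≤ n + E 0) (Nat.zero_le n) (by simp)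
  refine ⟨H, E 0, ?_, ?_, ?_⟩
  · intro n n' hn
    apply Nat.findGreatest_mono _ hn
    intro h hh
    exact le_trans hh (by omega)
  · rw [tendsto_atTop]
    intro b
    filter_upwards [eventually_ge_atTop (max b (E b))] with n hn
    apply Nat.le_findGreatest (le_trans (le_max_left _ _) hn)
    have := le_trans (le_max_right _ _) hn
    omega
  · intro n x hx y hy hxy
    refine le_trans ?_ (hE (H n) x hx y hy hxy)
    apply Real.exp_le_exp.2
    have : (E (H n) : ℝ) ≤ ((n + E 0 : ℕ) : ℝ) := by exact_mod_cast hspec n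
    push_cast at this
    linarith

lemma tendsto_sqrt : Tendsto Nat.sqrt atTop atTop := by
  rw [tendsto_atTop]
  intro b
  filter_upwards [eventually_ge_atTop (b * b)] with n hn
  exact Nat.le_sqrt.2 hn

/-- two-sided bound for the number of positions with label `m` in the first `N` blocks. -/
lemma sum_cnt_bounds (hd : ∀ n, 0 ≤ d n ∧ d n ≤ 1) (m n0 : ℕ) (hn0 : ∀ n, n0 ≤ n → m < H n)
    (N : ℕ) :
    ((∑ n ∈ Finset.range N, cnt d H n m : ℕ) : ℝ) ≤ d m / 2 * (N * N) ∧
    d m / 2 * (N * N) - (3 / 2) * N - n0 * min N n0 ≤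
      ((∑ n ∈ Finset.range N, cnt d H n m : ℕ) : ℝ) := by
  induction N with
  | zero => simp
  | succ N ih =>
    rw [Finset.sum_range_succ]
    push_cast at ih ⊢
    have h1 := cnt_le_real (H := H) hd N m
    have hd0 := (hd m).1
    have hd1 := (hd m).2
    have hN : (0 : ℝ) ≤ N := Nat.cast_nonneg N
    refine ⟨?_, ?_⟩
    · nlinarith [ih.1]
    · rcases le_or_gt n0 N with h | h
      · have h2 := le_cnt_real (d := d) (hn0 N h)
        have h3 : (n0 : ℝ) ≤ N := by exact_mod_cast h
        rw [min_eq_right h3] at ih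
        rw [min_eq_right (by linarith)]
        nlinarith [ih.2]
      · have h3 : (N : ℝ) + 1 ≤ n0 := by exact_mod_cast h
        rw [min_eq_left (by linarith)] at ih
        rw [min_eq_left h3]
        have h4 : (0 : ℝ) ≤ cnt d H N m := Nat.cast_nonneg _
        nlinarith [ih.2]

lemma tendsto_density (hd : ∀ n, 0 ≤ d n ∧ d n ≤ 1) (hs : Summable d) (hsum : ∑' n, d n ≤ 2)
    (ha : Function.Injective a) (hβ : ∀ i n, a n ≠ some (β i)) (hHt : Tendsto H atTop atTop)
    (m : ℕ) [DecidablePred fun i => lab d H a β i = a m] :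
    Tendsto (fun K : ℕ => (((Finset.range K).filter (fun i => lab d H a β i = a m)).card : ℝ) / K)
        atTop (𝓝 (d m / 2)) := by
  obtain ⟨n0, hn0⟩ : ∃ n0, ∀ n, n0 ≤ n → m < H n := by
    have := (hHt.eventually_gt_atTop m)
    exact eventually_atTop.1 this
  set A : ℕ → ℕ := fun K => ((Finset.range K).filter (fun i => lab d H a β i = a m)).card with hA
  have hAmono : Monotone A := by
    intro K K' h
    exact Finset.card_le_card (Finset.filter_subset_filter _ (Finset.range_mono h))
  have hd0 := (hd m).1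
  have hd1 := (hd m).2
  have hbound : ∀ K : ℕ, |(A K : ℝ) - d m / 2 * K| ≤ 4 * Nat.sqrt K + (n0 * n0 + 1) := by
    intro K
    set N := Nat.sqrt K with hN
    have hk1 : N * N ≤ K := Nat.sqrt_le K
    have hk2 : K < (N + 1) * (N + 1) := Nat.lt_succ_sqrt K
    have b1 := sum_cnt_bounds (H := H) hd m n0 hn0 N
    have b2 := sum_cnt_bounds (H := H) hd m n0 hn0 (N + 1)
    rw [← card_sq (H := H) hd hs hsum ha hβ m N] at b1
    rw [← card_sq (H := H) hd hs hsum ha hβ m (N + 1)] at b2
    have c1 : (A (N * N) : ℝ) ≤ A K := by exact_mod_cast hAmono hk1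
    have c2 : (A K : ℝ) ≤ A ((N + 1) * (N + 1)) := by exact_mod_cast hAmono hk2.le
    have hk1' : (N : ℝ) * N ≤ K := by exact_mod_cast hk1
    have hk2' : (K : ℝ) ≤ (N + 1) * (N + 1) := by exact_mod_cast hk2.le
    have hN0 : (0 : ℝ) ≤ N := Nat.cast_nonneg N
    have hmin : (n0 : ℝ) * min (N : ℝ) n0 ≤ n0 * n0 :=
      mul_le_mul_of_nonneg_left (min_le_right _ _) (Nat.cast_nonneg _)
    have b1' := b1.2
    have b2' := b2.1
    simp only [hA] at c1 c2 ⊢
    push_cast at b1' b2'
    have e1 : d m / 2 * K ≤ d m / 2 * ((N + 1) * (N + 1)) :=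
      mul_le_mul_of_nonneg_left hk2' (by linarith)
    have e2 : d m / 2 * (N * N) ≤ d m / 2 * K := mul_le_mul_of_nonneg_left hk1' (by linarith)
    have e3 : d m * N ≤ N := by nlinarith
    rw [abs_le]
    constructor
    · nlinarith
    · nlinarith
  have hlim : Tendsto (fun K : ℕ => ((n0 : ℝ) * n0 + 5) / (Nat.sqrt K : ℝ)) atTop (𝓝 0) :=
    (tendsto_const_div_atTop_nhds_zero_nat ((n0 : ℝ) * n0 + 5)).comp tendsto_sqrt
  rw [tendsto_iff_norm_sub_tendsto_zero]
  refine squeeze_zero' (Eventually.of_forall fun _ => norm_nonneg _) ?_ hlim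
  filter_upwards [eventually_ge_atTop 1] with K hK
  have hKpos : (0 : ℝ) < K := by exact_mod_cast hK
  have hs1 : 1 ≤ Nat.sqrt K := Nat.le_sqrt.2 (by simpa using hK)
  have hs1' : (1 : ℝ) ≤ Nat.sqrt K := by exact_mod_cast hs1
  have hss : ((Nat.sqrt K : ℕ) : ℝ) * Nat.sqrt K ≤ K := by exact_mod_cast Nat.sqrt_le K
  have e : (A K : ℝ) / K - d m / 2 = ((A K : ℝ) - d m / 2 * K) / K := by field_simp
  change ‖(A K : ℝ) / K - d m / 2‖ ≤ _
  rw [e, Real.norm_eq_abs, abs_div, abs_of_pos hKpos]
  rw [div_le_div_iff₀ hKpos (by linarith)]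
  have hb := hbound K
  have hn00 : (0 : ℝ) ≤ (n0 : ℝ) * n0 := by positivity
  calc |(A K : ℝ) - d m / 2 * K| * Nat.sqrt K
      ≤ (4 * Nat.sqrt K + (n0 * n0 + 1)) * Nat.sqrt K :=
        mul_le_mul_of_nonneg_right hb (by linarith)
    _ ≤ ((n0 * n0 + 5) * Nat.sqrt K) * Nat.sqrt K := by
        apply mul_le_mul_of_nonneg_right _ (by linarith)
        nlinarith
    _ = (n0 * n0 + 5) * (Nat.sqrt K * Nat.sqrt K) := by ring
    _ ≤ (n0 * n0 + 5) * K := mul_le_mul_of_nonneg_left hss (by linarith)

lemma eventually_lab_ne (hHt : Tendsto H atTop atTop) (hβi : Function.Injective β)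
    (w : Option ℂ) (hw : ∀ n, a n ≠ w) : ∃ I, ∀ i, I ≤ i → lab d H a β i ≠ w := by
  by_cases hp : ∃ p, w = some (β p)
  · obtain ⟨p, rfl⟩ := hp
    obtain ⟨I, hI⟩ := eventually_atTop.1 ((hHt.comp tendsto_sqrt).eventually_gt_atTop p)
    refine ⟨I, fun i hi h => ?_⟩
    have h1 := hI i hi
    simp only [Function.comp_apply] at h1
    unfold lab at h
    by_cases hex : ∃ m, InArc d H (Nat.sqrt i)
        (slot (Nat.sqrt i) (i - Nat.sqrt i * Nat.sqrt i)) m
    · obtain ⟨m, hm⟩ := hex
      rw [labAt_eq_of_inArc hm] at h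
      exact hw m h
    · rw [labAt_eq_of_not hex] at h
      have := hβi (Option.some.inj h)
      omega
  · refine ⟨0, fun i _ h => ?_⟩
    unfold lab at h
    by_cases hex : ∃ m, InArc d H (Nat.sqrt i)
        (slot (Nat.sqrt i) (i - Nat.sqrt i * Nat.sqrt i)) m
    · obtain ⟨m, hm⟩ := hex
      rw [labAt_eq_of_inArc hm] at h
      exact hw m h
    · rw [labAt_eq_of_not hex] at h
      exact hp ⟨_, h.symm⟩

lemma tendsto_density_zero (L : ℕ → Option ℂ) (w : Option ℂ) (I : ℕ) (hI : ∀ i, I ≤ i → L i ≠ w)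
    [DecidablePred fun i => L i = w] :
    Tendsto (fun K : ℕ => (((Finset.range K).filter (fun i => L i = w)).card : ℝ) / K)
        atTop (𝓝 0) := by
  refine squeeze_zero (fun K => by positivity) (fun K => ?_)
    (tendsto_const_div_atTop_nhds_zero_nat (I : ℝ))
  apply div_le_div_of_nonneg_right _ (Nat.cast_nonneg K)
  have : ((Finset.range K).filter (fun i => L i = w)) ⊆ Finset.range I := by
    intro i hi
    rw [Finset.mem_filter] at hi
    rw [Finset.mem_range]
    by_contra hcon
    exact hI i (by omega) hi.2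
  have h2 := Finset.card_le_card this
  rw [Finset.card_range] at h2
  exact_mod_cast h2

lemma exists_dummies (a : ℕ → Option ℂ) : ∃ β : ℕ → ℂ, Function.Injective β ∧
    ∀ i n, a n ≠ some (β i) := by
  have hcount : (some ⁻¹' (Set.range a) : Set ℂ).Countable :=
    (Set.countable_range a).preimage (Option.some_injective ℂ)
  have hinf : ((some ⁻¹' (Set.range a) : Set ℂ)ᶜ).Infinite := by
    intro hfin
    have h1 : (Set.univ : Set ℂ).Countable := by
      rw [← Set.union_compl_self (some ⁻¹' (Set.range a) : Set ℂ)]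
      exact hcount.union hfin.countable
    exact not_countable_complex h1
  refine ⟨fun i => (hinf.natEmbedding _ i : ℂ), ?_, ?_⟩
  · intro i j h
    exact (hinf.natEmbedding _).injective (Subtype.ext h)
  · intro i n h
    have := (hinf.natEmbedding _ i).2
    exact this ⟨n, h⟩

end Labels

open Labels in
/-- (C) label sequences: consecutive distinct, separated at an exponential rate, with prescribed
natural densities. -/
theorem exists_labels (a : ℕ → Option ℂ) (d : ℕ → ℝ) (ha : Function.Injective a)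
    (hd : ∀ n, 0 ≤ d n ∧ d n ≤ 1) (hs : Summable d) (hsum : ∑' n, d n ≤ 2) :
    ∃ (L : ℕ → Option ℂ) (C : ℝ),
      (∀ k, L k ≠ L (k + 1)) ∧
      (∀ k i j, i ≤ k → j ≤ k → L i ≠ L j →
        Real.exp (-(k + C)) ≤ ‖det2 (vec (L i)) (vec (L j))‖) ∧
      (∀ n, Tendsto (fun K : ℕ => (({i ∈ Finset.range K | L i = a n} : Finset ℕ).card : ℝ) / K)
        atTop (𝓝 (d n / 2))) ∧
      (∀ w, (∀ n, a n ≠ w) →
        Tendsto (fun K : ℕ => (({i ∈ Finset.range K | L i = w} : Finset ℕ).card : ℝ) / K)
          atTop (𝓝 0)) := by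
  classical
  obtain ⟨β, hβi, hβ⟩ := exists_dummies a
  obtain ⟨H, C, hH, hHt, hsep⟩ := exists_slow a β
  refine ⟨lab d H a β, C, ?_, ?_, ?_, ?_⟩
  · exact lab_ne_succ hd hH ha hβ hβi
  · intro k i j hi hj hij
    have hmem : ∀ i, i ≤ k → lab d H a β i ∈ used a β (H (Nat.sqrt k)) := by
      intro i hi
      exact used_mono (hH (Nat.sqrt_le_sqrt hi)) (lab_mem_used i)
    refine le_trans ?_ (hsep (Nat.sqrt k) _ (hmem i hi) _ (hmem j hj) hij)
    apply Real.exp_le_exp.2
    have : ((Nat.sqrt k : ℕ) : ℝ) ≤ k := by exact_mod_cast Nat.sqrt_le_self k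
    linarith
  · intro n
    exact tendsto_density hd hs hsum ha hβ hHt n
  · intro w hw
    obtain ⟨I, hI⟩ := eventually_lab_ne (d := d) (a := a) hHt hβi w hw
    exact tendsto_density_zero _ w I hI

end IDP
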