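import Mathlib

namespace Pool.Agent.Helper90.Pulse

lemma algN (r θ s Q m D : ℝ) (hD : D ≠ 0) (hs : s * (2 - θ) = 1) (hDm : D = 1 - θ * m) :
    -θ * (r * m - Q) + θ ^ 2 * (s * Q + 2 * (s * (r * (Q * m)))
      - s * (Q ^ 2 * ((1 + r * (θ * m)) / D)) + r * m ^ 2)
    = -(D * ((1 - s + s * (1 - θ * Q / D) ^ 2) * (r * (1 - D) + 1) - 1)) := by
  have key : -θ * (r * m - Q) + θ ^ 2 * (s * Q + 2 * (s * (r * (Q * m)))
      - s * (Q ^ 2 * ((1 + r * (θ * m)) / D)) + r * m ^ 2)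
    + (D * ((1 - s + s * (1 - θ * Q / D) ^ 2) * (r * (1 - D) + 1) - 1))
    = θ * Q * (1 - s * (2 - θ)) := by
    have h1 : 1 + r * (θ * m) = r * (1 - D) + 1 := by rw [hDm]; ring
    rw [h1]
    have h2 : θ * m = 1 - D := by rw [hDm]; ring
    have h3 : -θ * (r * m - Q) = - r * (1 - D) + θ * Q := by rw [← h2]; ring
    have h4 : θ ^ 2 * (s * Q + 2 * (s * (r * (Q * m)))
      - s * (Q ^ 2 * ((r * (1 - D) + 1) / D)) + r * m ^ 2)
      = θ ^ 2 * s * Q + 2 * θ * s * r * Q * (1 - D)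
      - θ ^ 2 * s * (Q ^ 2 * ((r * (1 - D) + 1) / D)) + r * (1 - D) ^ 2 := by
      rw [← h2]; ring
    rw [h3, h4]
    field_simp
    ring
  rw [hs] at key
  linarith

lemma algV (r θ s Q E m D A : ℝ) (hD : D ≠ 0) (hs : s * (2 - θ) = 1) (hDm : D = 1 - θ * m)
    (hE : r * m = Q + E)
    (hA : A = Q * (m + (-1)) * D⁻¹ + (2 + (1 - θ) * (Q * D⁻¹)) * (Q + E)) :
    θ ^ 2 / 8 * (4 * (Q * (1 + (-1) * Q)) + (-8) * (Q * E) + θ * (4 * (Q * A)
      + 4 * (s * (Q * (1 + (-1) * Q + (-2) * E + θ * A)))))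
    = -(θ * Q * ((1 - s) * (2 - θ * Q / D) * (r * (1 - D) + 1) - 1)) := by
  have h1 : 4 * (Q * (1 + (-1) * Q)) + (-8) * (Q * E) + θ * (4 * (Q * A)
      + 4 * (s * (Q * (1 + (-1) * Q + (-2) * E + θ * A))))
      = 8 * s * Q * (1 - Q - 2 * E + θ * A) := by
    linear_combination (-4 * Q * (1 - Q - 2 * E + θ * A)) * hs
  have h2 : 1 - Q - 2 * E + θ * A = 1 + (1 - θ) * Q / D - (1 - θ) * (2 - θ * Q / D) * (Q + E) := by
    rw [hA]
    have : θ * m = 1 - D := by rw [hDm]; ring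
    field_simp
    linear_combination Q * this
  have h3 : r * (1 - D) + 1 = 1 + θ * (Q + E) := by
    rw [hDm, ← hE]; ring
  have h4 : 1 - s = s * (1 - θ) := by linarith
  rw [h1, h2, h3, h4]
  field_simp
  linear_combination (θ * Q * D) * hs

end Pool.Agent.Helper90.Pulse
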