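import Mathlib

/-!
Green's operator of `u'' = q u + g` on even functions with exponential decay.
-/

open MeasureTheory Set Filter Topology

namespace Pool.Agent.Helper90.Pulse

/-- Data of a linear equation `u'' = q u` with a decaying solution `φ` and a growing even
solution `ψ`. -/
structure GreenData where
  φ : ℝ → ℝ
  φ' : ℝ → ℝ
  ψ : ℝ → ℝ
  ψ' : ℝ → ℝ
  q : ℝ → ℝ
  W : ℝ
  b : ℝ
  α : ℝ
  β : ℝ
  c : ℝ
  hW : 0 < W
  hb : 1 < b
  hα : 0 ≤ α
  hβ : 0 ≤ β
  dφ : ∀ y, HasDerivAt φ (φ' y) y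
  dφ' : ∀ y, HasDerivAt φ' (q y * φ y) y
  dψ : ∀ y, HasDerivAt ψ (ψ' y) y
  dψ' : ∀ y, HasDerivAt ψ' (q y * ψ y) y
  wr : ∀ y, φ y * ψ' y - φ' y * ψ y = W
  bφ : ∀ y, 0 ≤ y → |φ y| ≤ α * Real.exp (-(b * y))
  bψ : ∀ y, 0 ≤ y → |ψ y| ≤ β * Real.exp (b * y)
  evψ : ∀ y, ψ (-y) = ψ y
  evφ : ∀ y, φ (-y) = 2 * c * ψ y - φ y

namespace GreenData

variable (D : GreenData)

lemma cφ : Continuous D.φ := continuous_iff_continuousAt.2 fun y => (D.dφ y).continuousAt
lemma cψ : Continuous D.ψ := continuous_iff_continuousAt.2 fun y => (D.dψ y).continuousAt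

/-- the improper integral -/
noncomputable def I (g : ℝ → ℝ) : ℝ := ∫ z in Ioi (0:ℝ), D.φ z * g z

/-- the solution operator -/
noncomputable def u (g : ℝ → ℝ) (y : ℝ) : ℝ :=
  -(D.φ y / D.W) * (∫ z in (0:ℝ)..y, D.ψ z * g z)
    - (D.ψ y / D.W) * (D.I g - ∫ z in (0:ℝ)..y, D.φ z * g z)

/-- the derivative of the solution -/
noncomputable def u' (g : ℝ → ℝ) (y : ℝ) : ℝ :=
  -(D.φ' y / D.W) * (∫ z in (0:ℝ)..y, D.ψ z * g z)
    - (D.ψ' y / D.W) * (D.I g - ∫ z in (0:ℝ)..y, D.φ z * g z)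

lemma hasDerivAt_u {g : ℝ → ℝ} (hg : Continuous g) (y : ℝ) :
    HasDerivAt (D.u g) (D.u' g y) y := by
  have c1 : Continuous (fun z => D.ψ z * g z) := D.cψ.mul hg
  have c2 : Continuous (fun z => D.φ z * g z) := D.cφ.mul hg
  have h1 : HasDerivAt (fun y => ∫ z in (0:ℝ)..y, D.ψ z * g z) (D.ψ y * g y) y :=
    (c1.integral_hasStrictDerivAt 0 y).hasDerivAt
  have h2 : HasDerivAt (fun y => ∫ z in (0:ℝ)..y, D.φ z * g z) (D.φ y * g y) y :=
    (c2.integral_hasStrictDerivAt 0 y).hasDerivAt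
  have h3 := ((D.dφ y).div_const D.W).neg.mul h1
  have h4 := ((D.dψ y).div_const D.W).mul (h2.const_sub (D.I g))
  have h5 := h3.sub h4
  refine h5.congr_deriv ?_
  simp only [u', Pi.neg_apply]
  have := D.hW.ne'
  field_simp
  ring

lemma hasDerivAt_u' {g : ℝ → ℝ} (hg : Continuous g) (y : ℝ) :
    HasDerivAt (D.u' g) (D.q y * D.u g y + g y) y := by
  have c1 : Continuous (fun z => D.ψ z * g z) := D.cψ.mul hg
  have c2 : Continuous (fun z => D.φ z * g z) := D.cφ.mul hg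
  have h1 : HasDerivAt (fun y => ∫ z in (0:ℝ)..y, D.ψ z * g z) (D.ψ y * g y) y :=
    (c1.integral_hasStrictDerivAt 0 y).hasDerivAt
  have h2 : HasDerivAt (fun y => ∫ z in (0:ℝ)..y, D.φ z * g z) (D.φ y * g y) y :=
    (c2.integral_hasStrictDerivAt 0 y).hasDerivAt
  have h3 := ((D.dφ' y).div_const D.W).neg.mul h1
  have h4 := ((D.dψ' y).div_const D.W).mul (h2.const_sub (D.I g))
  have h5 := h3.sub h4
  refine h5.congr_deriv ?_
  simp only [u, Pi.neg_apply]
  have hW := D.hW.ne'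
  have hw := D.wr y
  field_simp
  linear_combination (g y) * hw

lemma u_even {g : ℝ → ℝ} (hg : Continuous g) (hev : ∀ y, g (-y) = g y) (y : ℝ) :
    D.u g (-y) = D.u g y := by
  have h1 : ∫ z in (0:ℝ)..(-y), D.ψ z * g z = - ∫ z in (0:ℝ)..y, D.ψ z * g z := by
    have := intervalIntegral.integral_comp_neg (a := 0) (b := y) (fun z => D.ψ z * g z)
    simp only [neg_zero, D.evψ, hev] at this
    rw [intervalIntegral.integral_symm, ← this]
  have h2 : ∫ z in (0:ℝ)..(-y), D.φ z * g z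
      = - (2 * D.c * ∫ z in (0:ℝ)..y, D.ψ z * g z) + ∫ z in (0:ℝ)..y, D.φ z * g z := by
    have := intervalIntegral.integral_comp_neg (a := 0) (b := y) (fun z => D.φ z * g z)
    simp only [neg_zero, D.evφ, hev] at this
    rw [intervalIntegral.integral_symm, ← this]
    have e : (fun x => (2 * D.c * D.ψ x - D.φ x) * g x)
        = fun x => 2 * D.c * (D.ψ x * g x) - D.φ x * g x := by
      funext x; ring
    rw [e, intervalIntegral.integral_sub, intervalIntegral.integral_const_mul]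
    · ring
    · exact (continuous_const.mul (D.cψ.mul hg)).intervalIntegrable _ _
    · exact (D.cφ.mul hg).intervalIntegrable _ _
  simp only [u]
  rw [h1, h2, D.evψ, D.evφ]
  ring

lemma integrable_aux {g : ℝ → ℝ} (hg : Continuous g) {G : ℝ}
    (hb : ∀ y, 0 ≤ y → |g y| ≤ G * Real.exp (-y)) (y : ℝ) (hy : 0 ≤ y) :
    IntegrableOn (fun z => D.φ z * g z) (Ioi y) := by
  have hG : 0 ≤ G := by
    have := hb 0 le_rfl
    simp at this
    exact (abs_nonneg _).trans this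
  have h1 : IntegrableOn (fun z => D.α * G * Real.exp (-(D.b + 1) * z)) (Ioi y) :=
    (integrableOn_exp_mul_Ioi (by linarith [D.hb]) y).const_mul _
  refine h1.mono' (D.cφ.mul hg).aestronglyMeasurable.restrict ?_
  refine (ae_restrict_iff' measurableSet_Ioi).2 (Eventually.of_forall fun z hz => ?_)
  have hz0 : 0 ≤ z := hy.trans (le_of_lt hz)
  rw [Real.norm_eq_abs, abs_mul]
  calc |D.φ z| * |g z| ≤ (D.α * Real.exp (-(D.b * z))) * (G * Real.exp (-z)) :=
        mul_le_mul (D.bφ z hz0) (hb z hz0) (abs_nonneg _)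
          (mul_nonneg D.hα (Real.exp_pos _).le)
    _ = D.α * G * (Real.exp (-(D.b * z)) * Real.exp (-z)) := by ring
    _ = D.α * G * Real.exp (-(D.b + 1) * z) := by
        rw [← Real.exp_add]; congr 2; ring

lemma I_sub_eq {g : ℝ → ℝ} (hg : Continuous g) {G : ℝ}
    (hb : ∀ y, 0 ≤ y → |g y| ≤ G * Real.exp (-y)) (y : ℝ) (hy : 0 ≤ y) :
    D.I g - ∫ z in (0:ℝ)..y, D.φ z * g z = ∫ z in Ioi y, D.φ z * g z := by
  have h := intervalIntegral.integral_interval_add_Ioi (D.integrable_aux hg hb 0 le_rfl)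
    (D.integrable_aux hg hb y hy)
  simp only [I]
  linarith

/-- The norm of Green's operator. -/
noncomputable def Λ : ℝ := D.α * D.β / D.W * (1 / (D.b - 1) + 1 / (D.b + 1))

lemma Λ_nonneg : 0 ≤ D.Λ := by
  have h1 := D.hα
  have h2 := D.hβ
  have h3 := D.hW
  have h4 : 0 < D.b - 1 := by linarith [D.hb]
  have h5 : 0 < D.b + 1 := by linarith [D.hb]
  unfold Λ
  positivity

lemma u_bound_nonneg {g : ℝ → ℝ} (hg : Continuous g) {G : ℝ}
    (hb : ∀ y, 0 ≤ y → |g y| ≤ G * Real.exp (-y)) (y : ℝ) (hy : 0 ≤ y) :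
    |D.u g y| ≤ D.Λ * G * Real.exp (-y) := by
  have hG : 0 ≤ G := by
    have := hb 0 le_rfl
    simp at this
    exact (abs_nonneg _).trans this
  have hα := D.hα
  have hβ := D.hβ
  have hW := D.hW
  have hb1 : 0 < D.b - 1 := by linarith [D.hb]
  have hb2 : 0 < D.b + 1 := by linarith [D.hb]
  have h1 : |∫ z in (0:ℝ)..y, D.ψ z * g z| ≤ D.β * G * (Real.exp ((D.b - 1) * y) / (D.b - 1)) := by
    have hle : ∀ z ∈ Ioc (0:ℝ) y, ‖D.ψ z * g z‖ ≤ D.β * G * Real.exp ((D.b - 1) * z) := by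
      intro z hz
      have hz0 : 0 ≤ z := hz.1.le
      rw [Real.norm_eq_abs, abs_mul]
      calc |D.ψ z| * |g z| ≤ (D.β * Real.exp (D.b * z)) * (G * Real.exp (-z)) :=
            mul_le_mul (D.bψ z hz0) (hb z hz0) (abs_nonneg _)
              (mul_nonneg D.hβ (Real.exp_pos _).le)
        _ = D.β * G * (Real.exp (D.b * z) * Real.exp (-z)) := by ring
        _ = D.β * G * Real.exp ((D.b - 1) * z) := by
            rw [← Real.exp_add]; congr 2; ring
    have cc : Continuous (fun z => D.β * G * Real.exp ((D.b - 1) * z)) := by fun_prop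
    have h2 := intervalIntegral.norm_integral_le_of_norm_le (μ := volume) hy
      (Eventually.of_forall fun z hz => hle z hz) (cc.intervalIntegrable 0 y)
    rw [Real.norm_eq_abs] at h2
    refine h2.trans ?_
    have h3 : ∫ z in (0:ℝ)..y, D.β * G * Real.exp ((D.b - 1) * z)
        = D.β * G * ((Real.exp ((D.b - 1) * y) - 1) / (D.b - 1)) := by
      rw [intervalIntegral.integral_const_mul]
      congr 1
      rw [intervalIntegral.integral_comp_mul_left (fun z => Real.exp z) hb1.ne']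
      simp
      field_simp
    rw [h3]
    apply mul_le_mul_of_nonneg_left _ (by positivity)
    apply div_le_div_of_nonneg_right _ hb1.le
    linarith
  have h2 : |D.I g - ∫ z in (0:ℝ)..y, D.φ z * g z|
      ≤ D.α * G * (Real.exp (-(D.b + 1) * y) / (D.b + 1)) := by
    rw [D.I_sub_eq hg hb y hy]
    have hint : IntegrableOn (fun z => D.α * G * Real.exp (-(D.b + 1) * z)) (Ioi y) :=
      (integrableOn_exp_mul_Ioi (by linarith [D.hb]) y).const_mul _
    have h3 := norm_integral_le_of_norm_le (f := fun z => D.φ z * g z) hint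
      ((ae_restrict_iff' measurableSet_Ioi).2 (Eventually.of_forall fun z hz => by
        have hz0 : 0 ≤ z := hy.trans (le_of_lt hz)
        rw [Real.norm_eq_abs, abs_mul]
        calc |D.φ z| * |g z| ≤ (D.α * Real.exp (-(D.b * z))) * (G * Real.exp (-z)) :=
              mul_le_mul (D.bφ z hz0) (hb z hz0) (abs_nonneg _)
                (mul_nonneg D.hα (Real.exp_pos _).le)
          _ = D.α * G * (Real.exp (-(D.b * z)) * Real.exp (-z)) := by ring
          _ = D.α * G * Real.exp (-(D.b + 1) * z) := by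
              rw [← Real.exp_add]; congr 2; ring))
    rw [Real.norm_eq_abs] at h3
    refine h3.trans (le_of_eq ?_)
    rw [integral_const_mul, integral_exp_mul_Ioi (by linarith [D.hb])]
    field_simp
  have e1 : |D.u g y| ≤ |D.φ y| / D.W * |∫ z in (0:ℝ)..y, D.ψ z * g z|
      + |D.ψ y| / D.W * |D.I g - ∫ z in (0:ℝ)..y, D.φ z * g z| := by
    simp only [u]
    refine (abs_sub _ _).trans (le_of_eq ?_)
    rw [abs_mul, abs_mul, abs_neg, abs_div, abs_div, abs_of_pos hW]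
  refine e1.trans ?_
  have t1 : |D.φ y| / D.W * |∫ z in (0:ℝ)..y, D.ψ z * g z|
      ≤ (D.α * Real.exp (-(D.b * y))) / D.W
        * (D.β * G * (Real.exp ((D.b - 1) * y) / (D.b - 1))) := by
    apply mul_le_mul _ h1 (abs_nonneg _) (by positivity)
    exact div_le_div_of_nonneg_right (D.bφ y hy) hW.le
  have t2 : |D.ψ y| / D.W * |D.I g - ∫ z in (0:ℝ)..y, D.φ z * g z|
      ≤ (D.β * Real.exp (D.b * y)) / D.W
        * (D.α * G * (Real.exp (-(D.b + 1) * y) / (D.b + 1))) := by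
    apply mul_le_mul _ h2 (abs_nonneg _) (by positivity)
    exact div_le_div_of_nonneg_right (D.bψ y hy) hW.le
  have s1 : (D.α * Real.exp (-(D.b * y))) / D.W
        * (D.β * G * (Real.exp ((D.b - 1) * y) / (D.b - 1)))
      = D.α * D.β / D.W * (1 / (D.b - 1)) * G * Real.exp (-y) := by
    have : Real.exp (-(D.b * y)) * Real.exp ((D.b - 1) * y) = Real.exp (-y) := by
      rw [← Real.exp_add]; congr 1; ring
    rw [← this]; ring
  have s2 : (D.β * Real.exp (D.b * y)) / D.W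
        * (D.α * G * (Real.exp (-(D.b + 1) * y) / (D.b + 1)))
      = D.α * D.β / D.W * (1 / (D.b + 1)) * G * Real.exp (-y) := by
    have : Real.exp (D.b * y) * Real.exp (-(D.b + 1) * y) = Real.exp (-y) := by
      rw [← Real.exp_add]; congr 1; ring
    rw [← this]; ring
  rw [s1] at t1
  rw [s2] at t2
  have : D.Λ * G * Real.exp (-y) = D.α * D.β / D.W * (1 / (D.b - 1)) * G * Real.exp (-y)
      + D.α * D.β / D.W * (1 / (D.b + 1)) * G * Real.exp (-y) := by
    unfold Λ; ring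
  rw [this]
  linarith

lemma u_sub {g₁ g₂ : ℝ → ℝ} (hg₁ : Continuous g₁) (hg₂ : Continuous g₂) {G₁ G₂ : ℝ}
    (hb₁ : ∀ y, 0 ≤ y → |g₁ y| ≤ G₁ * Real.exp (-y))
    (hb₂ : ∀ y, 0 ≤ y → |g₂ y| ≤ G₂ * Real.exp (-y)) (y : ℝ) :
    D.u g₁ y - D.u g₂ y = D.u (fun z => g₁ z - g₂ z) y := by
  have e1 : D.I (fun z => g₁ z - g₂ z) = D.I g₁ - D.I g₂ := by
    simp only [I, mul_sub]
    exact integral_sub (D.integrable_aux hg₁ hb₁ 0 le_rfl) (D.integrable_aux hg₂ hb₂ 0 le_rfl)
  have e2 : ∫ z in (0:ℝ)..y, D.ψ z * (g₁ z - g₂ z)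
      = (∫ z in (0:ℝ)..y, D.ψ z * g₁ z) - ∫ z in (0:ℝ)..y, D.ψ z * g₂ z := by
    simp only [mul_sub]
    exact intervalIntegral.integral_sub ((D.cψ.mul hg₁).intervalIntegrable _ _)
      ((D.cψ.mul hg₂).intervalIntegrable _ _)
  have e3 : ∫ z in (0:ℝ)..y, D.φ z * (g₁ z - g₂ z)
      = (∫ z in (0:ℝ)..y, D.φ z * g₁ z) - ∫ z in (0:ℝ)..y, D.φ z * g₂ z := by
    simp only [mul_sub]
    exact intervalIntegral.integral_sub ((D.cφ.mul hg₁).intervalIntegrable _ _)
      ((D.cφ.mul hg₂).intervalIntegrable _ _)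
  simp only [u]
  rw [e1, e2, e3]
  ring

lemma continuous_u {g : ℝ → ℝ} (hg : Continuous g) : Continuous (D.u g) :=
  continuous_iff_continuousAt.2 fun y => (D.hasDerivAt_u hg y).continuousAt

end GreenData

end Pool.Agent.Helper90.Pulse
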