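import Mathlib
import Pool.Agent.Helper90.PulseGreen

/-!
The two linear operators: the Poschl-Teller operator and `∂² - κ²`; the base pulse.
-/

open MeasureTheory Set Filter Topology

namespace Pool.Agent.Helper90.Pulse

open Real

lemma cosh_ge (y : ℝ) : exp |y| / 2 ≤ cosh y := by
  rw [← Real.cosh_abs, Real.cosh_eq]
  have := exp_pos (-|y|)
  linarith

lemma inv_cosh_sq_le (y : ℝ) (hy : 0 ≤ y) : 1 / cosh y ^ 2 ≤ 4 * exp (-(2 * y)) := by
  have h1 := cosh_ge y
  rw [abs_of_nonneg hy] at h1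
  have h2 : 0 < exp y := exp_pos y
  have h3 : (exp y / 2) ^ 2 ≤ cosh y ^ 2 := pow_le_pow_left₀ (by positivity) h1 2
  have h4 : 1 / cosh y ^ 2 ≤ 1 / (exp y / 2) ^ 2 :=
    one_div_le_one_div_of_le (by positivity) h3
  refine h4.trans (le_of_eq ?_)
  rw [show -(2 * y) = -(y + y) by ring, exp_neg, exp_add]
  field_simp
  norm_num

lemma abs_sinh_le_cosh (y : ℝ) : |sinh y| ≤ cosh y := by
  rw [abs_le]
  have h1 := exp_pos y
  have h2 := exp_pos (-y)
  rw [Real.sinh_eq, Real.cosh_eq]
  constructor <;> linarith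

lemma cosh_sq_le (y : ℝ) (hy : 0 ≤ y) : cosh y ^ 2 ≤ exp (2 * y) := by
  have h1 : cosh y ≤ exp y := by
    rw [Real.cosh_eq]
    have : exp (-y) ≤ exp y := exp_le_exp.2 (by linarith)
    linarith
  have h2 := pow_le_pow_left₀ (cosh_pos y).le h1 2
  refine h2.trans (le_of_eq ?_)
  rw [two_mul, exp_add]; ring

lemma abs_phi_le (y : ℝ) : |sinh y / cosh y ^ 3| ≤ 1 / cosh y ^ 2 := by
  have hc := cosh_pos y
  rw [abs_div, abs_of_pos (pow_pos hc 3), div_le_div_iff₀ (pow_pos hc 3) (pow_pos hc 2)]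
  have := abs_sinh_le_cosh y
  calc |sinh y| * cosh y ^ 2 ≤ cosh y * cosh y ^ 2 :=
        mul_le_mul_of_nonneg_right this (by positivity)
    _ = 1 * cosh y ^ 3 := by ring

/-- The linearisation at the base pulse. -/
noncomputable def dataL : GreenData where
  φ := fun y => sinh y / cosh y ^ 3
  φ' := fun y => (3 - 2 * cosh y ^ 2) / cosh y ^ 4
  ψ := fun y => 2 * cosh y ^ 2 + 5 - 15 / cosh y ^ 2 + 15 * y * (sinh y / cosh y ^ 3)
  ψ' := fun y => 4 * cosh y * sinh y + 45 * sinh y / cosh y ^ 3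
    + 15 * y * ((3 - 2 * cosh y ^ 2) / cosh y ^ 4)
  q := fun y => 4 - 12 / cosh y ^ 2
  W := 8
  b := 2
  α := 4
  β := 37
  c := 0
  hW := by norm_num
  hb := by norm_num
  hα := by norm_num
  hβ := by norm_num
  dφ := by
    intro y
    have hc := (cosh_pos y).ne'
    have hs := Real.sinh_sq y
    have := (Real.hasDerivAt_sinh y).div ((Real.hasDerivAt_cosh y).pow 3) (pow_ne_zero 3 hc)
    refine this.congr_deriv ?_
    simp only [Pi.pow_apply]
    field_simp
    push_cast
    linear_combination (-3) * cosh y ^ 2 * hs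
  dφ' := by
    intro y
    have hc := (cosh_pos y).ne'
    have := (((((Real.hasDerivAt_cosh y).pow 2).const_mul 2).const_sub 3)).div
      ((Real.hasDerivAt_cosh y).pow 4) (pow_ne_zero 4 hc)
    refine this.congr_deriv ?_
    simp only [Pi.pow_apply]
    field_simp
    push_cast
    ring
  dψ := by
    intro y
    have hc := (cosh_pos y).ne'
    have hs := Real.sinh_sq y
    have h1 := ((((Real.hasDerivAt_cosh y).pow 2).const_mul 2).add_const 5)
    have h2 := ((hasDerivAt_const y (15:ℝ)).div ((Real.hasDerivAt_cosh y).pow 2)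
      (pow_ne_zero 2 hc))
    have h3 := ((hasDerivAt_id y).const_mul 15).mul
      ((Real.hasDerivAt_sinh y).div ((Real.hasDerivAt_cosh y).pow 3) (pow_ne_zero 3 hc))
    have := (h1.sub h2).add h3
    refine this.congr_deriv ?_
    simp only [Pi.pow_apply, id, Pi.div_apply]
    field_simp
    push_cast
    linear_combination (-45) * y * cosh y ^ 2 * hs
  dψ' := by
    intro y
    have hc := (cosh_pos y).ne'
    have hs := Real.sinh_sq y
    have h1 := ((Real.hasDerivAt_cosh y).const_mul 4).mul (Real.hasDerivAt_sinh y)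
    have h2 := ((Real.hasDerivAt_sinh y).const_mul 45).div ((Real.hasDerivAt_cosh y).pow 3)
      (pow_ne_zero 3 hc)
    have h3 := ((hasDerivAt_id y).const_mul 15).mul
      ((((((Real.hasDerivAt_cosh y).pow 2).const_mul 2).const_sub 3)).div
        ((Real.hasDerivAt_cosh y).pow 4) (pow_ne_zero 4 hc))
    have := (h1.add h2).add h3
    refine this.congr_deriv ?_
    simp only [Pi.pow_apply, id, Pi.div_apply]
    field_simp
    push_cast
    linear_combination (4 * cosh y ^ 8 - 135 * cosh y ^ 4) * hs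
  wr := by
    intro y
    have hc := (cosh_pos y).ne'
    have hs := Real.sinh_sq y
    field_simp
    linear_combination (45 * cosh y + 4 * cosh y ^ 5) * hs
  bφ := by
    intro y hy
    exact (abs_phi_le y).trans (inv_cosh_sq_le y hy)
  bψ := by
    intro y hy
    have hc := cosh_pos y
    have h1 := cosh_sq_le y hy
    have hc1 : 1 ≤ cosh y := one_le_cosh y
    have h2 : 1 / cosh y ^ 2 ≤ 1 := by
      rw [div_le_one (by positivity)]; nlinarith
    have h2' : 0 ≤ 1 / cosh y ^ 2 := by positivity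
    have h3 : |sinh y / cosh y ^ 3| ≤ 1 := (abs_phi_le y).trans h2
    have h4 : 1 ≤ exp (2 * y) := one_le_exp (by linarith)
    have h5 : y ≤ exp (2 * y) := by
      have := add_one_le_exp (2 * y)
      linarith
    have h6 : |15 * y * (sinh y / cosh y ^ 3)| ≤ 15 * exp (2 * y) := by
      rw [abs_mul, abs_of_nonneg (by positivity : 0 ≤ 15 * y)]
      calc 15 * y * |sinh y / cosh y ^ 3| ≤ 15 * y * 1 :=
            mul_le_mul_of_nonneg_left h3 (by positivity)
        _ ≤ 15 * exp (2 * y) := by linarith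
    have h7 : |2 * cosh y ^ 2 + 5 - 15 / cosh y ^ 2| ≤ 22 * exp (2 * y) := by
      rw [show (15:ℝ) / cosh y ^ 2 = 15 * (1 / cosh y ^ 2) by ring, abs_le]
      have : 0 ≤ cosh y ^ 2 := by positivity
      constructor <;> linarith
    refine (abs_add_le _ _).trans ?_
    linarith
  evψ := by
    intro y
    simp only [Real.cosh_neg, Real.sinh_neg]
    ring
  evφ := by
    intro y
    simp only [Real.cosh_neg, Real.sinh_neg]
    ring

/-- The operator `∂² - κ²`. -/
noncomputable def dataK (κ : ℝ) (hκ : 1 < κ) : GreenData where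
  φ := fun y => exp (-(κ * y))
  φ' := fun y => -κ * exp (-(κ * y))
  ψ := fun y => cosh (κ * y)
  ψ' := fun y => κ * sinh (κ * y)
  q := fun _ => κ ^ 2
  W := κ
  b := κ
  α := 1
  β := 1
  c := 1
  hW := by linarith
  hb := hκ
  hα := by norm_num
  hβ := by norm_num
  dφ := by
    intro y
    have h1 := (((hasDerivAt_id y).const_mul κ).neg).exp
    refine h1.congr_deriv ?_
    simp [mul_comm]
  dφ' := by
    intro y
    have h1 := ((((hasDerivAt_id y).const_mul κ).neg).exp).const_mul (-κ)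
    refine h1.congr_deriv ?_
    simp
    ring
  dψ := by
    intro y
    have h1 := ((hasDerivAt_id y).const_mul κ).cosh
    refine h1.congr_deriv ?_
    simp [mul_comm]
  dψ' := by
    intro y
    have h1 := (((hasDerivAt_id y).const_mul κ).sinh).const_mul κ
    refine h1.congr_deriv ?_
    simp
    ring
  wr := by
    intro y
    have h1 : cosh (κ * y) + sinh (κ * y) = exp (κ * y) := Real.cosh_add_sinh _
    have h2 : exp (-(κ * y)) * exp (κ * y) = 1 := by rw [← exp_add]; simp
    linear_combination κ * exp (-(κ * y)) * h1 + κ * h2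
  bφ := by
    intro y _
    rw [abs_of_pos (exp_pos _), one_mul]
  bψ := by
    intro y hy
    rw [abs_of_pos (cosh_pos _), one_mul, Real.cosh_eq]
    have : exp (-(κ * y)) ≤ exp (κ * y) := exp_le_exp.2 (by
      have : 0 ≤ κ * y := mul_nonneg (by linarith) hy
      linarith)
    linarith
  evψ := by
    intro y
    rw [mul_neg, Real.cosh_neg]
  evφ := by
    intro y
    rw [mul_neg, neg_neg, Real.cosh_eq]
    ring

lemma dataK_Λ (κ : ℝ) (hκ : 2 ≤ κ) :
    (dataK κ (by linarith)).Λ ≤ 4 / κ ^ 2 := by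
  have h1 : 0 < κ - 1 := by linarith
  have h2 : 0 < κ + 1 := by linarith
  have h3 : 0 < κ := by linarith
  show 1 * 1 / κ * (1 / (κ - 1) + 1 / (κ + 1)) ≤ 4 / κ ^ 2
  have e : 1 * 1 / κ * (1 / (κ - 1) + 1 / (κ + 1)) = 2 / (κ ^ 2 - 1) := by
    have : κ ^ 2 - 1 = (κ - 1) * (κ + 1) := by ring
    rw [this]
    field_simp
    ring
  have h4 : 0 < κ ^ 2 - 1 := by nlinarith
  rw [e, div_le_div_iff₀ h4 (by positivity)]
  nlinarith

/-- The base pulse. -/
noncomputable def p0 (y : ℝ) : ℝ := 3 / 2 / cosh y ^ 2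

/-- Its derivative. -/
noncomputable def p0' (y : ℝ) : ℝ := -3 * sinh y / cosh y ^ 3

lemma hasDerivAt_p0 (y : ℝ) : HasDerivAt p0 (p0' y) y := by
  have hc := (cosh_pos y).ne'
  have h2 := ((hasDerivAt_const y (3 / 2 : ℝ)).div ((Real.hasDerivAt_cosh y).pow 2)
      (pow_ne_zero 2 hc))
  refine h2.congr_deriv ?_
  simp only [Pi.pow_apply, p0']
  field_simp
  push_cast
  ring

lemma hasDerivAt_p0' (y : ℝ) : HasDerivAt p0' (4 * p0 y * (1 - p0 y)) y := by
  have hc := (cosh_pos y).ne'
  have hs := Real.sinh_sq y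
  have h2 := ((Real.hasDerivAt_sinh y).const_mul (-3)).div ((Real.hasDerivAt_cosh y).pow 3)
      (pow_ne_zero 3 hc)
  refine h2.congr_deriv ?_
  simp only [Pi.pow_apply, p0]
  field_simp
  push_cast
  linear_combination 12 * cosh y ^ 2 * hs

lemma p0_pos (y : ℝ) : 0 < p0 y := by
  have := cosh_pos y
  unfold p0
  positivity

lemma p0_le (y : ℝ) : p0 y ≤ 3 / 2 := by
  have h1 := one_le_cosh y
  unfold p0
  rw [div_le_iff₀ (by positivity)]
  nlinarith

lemma p0_even (y : ℝ) : p0 (-y) = p0 y := by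
  unfold p0
  rw [Real.cosh_neg]

lemma p0_le_exp (y : ℝ) : p0 y ≤ 6 * exp (-(2 * |y|)) := by
  have h := inv_cosh_sq_le |y| (abs_nonneg y)
  rw [Real.cosh_abs] at h
  unfold p0
  calc 3 / 2 / cosh y ^ 2 = 3 / 2 * (1 / cosh y ^ 2) := by ring
    _ ≤ 3 / 2 * (4 * exp (-(2 * |y|))) := by linarith
    _ = 6 * exp (-(2 * |y|)) := by ring

lemma p0_ge (y : ℝ) : 3 / 2 * exp (-(2 * |y|)) ≤ p0 y := by
  have h := cosh_sq_le |y| (abs_nonneg y)
  rw [Real.cosh_abs] at h
  have hc := cosh_pos y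
  unfold p0
  rw [exp_neg, le_div_iff₀ (by positivity)]
  have h2 : (exp (2 * |y|))⁻¹ * cosh y ^ 2 ≤ 1 := by
    rw [inv_mul_le_iff₀ (exp_pos _)]; linarith
  nlinarith

lemma continuous_p0 : Continuous p0 :=
  continuous_iff_continuousAt.2 fun y => (hasDerivAt_p0 y).continuousAt

end Pool.Agent.Helper90.Pulse
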