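import Mathlib

/-!
The algebraic nonlinearities of the scaled pulse system, and their Lipschitz bounds.
-/

namespace Pool.Agent.Helper90.Pulse

/-- Bounded and Lipschitz in `(q, e)` on the box `|q| ≤ 2`, `|e| ≤ 1`, uniformly in
`θ ∈ [0, θ₁]`. -/
def BL (θ₁ : ℝ) (f : ℝ → ℝ → ℝ → ℝ) : Prop :=
  ∃ C : ℝ, 0 ≤ C ∧ ∀ θ, 0 ≤ θ → θ ≤ θ₁ → ∀ q q' e e' : ℝ, |q| ≤ 2 → |q'| ≤ 2 → |e| ≤ 1 → |e'| ≤ 1 →
    |f θ q e| ≤ C ∧ |f θ q e - f θ q' e'| ≤ C * (|q - q'| + |e - e'|)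

lemma BL.add {θ₁ : ℝ} {f g : ℝ → ℝ → ℝ → ℝ} (hf : BL θ₁ f) (hg : BL θ₁ g) :
    BL θ₁ (fun θ q e => f θ q e + g θ q e) := by
  obtain ⟨C, hC, hf⟩ := hf
  obtain ⟨D, hD, hg⟩ := hg
  refine ⟨C + D, by positivity, fun θ h0 h1 q q' e e' hq hq' he he' => ?_⟩
  obtain ⟨f1, f2⟩ := hf θ h0 h1 q q' e e' hq hq' he he'
  obtain ⟨g1, g2⟩ := hg θ h0 h1 q q' e e' hq hq' he he'
  refine ⟨(abs_add_le _ _).trans (add_le_add f1 g1), ?_⟩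
  rw [show f θ q e + g θ q e - (f θ q' e' + g θ q' e')
    = (f θ q e - f θ q' e') + (g θ q e - g θ q' e') by ring]
  refine (abs_add_le _ _).trans ?_
  rw [add_mul]
  exact add_le_add f2 g2

lemma BL.mul {θ₁ : ℝ} {f g : ℝ → ℝ → ℝ → ℝ} (hf : BL θ₁ f) (hg : BL θ₁ g) :
    BL θ₁ (fun θ q e => f θ q e * g θ q e) := by
  obtain ⟨C, hC, hf⟩ := hf
  obtain ⟨D, hD, hg⟩ := hg
  refine ⟨2 * (C * D), by positivity, fun θ h0 h1 q q' e e' hq hq' he he' => ?_⟩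
  obtain ⟨f1, f2⟩ := hf θ h0 h1 q q' e e' hq hq' he he'
  obtain ⟨f3, f4⟩ := hf θ h0 h1 q' q e' e hq' hq he' he
  obtain ⟨g1, g2⟩ := hg θ h0 h1 q q' e e' hq hq' he he'
  have hCD : 0 ≤ C * D := mul_nonneg hC hD
  constructor
  · rw [abs_mul]
    have := mul_le_mul f1 g1 (abs_nonneg _) hC
    linarith
  · rw [show f θ q e * g θ q e - f θ q' e' * g θ q' e'
      = (f θ q e - f θ q' e') * g θ q e + f θ q' e' * (g θ q e - g θ q' e') by ring]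
    refine (abs_add_le _ _).trans ?_
    rw [abs_mul, abs_mul]
    have hd : 0 ≤ |q - q'| + |e - e'| := by positivity
    have t1 := mul_le_mul f2 g1 (abs_nonneg _) (by positivity)
    have t2 := mul_le_mul f3 g2 (abs_nonneg _) hC
    calc _ ≤ C * (|q - q'| + |e - e'|) * D + C * (D * (|q - q'| + |e - e'|)) := add_le_add t1 t2
      _ = 2 * (C * D) * (|q - q'| + |e - e'|) := by ring

lemma BL.const {θ₁ : ℝ} (c : ℝ) : BL θ₁ (fun _ _ _ => c) :=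
  ⟨|c|, abs_nonneg _, fun θ _ _ q q' e e' _ _ _ _ => ⟨le_rfl, by
    rw [sub_self, abs_zero]; positivity⟩⟩

lemma BL.ofTheta {θ₁ : ℝ} (c : ℝ → ℝ) (M : ℝ) (hM : ∀ θ, 0 ≤ θ → θ ≤ θ₁ → |c θ| ≤ M) (hM0 : 0 ≤ M) :
    BL θ₁ (fun θ _ _ => c θ) :=
  ⟨M, hM0, fun θ h0 h1 q q' e e' _ _ _ _ => ⟨hM θ h0 h1, by
    rw [sub_self, abs_zero]; positivity⟩⟩

lemma BL.q {θ₁ : ℝ} : BL θ₁ (fun _ q _ => q) :=
  ⟨2, by norm_num, fun θ _ _ q q' e e' hq _ _ _ => ⟨hq, by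
    have := abs_nonneg (q - q'); have := abs_nonneg (e - e'); linarith⟩⟩

lemma BL.e {θ₁ : ℝ} : BL θ₁ (fun _ _ e => e) :=
  ⟨1, by norm_num, fun θ _ _ q q' e e' _ _ he _ => ⟨he, by
    have := abs_nonneg (q - q'); have := abs_nonneg (e - e'); linarith⟩⟩

lemma BL.inv {θ₁ : ℝ} {f : ℝ → ℝ → ℝ → ℝ} (hf : BL θ₁ f)
    (h : ∀ θ, 0 ≤ θ → θ ≤ θ₁ → ∀ q e : ℝ, |q| ≤ 2 → |e| ≤ 1 → 1 / 2 ≤ f θ q e) :
    BL θ₁ (fun θ q e => (f θ q e)⁻¹) := by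
  obtain ⟨C, hC, hf⟩ := hf
  refine ⟨4 * C + 2, by positivity, fun θ h0 h1 q q' e e' hq hq' he he' => ?_⟩
  obtain ⟨f1, f2⟩ := hf θ h0 h1 q q' e e' hq hq' he he'
  have a1 := h θ h0 h1 q e hq he
  have a2 := h θ h0 h1 q' e' hq' he'
  have p1 : 0 < f θ q e := by linarith
  have p2 : 0 < f θ q' e' := by linarith
  have i1 : (f θ q e)⁻¹ ≤ 2 := by
    rw [inv_le_comm₀ p1 (by norm_num)]; linarith
  have i2 : (f θ q' e')⁻¹ ≤ 2 := by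
    rw [inv_le_comm₀ p2 (by norm_num)]; linarith
  have j1 : 0 < (f θ q e)⁻¹ := inv_pos.2 p1
  have j2 : 0 < (f θ q' e')⁻¹ := inv_pos.2 p2
  constructor
  · rw [abs_of_pos j1]; linarith
  · have e1 : (f θ q e)⁻¹ - (f θ q' e')⁻¹
        = -((f θ q e)⁻¹ * (f θ q' e')⁻¹ * (f θ q e - f θ q' e')) := by
      field_simp
      ring
    rw [e1, abs_neg, abs_mul, abs_of_pos (mul_pos j1 j2)]
    have hd : 0 ≤ |q - q'| + |e - e'| := by positivity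
    have t1 : (f θ q e)⁻¹ * (f θ q' e')⁻¹ ≤ 4 := by nlinarith
    calc (f θ q e)⁻¹ * (f θ q' e')⁻¹ * |f θ q e - f θ q' e'|
        ≤ 4 * (C * (|q - q'| + |e - e'|)) := mul_le_mul t1 f2 (abs_nonneg _) (by norm_num)
      _ ≤ (4 * C + 2) * (|q - q'| + |e - e'|) := by nlinarith

section
variable (r : ℝ)

/-- `m = (q + e) / r`, so that `N = 1 - θ m`. -/
noncomputable def mm (_θ q e : ℝ) : ℝ := (q + e) * r⁻¹

/-- `1 - θ m`, i.e. the population density `N`. -/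
noncomputable def DD (θ q e : ℝ) : ℝ := 1 + (-1) * (θ * mm r θ q e)

/-- auxiliary term -/
noncomputable def AA (θ q e : ℝ) : ℝ :=
  q * (mm r θ q e + (-1)) * (DD r θ q e)⁻¹
    + (2 + (1 - θ) * (q * (DD r θ q e)⁻¹)) * (q + e)

/-- remainder of the `q`-equation -/
noncomputable def RR1 (θ q e : ℝ) : ℝ :=
  4 * (q * AA r θ q e) + 4 * ((2 - θ)⁻¹ * (q * (1 + (-1) * q + (-2) * e + θ * AA r θ q e)))

/-- right side of the `q`-equation -/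
noncomputable def QQ (θ q e : ℝ) : ℝ :=
  4 * (q * (1 + (-1) * q)) + (-8) * (q * e) + θ * RR1 r θ q e

/-- auxiliary term -/
noncomputable def HH (θ q e : ℝ) : ℝ :=
  (2 - θ)⁻¹ * q + 2 * ((2 - θ)⁻¹ * (r * (q * mm r θ q e)))
    + (-1) * ((2 - θ)⁻¹ * ((q * q) * ((1 + r * (θ * mm r θ q e)) * (DD r θ q e)⁻¹)))
    + r * (mm r θ q e * mm r θ q e)

/-- remainder of the `e`-equation -/
noncomputable def RR2 (θ q e : ℝ) : ℝ := (8 * r)⁻¹ * QQ r θ q e + HH r θ q e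

variable {r}

lemma DD_ge (hr : 0 < r) {θ q e : ℝ} (h0 : 0 ≤ θ) (h1 : θ ≤ r / 6) (hq : |q| ≤ 2) (he : |e| ≤ 1) :
    1 / 2 ≤ DD r θ q e := by
  unfold DD mm
  have hqe : |q + e| ≤ 3 := (abs_add_le _ _).trans (by linarith)
  have h2 : θ * ((q + e) * r⁻¹) ≤ 1 / 2 := by
    have h3 : θ * ((q + e) * r⁻¹) ≤ (r / 6) * (3 * r⁻¹) := by
      calc θ * ((q + e) * r⁻¹) ≤ θ * (3 * r⁻¹) := by
            apply mul_le_mul_of_nonneg_left _ h0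
            apply mul_le_mul_of_nonneg_right _ (by positivity)
            exact (le_abs_self _).trans hqe
        _ ≤ (r / 6) * (3 * r⁻¹) := by
            apply mul_le_mul_of_nonneg_right h1 (by positivity)
    have h4 : (r / 6) * (3 * r⁻¹) = 1 / 2 := by field_simp; norm_num
    linarith
  linarith

lemma BL.theta {θ₁ : ℝ} (h : θ₁ ≤ 1) : BL θ₁ (fun θ _ _ => θ) :=
  BL.ofTheta (fun θ => θ) 1 (fun θ h0 h1 => by rw [abs_of_nonneg h0]; linarith) (by norm_num)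

lemma BL.inv2 {θ₁ : ℝ} (h : θ₁ ≤ 1) : BL θ₁ (fun θ _ _ => (2 - θ)⁻¹) :=
  BL.ofTheta (fun θ => (2 - θ)⁻¹) 1 (fun θ h0 h1 => by
    rw [abs_of_pos (inv_pos.2 (by linarith))]
    exact inv_le_one_of_one_le₀ (by linarith)) (by norm_num)

lemma BL.mm {θ₁ : ℝ} : BL θ₁ (mm r) := (BL.q.add BL.e).mul (BL.const _)

lemma BL.DD {θ₁ : ℝ} (h : θ₁ ≤ 1) : BL θ₁ (DD r) :=
  (BL.const 1).add ((BL.const (-1)).mul ((BL.theta h).mul BL.mm))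

lemma BL.DDinv {θ₁ : ℝ} (h : θ₁ ≤ 1) (hr : 0 < r) (h' : θ₁ ≤ r / 6) :
    BL θ₁ (fun θ q e => (Pulse.DD r θ q e)⁻¹) :=
  (BL.DD h).inv fun _ h0 h1 _ _ hq he => DD_ge hr h0 (h1.trans h') hq he

lemma BL.oneSub {θ₁ : ℝ} (h : θ₁ ≤ 1) : BL θ₁ (fun θ _ _ => 1 - θ) :=
  BL.ofTheta (fun θ => 1 - θ) 1 (fun θ h0 h1 => by
    rw [abs_of_nonneg (by linarith)]; linarith) (by norm_num)

lemma BL.AA {θ₁ : ℝ} (h : θ₁ ≤ 1) (hr : 0 < r) (h' : θ₁ ≤ r / 6) : BL θ₁ (AA r) :=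
  ((BL.q.mul (BL.mm.add (BL.const (-1)))).mul (BL.DDinv h hr h')).add
    (((BL.const 2).add ((BL.oneSub h).mul (BL.q.mul (BL.DDinv h hr h')))).mul (BL.q.add BL.e))

lemma BL.RR1 {θ₁ : ℝ} (h : θ₁ ≤ 1) (hr : 0 < r) (h' : θ₁ ≤ r / 6) : BL θ₁ (RR1 r) :=
  ((BL.const 4).mul (BL.q.mul (BL.AA h hr h'))).add
    ((BL.const 4).mul ((BL.inv2 h).mul (BL.q.mul
      ((((BL.const 1).add ((BL.const (-1)).mul BL.q)).add ((BL.const (-2)).mul BL.e)).add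
        ((BL.theta h).mul (BL.AA h hr h'))))))

lemma BL.QQ {θ₁ : ℝ} (h : θ₁ ≤ 1) (hr : 0 < r) (h' : θ₁ ≤ r / 6) : BL θ₁ (QQ r) :=
  (((BL.const 4).mul (BL.q.mul ((BL.const 1).add ((BL.const (-1)).mul BL.q)))).add
    ((BL.const (-8)).mul (BL.q.mul BL.e))).add ((BL.theta h).mul (BL.RR1 h hr h'))

lemma BL.HH {θ₁ : ℝ} (h : θ₁ ≤ 1) (hr : 0 < r) (h' : θ₁ ≤ r / 6) : BL θ₁ (HH r) :=
  ((((BL.inv2 h).mul BL.q).add
    ((BL.const 2).mul ((BL.inv2 h).mul ((BL.const r).mul (BL.q.mul BL.mm))))).add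
    ((BL.const (-1)).mul ((BL.inv2 h).mul ((BL.q.mul BL.q).mul
      (((BL.const 1).add ((BL.const r).mul ((BL.theta h).mul BL.mm))).mul
        (BL.DDinv h hr h')))))).add ((BL.const r).mul (BL.mm.mul BL.mm))

lemma BL.RR2 {θ₁ : ℝ} (h : θ₁ ≤ 1) (hr : 0 < r) (h' : θ₁ ≤ r / 6) : BL θ₁ (RR2 r) :=
  ((BL.const _).mul (BL.QQ h hr h')).add (BL.HH h hr h')

lemma RR1_zero (θ : ℝ) : RR1 r θ 0 0 = 0 := by simp [RR1]

lemma RR2_zero (θ : ℝ) : RR2 r θ 0 0 = 0 := by simp [RR2, QQ, HH, RR1, mm]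

/-- Uniform Lipschitz constant. -/
lemma exists_lip (hr : 0 < r) : ∃ θ₁ L : ℝ, 0 < θ₁ ∧ θ₁ ≤ 1 ∧ θ₁ ≤ r / 6 ∧ 0 < L ∧
    ∀ θ, 0 ≤ θ → θ ≤ θ₁ → ∀ q q' e e' : ℝ, |q| ≤ 2 → |q'| ≤ 2 → |e| ≤ 1 → |e'| ≤ 1 →
      |RR1 r θ q e - RR1 r θ q' e'| ≤ L * (|q - q'| + |e - e'|) ∧
      |RR2 r θ q e - RR2 r θ q' e'| ≤ L * (|q - q'| + |e - e'|) := by
  have h1 : min 1 (r / 6) ≤ 1 := min_le_left _ _
  have h2 : min 1 (r / 6) ≤ r / 6 := min_le_right _ _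
  obtain ⟨C, hC, hC'⟩ := BL.RR1 h1 hr h2
  obtain ⟨D, hD, hD'⟩ := BL.RR2 h1 hr h2
  refine ⟨min 1 (r / 6), C + D + 1, lt_min one_pos (by positivity), h1, h2, by positivity,
    fun θ h0 h1 q q' e e' hq hq' he he' => ?_⟩
  have hd : 0 ≤ |q - q'| + |e - e'| := by positivity
  have t1 := (hC' θ h0 h1 q q' e e' hq hq' he he').2
  have t2 := (hD' θ h0 h1 q q' e e' hq hq' he he').2
  have s1 : 0 ≤ C * (|q - q'| + |e - e'|) := by positivity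
  have s2 : 0 ≤ D * (|q - q'| + |e - e'|) := by positivity
  constructor
  · linarith
  · linarith

end

end Pool.Agent.Helper90.Pulse
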