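import Mathlib
import Pool.Agent.Helper90.PulseData
import Pool.Agent.Helper90.PulseNL

/-!
The contraction argument for the scaled pulse system.
-/

open MeasureTheory Set Filter Topology

namespace Pool.Agent.Helper90.Pulse

open Real
open scoped BoundedContinuousFunction

/-- truncation to `[-a, a]`. -/
noncomputable def cl (a x : ℝ) : ℝ := max (-a) (min x a)

lemma cl_abs_le {a : ℝ} (ha : 0 ≤ a) (x : ℝ) : |cl a x| ≤ a := by
  unfold cl
  rw [abs_le]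
  exact ⟨le_max_left _ _, max_le (by linarith) (min_le_right _ _)⟩

lemma cl_lip (a x y : ℝ) : |cl a x - cl a y| ≤ |x - y| := by
  unfold cl
  refine (abs_max_sub_max_le_max _ _ _ _).trans ?_
  rw [sub_self, abs_zero]
  refine max_le (abs_nonneg _) ((abs_min_sub_min_le_max _ _ _ _).trans ?_)
  rw [sub_self, abs_zero]
  exact max_le le_rfl (abs_nonneg _)

lemma cl_eq {a x : ℝ} (h : |x| ≤ a) : cl a x = x := by
  unfold cl
  rw [abs_le] at h
  rw [min_eq_left h.2, max_eq_right h.1]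

lemma continuous_cl (a : ℝ) : Continuous (cl a) := by
  unfold cl
  fun_prop

/-- even extension with the exponential weight -/
noncomputable def hat (F : ℝ →ᵇ ℝ) (y : ℝ) : ℝ := exp (-|y|) * F |y|

lemma hat_even (F : ℝ →ᵇ ℝ) (y : ℝ) : hat F (-y) = hat F y := by
  unfold hat; rw [abs_neg]

lemma hat_cont (F : ℝ →ᵇ ℝ) : Continuous (hat F) := by
  unfold hat
  have := F.continuous
  fun_prop

lemma hat_le (F : ℝ →ᵇ ℝ) (y : ℝ) : |hat F y| ≤ ‖F‖ * exp (-|y|) := by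
  unfold hat
  rw [abs_mul, abs_of_pos (exp_pos _), mul_comm]
  exact mul_le_mul_of_nonneg_right (F.norm_coe_le_norm |y|) (exp_pos _).le

lemma hat_sub_le (F G : ℝ →ᵇ ℝ) (y : ℝ) : |hat F y - hat G y| ≤ dist F G * exp (-|y|) := by
  unfold hat
  rw [← mul_sub, abs_mul, abs_of_pos (exp_pos _), mul_comm]
  have := BoundedContinuousFunction.dist_coe_le_dist (f := F) (g := G) |y|
  rw [Real.dist_eq] at this
  exact mul_le_mul_of_nonneg_right this (exp_pos _).le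

lemma hat_zero (y : ℝ) : hat 0 y = 0 := by simp [hat]

/-- Abstract nonlinearity: Lipschitz in the last two variables. -/
structure NL (N : ℝ → ℝ → ℝ → ℝ) (ℓ ℓ₀ : ℝ) : Prop where
  ℓ_nonneg : 0 ≤ ℓ
  ℓ₀_nonneg : 0 ≤ ℓ₀
  lip : ∀ p h h' x x' : ℝ, 0 ≤ p → p ≤ 3 / 2 →
    |N p h x - N p h' x'| ≤ ℓ * max |h - h'| |x - x'|
  zero : ∀ p : ℝ, 0 ≤ p → p ≤ 3 / 2 → |N p 0 0| ≤ ℓ₀ * p
  cont : ∀ h x : ℝ → ℝ, Continuous h → Continuous x → Continuous (fun y => N (p0 y) (h y) (x y))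

/-- the space of unknowns -/
abbrev XX := (ℝ →ᵇ ℝ) × (ℝ →ᵇ ℝ)

/-- substitution -/
noncomputable def subst (N : ℝ → ℝ → ℝ → ℝ) (X : XX) (y : ℝ) : ℝ :=
  N (p0 y) (hat X.1 y) (hat X.2 y)

section
variable {N : ℝ → ℝ → ℝ → ℝ} {ℓ ℓ₀ : ℝ}

lemma subst_cont (hN : NL N ℓ ℓ₀) (X : XX) : Continuous (subst N X) :=
  hN.cont _ _ (hat_cont _) (hat_cont _)

lemma subst_even (X : XX) (y : ℝ) : subst N X (-y) = subst N X y := by
  unfold subst
  rw [p0_even, hat_even, hat_even]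

lemma p0_le_exp1 (y : ℝ) : p0 y ≤ 6 * exp (-|y|) := by
  refine (p0_le_exp y).trans ?_
  have : exp (-(2 * |y|)) ≤ exp (-|y|) := exp_le_exp.2 (by have := abs_nonneg y; linarith)
  linarith

lemma subst_sub_le (hN : NL N ℓ ℓ₀) (X Y : XX) (y : ℝ) :
    |subst N X y - subst N Y y| ≤ ℓ * dist X Y * exp (-|y|) := by
  unfold subst
  refine (hN.lip _ _ _ _ _ (p0_pos y).le (p0_le y)).trans ?_
  rw [mul_assoc]
  apply mul_le_mul_of_nonneg_left _ hN.ℓ_nonneg
  have hd : dist X Y = max (dist X.1 Y.1) (dist X.2 Y.2) := rfl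
  refine max_le ((hat_sub_le _ _ _).trans ?_) ((hat_sub_le _ _ _).trans ?_)
  · exact mul_le_mul_of_nonneg_right (hd ▸ le_max_left _ _) (exp_pos _).le
  · exact mul_le_mul_of_nonneg_right (hd ▸ le_max_right _ _) (exp_pos _).le

lemma subst_zero_le (hN : NL N ℓ ℓ₀) (y : ℝ) :
    |subst N 0 y| ≤ 6 * ℓ₀ * exp (-|y|) := by
  unfold subst
  have e1 : hat (0 : XX).1 y = 0 := hat_zero y
  have e2 : hat (0 : XX).2 y = 0 := hat_zero y
  rw [e1, e2]
  refine (hN.zero _ (p0_pos y).le (p0_le y)).trans ?_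
  have := p0_le_exp1 y
  have h2 := hN.ℓ₀_nonneg
  nlinarith

lemma subst_le (hN : NL N ℓ ℓ₀) (X : XX) (y : ℝ) :
    |subst N X y| ≤ (ℓ * dist X 0 + 6 * ℓ₀) * exp (-|y|) := by
  have h1 := subst_sub_le hN X 0 y
  have h2 := subst_zero_le hN y
  have h3 := abs_add_le (subst N X y - subst N 0 y) (subst N 0 y)
  rw [sub_add_cancel] at h3
  linarith

/-- Green's operator composed with the nonlinearity, as a map into the weighted space. -/
noncomputable def opT (D : GreenData) (hN : NL N ℓ ℓ₀) (X : XX) : ℝ →ᵇ ℝ :=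
  BoundedContinuousFunction.ofNormedAddCommGroup
    (fun y => exp |y| * D.u (subst N X) |y|)
    (by
      have h1 := D.continuous_u (subst_cont hN X)
      fun_prop)
    (D.Λ * (ℓ * dist X 0 + 6 * ℓ₀))
    (by
      intro y
      have h := D.u_bound_nonneg (subst_cont hN X) (G := ℓ * dist X 0 + 6 * ℓ₀)
        (fun z hz => by
          have := subst_le hN X z
          rwa [abs_of_nonneg hz] at this) |y| (abs_nonneg y)
      rw [Real.norm_eq_abs, abs_mul, abs_of_pos (exp_pos _)]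
      calc exp |y| * |D.u (subst N X) (|y|)|
          ≤ exp |y| * (D.Λ * (ℓ * dist X 0 + 6 * ℓ₀) * exp (-|y|)) :=
            mul_le_mul_of_nonneg_left h (exp_pos _).le
        _ = (exp |y| * exp (-|y|)) * (D.Λ * (ℓ * dist X 0 + 6 * ℓ₀)) := by ring
        _ = D.Λ * (ℓ * dist X 0 + 6 * ℓ₀) := by rw [← exp_add]; simp)

lemma opT_apply (D : GreenData) (hN : NL N ℓ ℓ₀) (X : XX) (y : ℝ) :
    opT D hN X y = exp |y| * D.u (subst N X) |y| := rfl

lemma opT_dist (D : GreenData) (hN : NL N ℓ ℓ₀) (X Y : XX) :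
    dist (opT D hN X) (opT D hN Y) ≤ D.Λ * ℓ * dist X Y := by
  have hnn : 0 ≤ D.Λ * ℓ * dist X Y :=
    mul_nonneg (mul_nonneg D.Λ_nonneg hN.ℓ_nonneg) dist_nonneg
  rw [BoundedContinuousFunction.dist_le hnn]
  intro y
  rw [Real.dist_eq, opT_apply, opT_apply, ← mul_sub, abs_mul, abs_of_pos (exp_pos _),
    D.u_sub (subst_cont hN X) (subst_cont hN Y)
      (fun z hz => by
          have := subst_le hN X z
          rwa [abs_of_nonneg hz] at this)
      (fun z hz => by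
          have := subst_le hN Y z
          rwa [abs_of_nonneg hz] at this)]
  have h := D.u_bound_nonneg ((subst_cont hN X).sub (subst_cont hN Y)) (G := ℓ * dist X Y)
    (fun z hz => by
      have := subst_sub_le hN X Y z
      rwa [abs_of_nonneg hz] at this) |y| (abs_nonneg y)
  calc exp |y| * |D.u (fun z => subst N X z - subst N Y z) (|y|)|
      ≤ exp |y| * (D.Λ * (ℓ * dist X Y) * exp (-|y|)) :=
        mul_le_mul_of_nonneg_left h (exp_pos _).le
    _ = (exp |y| * exp (-|y|)) * (D.Λ * ℓ * dist X Y) := by ring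
    _ = D.Λ * ℓ * dist X Y := by rw [← exp_add]; simp

lemma opT_zero (D : GreenData) (hN : NL N ℓ ℓ₀) : ‖opT D hN 0‖ ≤ D.Λ * (6 * ℓ₀) := by
  have hnn : 0 ≤ D.Λ * (6 * ℓ₀) := mul_nonneg D.Λ_nonneg (by have := hN.ℓ₀_nonneg; positivity)
  rw [BoundedContinuousFunction.norm_le hnn]
  intro y
  rw [Real.norm_eq_abs, opT_apply, abs_mul, abs_of_pos (exp_pos _)]
  have h := D.u_bound_nonneg (subst_cont hN 0) (G := 6 * ℓ₀)
    (fun z hz => by
      have := subst_zero_le hN z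
      rwa [abs_of_nonneg hz] at this) |y| (abs_nonneg y)
  calc exp |y| * |D.u (subst N 0) (|y|)|
      ≤ exp |y| * (D.Λ * (6 * ℓ₀) * exp (-|y|)) :=
        mul_le_mul_of_nonneg_left h (exp_pos _).le
    _ = (exp |y| * exp (-|y|)) * (D.Λ * (6 * ℓ₀)) := by ring
    _ = D.Λ * (6 * ℓ₀) := by rw [← exp_add]; simp

end

/-- Abstract existence: a pair of coupled equations. -/
theorem exists_pair (D₁ D₂ : GreenData) {N₁ N₂ : ℝ → ℝ → ℝ → ℝ} {ℓ₁ ℓ₂ z₁ z₂ η : ℝ}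
    (hη : 0 < η) (h₁ : NL N₁ ℓ₁ z₁) (h₂ : NL N₂ ℓ₂ z₂)
    (k₁ : D₁.Λ * ℓ₁ ≤ 1 / 2) (k₂ : η⁻¹ * (D₂.Λ * ℓ₂) ≤ 1 / 2) {ρ : ℝ}
    (s₁ : 2 * (D₁.Λ * (6 * z₁)) ≤ ρ) (s₂ : 2 * (η⁻¹ * (D₂.Λ * (6 * z₂))) ≤ ρ) :
    ∃ h h' x x' : ℝ → ℝ, (∀ y, HasDerivAt h (h' y) y) ∧ (∀ y, HasDerivAt x (x' y) y) ∧
      (∀ y, HasDerivAt h' (D₁.q y * h y + N₁ (p0 y) (h y) (x y)) y) ∧
      (∀ y, HasDerivAt x' (D₂.q y * x y + η⁻¹ * N₂ (p0 y) (h y) (x y)) y) ∧
      (∀ y, h (-y) = h y) ∧ (∀ y, x (-y) = x y) ∧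
      (∀ y, |h y| ≤ ρ * exp (-|y|)) ∧ (∀ y, |x y| ≤ ρ * exp (-|y|)) := by
  have hη' : 0 < η⁻¹ := inv_pos.2 hη
  set T : XX → XX := fun X => (opT D₁ h₁ X, η⁻¹ • opT D₂ h₂ X) with hT
  have hlip : LipschitzWith (1 / 2) T := by
    refine LipschitzWith.of_dist_le_mul fun X Y => ?_
    have e : dist (T X) (T Y) = max (dist (opT D₁ h₁ X) (opT D₁ h₁ Y))
      (dist (η⁻¹ • opT D₂ h₂ X) (η⁻¹ • opT D₂ h₂ Y)) := rfl
    rw [e]
    have hd : 0 ≤ dist X Y := dist_nonneg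
    refine max_le ((opT_dist D₁ h₁ X Y).trans ?_) ?_
    · calc D₁.Λ * ℓ₁ * dist X Y ≤ 1 / 2 * dist X Y := mul_le_mul_of_nonneg_right k₁ hd
        _ = _ := by norm_num
    · have e5 : η⁻¹ • opT D₂ h₂ X - η⁻¹ • opT D₂ h₂ Y
          = η⁻¹ • (opT D₂ h₂ X - opT D₂ h₂ Y) := by
        ext y; simp [mul_sub]
      rw [dist_eq_norm, e5, norm_smul, ← dist_eq_norm, Real.norm_eq_abs, abs_of_pos hη']
      calc η⁻¹ * dist (opT D₂ h₂ X) (opT D₂ h₂ Y) ≤ η⁻¹ * (D₂.Λ * ℓ₂ * dist X Y) :=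
            mul_le_mul_of_nonneg_left (opT_dist D₂ h₂ X Y) hη'.le
        _ = η⁻¹ * (D₂.Λ * ℓ₂) * dist X Y := by ring
        _ ≤ 1 / 2 * dist X Y := mul_le_mul_of_nonneg_right k₂ hd
        _ = _ := by norm_num
  have hcon : ContractingWith (1 / 2) T := ⟨by
    rw [← NNReal.coe_lt_coe]; norm_num, hlip⟩
  set X := hcon.fixedPoint with hX
  have hfix : T X = X := hcon.fixedPoint_isFixedPt
  have hnorm : ‖X‖ ≤ ρ := by
    have h1 := hcon.dist_fixedPoint_le (0 : XX)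
    rw [← hX, dist_comm] at h1
    have h2 : dist (0 : XX) (T 0) ≤ ρ / 2 := by
      rw [dist_comm, dist_zero_right]
      have e : ‖T 0‖ = max ‖opT D₁ h₁ 0‖ ‖η⁻¹ • opT D₂ h₂ 0‖ := rfl
      rw [e]
      refine max_le ((opT_zero D₁ h₁).trans (by linarith)) ?_
      rw [norm_smul, Real.norm_eq_abs, abs_of_pos hη']
      have := mul_le_mul_of_nonneg_left (opT_zero D₂ h₂) hη'.le
      linarith
    have e3 : (1 - ((1 / 2 : NNReal) : ℝ)) = 1 / 2 := by norm_num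
    rw [e3, dist_zero_right] at h1
    have h3 : dist (0 : XX) (T 0) / (1 / 2) ≤ ρ := by linarith
    linarith
  have hX1 : ‖X.1‖ ≤ ρ := (norm_fst_le X).trans hnorm
  have hX2 : ‖X.2‖ ≤ ρ := (norm_snd_le X).trans hnorm
  have f1 : X.1 = opT D₁ h₁ X := (congrArg Prod.fst hfix).symm
  have f2 : X.2 = η⁻¹ • opT D₂ h₂ X := (congrArg Prod.snd hfix).symm
  have g1 : ∀ y, hat X.1 y = D₁.u (subst N₁ X) y := by
    intro y
    have e1 : hat X.1 y = D₁.u (subst N₁ X) |y| := by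
      unfold hat
      rw [f1, opT_apply, abs_abs, ← mul_assoc, ← exp_add]
      simp
    rw [e1]
    rcases abs_choice y with h | h
    · rw [h]
    · rw [h]; exact D₁.u_even (subst_cont h₁ X) (subst_even X) y
  have g2 : ∀ y, hat X.2 y = η⁻¹ * D₂.u (subst N₂ X) y := by
    intro y
    have e1 : hat X.2 y = η⁻¹ * D₂.u (subst N₂ X) |y| := by
      have e2 : X.2 |y| = η⁻¹ * (exp |y| * D₂.u (subst N₂ X) |y|) := by
        have := congrArg (fun F : ℝ →ᵇ ℝ => F |y|) f2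
        simp only [BoundedContinuousFunction.coe_smul, smul_eq_mul, opT_apply, abs_abs] at this
        exact this
      unfold hat
      rw [e2, show exp (-|y|) * (η⁻¹ * (exp |y| * D₂.u (subst N₂ X) |y|))
        = (exp (-|y|) * exp |y|) * (η⁻¹ * D₂.u (subst N₂ X) |y|) by ring, ← exp_add]
      simp
    rw [e1]
    rcases abs_choice y with h | h
    · rw [h]
    · rw [h, D₂.u_even (subst_cont h₂ X) (subst_even X) y]
  have g1' : hat X.1 = D₁.u (subst N₁ X) := funext g1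
  have g2' : hat X.2 = fun y => η⁻¹ * D₂.u (subst N₂ X) y := funext g2
  refine ⟨hat X.1, D₁.u' (subst N₁ X), hat X.2, fun y => η⁻¹ * D₂.u' (subst N₂ X) y,
    ?_, ?_, ?_, ?_, hat_even _, hat_even _, ?_, ?_⟩
  · intro y
    rw [g1']
    exact D₁.hasDerivAt_u (subst_cont h₁ X) y
  · intro y
    rw [g2']
    exact (D₂.hasDerivAt_u (subst_cont h₂ X) y).const_mul _
  · intro y
    have := D₁.hasDerivAt_u' (subst_cont h₁ X) y
    rw [← g1] at this
    exact this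
  · intro y
    have := (D₂.hasDerivAt_u' (subst_cont h₂ X) y).const_mul η⁻¹
    refine this.congr_deriv ?_
    have e : D₂.u (subst N₂ X) y = η * hat X.2 y := by
      rw [g2 y]; field_simp
    rw [e]
    show η⁻¹ * (D₂.q y * (η * hat X.2 y) + N₂ (p0 y) (hat X.1 y) (hat X.2 y))
      = D₂.q y * hat X.2 y + η⁻¹ * N₂ (p0 y) (hat X.1 y) (hat X.2 y)
    field_simp
  · intro y
    exact (hat_le _ y).trans (mul_le_mul_of_nonneg_right hX1 (exp_pos _).le)
  · intro y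
    exact (hat_le _ y).trans (mul_le_mul_of_nonneg_right hX2 (exp_pos _).le)

end Pool.Agent.Helper90.Pulse
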