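import Mathlib
import Pool.Agent.Helper90.PulseFix

/-!
Existence of the scaled pulse, and its nonnegativity.
-/

open MeasureTheory Set Filter Topology

namespace Pool.Agent.Helper90.Pulse

open Real
open scoped BoundedContinuousFunction

/-- truncated first nonlinearity -/
noncomputable def NN1 (r θ δ η p h x : ℝ) : ℝ :=
  -4 * (cl δ h * cl δ h) - 8 * ((p + cl δ h) * (η * cl 1 x)) + θ * RR1 r θ (p + cl δ h) (η * cl 1 x)

/-- truncated second nonlinearity -/
noncomputable def NN2 (r θ δ η p h x : ℝ) : ℝ :=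
  -(8 * r) * RR2 r θ (p + cl δ h) (η * cl 1 x)

lemma continuous_of_lip {R : ℝ → ℝ → ℝ} {L : ℝ}
    (hR : ∀ q q' e e' : ℝ, |q| ≤ 2 → |q'| ≤ 2 → |e| ≤ 1 → |e'| ≤ 1 →
      |R q e - R q' e'| ≤ L * (|q - q'| + |e - e'|))
    {q e : ℝ → ℝ} (hq : Continuous q) (he : Continuous e) (bq : ∀ y, |q y| ≤ 2)
    (be : ∀ y, |e y| ≤ 1) : Continuous (fun y => R (q y) (e y)) := by
  rw [continuous_iff_continuousAt]
  intro y
  rw [ContinuousAt, tendsto_iff_dist_tendsto_zero]
  have h1 : Tendsto (fun z => L * (|q z - q y| + |e z - e y|)) (𝓝 y) (𝓝 0) := by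
    have hc : Continuous (fun z => L * (|q z - q y| + |e z - e y|)) := by fun_prop
    have := hc.tendsto y
    simpa using this
  refine squeeze_zero (fun _ => dist_nonneg) (fun z => ?_) h1
  rw [Real.dist_eq]
  exact hR _ _ _ _ (bq z) (bq y) (be z) (be y)

lemma box_q {δ p : ℝ} (hδ : 0 ≤ δ) (hδ1 : δ ≤ 1 / 2) (hp : 0 ≤ p) (hp' : p ≤ 3 / 2) (h : ℝ) :
    |p + cl δ h| ≤ 2 := by
  have h1 := cl_abs_le hδ h
  have := abs_add_le p (cl δ h)
  rw [abs_of_nonneg hp] at this
  linarith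

lemma box_e {η : ℝ} (hη : 0 ≤ η) (hη1 : η ≤ 1) (x : ℝ) : |η * cl 1 x| ≤ 1 := by
  rw [abs_mul, abs_of_nonneg hη]
  have h1 := cl_abs_le (a := 1) (by norm_num) x
  have h2 := abs_nonneg (cl 1 x)
  nlinarith

lemma NN2_NL {r θ L δ η : ℝ} (hr : 0 < r) (hL : 0 ≤ L)
    (hδ : 0 ≤ δ) (hδ1 : δ ≤ 1 / 2) (hη : 0 ≤ η) (hη1 : η ≤ 1)
    (h2 : ∀ q q' e e' : ℝ, |q| ≤ 2 → |q'| ≤ 2 → |e| ≤ 1 → |e'| ≤ 1 →
      |RR2 r θ q e - RR2 r θ q' e'| ≤ L * (|q - q'| + |e - e'|)) :
    NL (NN2 r θ δ η) (16 * r * L) (8 * r * L) where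
  ℓ_nonneg := by positivity
  ℓ₀_nonneg := by positivity
  lip := by
    intro p h h' x x' hp hp'
    have t := h2 (p + cl δ h) (p + cl δ h') (η * cl 1 x) (η * cl 1 x')
      (box_q hδ hδ1 hp hp' h) (box_q hδ hδ1 hp hp' h') (box_e hη hη1 x) (box_e hη hη1 x')
    have e1 : |p + cl δ h - (p + cl δ h')| ≤ max |h - h'| |x - x'| := by
      rw [add_sub_add_left_eq_sub]
      exact (cl_lip _ _ _).trans (le_max_left _ _)
    have e2 : |η * cl 1 x - η * cl 1 x'| ≤ max |h - h'| |x - x'| := by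
      rw [← mul_sub, abs_mul, abs_of_nonneg hη]
      have := (cl_lip 1 x x').trans (le_max_right |h - h'| |x - x'|)
      have h0 := abs_nonneg (cl 1 x - cl 1 x')
      nlinarith
    unfold NN2
    rw [← mul_sub, abs_mul, abs_neg, abs_of_pos (by positivity : 0 < 8 * r)]
    calc 8 * r * |RR2 r θ (p + cl δ h) (η * cl 1 x) - RR2 r θ (p + cl δ h') (η * cl 1 x')|
        ≤ 8 * r * (L * (|p + cl δ h - (p + cl δ h')| + |η * cl 1 x - η * cl 1 x'|)) :=
          mul_le_mul_of_nonneg_left t (by positivity)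
      _ ≤ 8 * r * (L * (max |h - h'| |x - x'| + max |h - h'| |x - x'|)) := by
          gcongr
      _ = 16 * r * L * max |h - h'| |x - x'| := by ring
  zero := by
    intro p hp hp'
    have c0 : ∀ a : ℝ, 0 ≤ a → cl a 0 = 0 := fun a ha => cl_eq (by simpa using ha)
    have t := h2 p 0 0 0 (by rw [abs_of_nonneg hp]; linarith) (by simp) (by simp) (by simp)
    rw [RR2_zero, sub_zero, sub_zero, sub_zero, abs_zero, add_zero, abs_of_nonneg hp] at t
    unfold NN2
    rw [c0 δ hδ, c0 1 (by norm_num), mul_zero, add_zero, abs_mul, abs_neg,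
      abs_of_pos (by positivity : 0 < 8 * r)]
    calc 8 * r * |RR2 r θ p 0| ≤ 8 * r * (L * p) := mul_le_mul_of_nonneg_left t (by positivity)
      _ = 8 * r * L * p := by ring
  cont := by
    intro h x hh hx
    unfold NN2
    refine continuous_const.mul (continuous_of_lip h2 ?_ ?_ ?_ ?_)
    · exact continuous_p0.add ((continuous_cl δ).comp hh)
    · exact continuous_const.mul ((continuous_cl 1).comp hx)
    · intro y
      exact box_q hδ hδ1 (p0_pos y).le (p0_le y) _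
    · intro y
      exact box_e hη hη1 _

lemma NN1_NL {r θ L δ η : ℝ} (hθ : 0 ≤ θ) (hL : 0 ≤ L)
    (hδ : 0 ≤ δ) (hδ1 : δ ≤ 1 / 2) (hη : 0 ≤ η) (hη1 : η ≤ 1)
    (h1 : ∀ q q' e e' : ℝ, |q| ≤ 2 → |q'| ≤ 2 → |e| ≤ 1 → |e'| ≤ 1 →
      |RR1 r θ q e - RR1 r θ q' e'| ≤ L * (|q - q'| + |e - e'|)) :
    NL (NN1 r θ δ η) (8 * δ + 24 * η + 2 * (θ * L)) (θ * L) where
  ℓ_nonneg := by positivity
  ℓ₀_nonneg := by positivity
  lip := by
    intro p h h' x x' hp hp'
    have t := h1 (p + cl δ h) (p + cl δ h') (η * cl 1 x) (η * cl 1 x')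
      (box_q hδ hδ1 hp hp' h) (box_q hδ hδ1 hp hp' h') (box_e hη hη1 x) (box_e hη hη1 x')
    set M := max |h - h'| |x - x'| with hM
    have hM0 : 0 ≤ M := (abs_nonneg _).trans (le_max_left _ _)
    have d1 : |cl δ h - cl δ h'| ≤ M := (cl_lip _ _ _).trans (le_max_left _ _)
    have e1 : |p + cl δ h - (p + cl δ h')| ≤ M := by
      rw [add_sub_add_left_eq_sub]; exact d1
    have d2 : |cl 1 x - cl 1 x'| ≤ M := (cl_lip 1 x x').trans (le_max_right _ _)
    have e2 : |η * cl 1 x - η * cl 1 x'| ≤ η * M := by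
      rw [← mul_sub, abs_mul, abs_of_nonneg hη]
      exact mul_le_mul_of_nonneg_left d2 hη
    have e2' : |η * cl 1 x - η * cl 1 x'| ≤ M := e2.trans (by nlinarith)
    have a1 := cl_abs_le hδ h
    have a2 := cl_abs_le hδ h'
    have q1 := box_q hδ hδ1 hp hp' h
    have x1 : |η * cl 1 x'| ≤ η := by
      rw [abs_mul, abs_of_nonneg hη]
      have := cl_abs_le (a := 1) (by norm_num) x'
      nlinarith
    have s1 : |cl δ h * cl δ h - cl δ h' * cl δ h'| ≤ 2 * δ * M := by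
      rw [show cl δ h * cl δ h - cl δ h' * cl δ h'
        = cl δ h * (cl δ h - cl δ h') + cl δ h' * (cl δ h - cl δ h') by ring]
      refine (abs_add_le _ _).trans ?_
      rw [abs_mul, abs_mul]
      have b1 := mul_le_mul a1 d1 (abs_nonneg _) hδ
      have b2 := mul_le_mul a2 d1 (abs_nonneg _) hδ
      linarith
    have s2 : |(p + cl δ h) * (η * cl 1 x) - (p + cl δ h') * (η * cl 1 x')| ≤ 3 * η * M := by
      rw [show (p + cl δ h) * (η * cl 1 x) - (p + cl δ h') * (η * cl 1 x')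
        = (p + cl δ h) * (η * cl 1 x - η * cl 1 x')
          + (η * cl 1 x') * (cl δ h - cl δ h') by ring]
      refine (abs_add_le _ _).trans ?_
      rw [abs_mul, abs_mul]
      have b1 := mul_le_mul q1 e2 (abs_nonneg _) (by norm_num)
      have b2 := mul_le_mul x1 d1 (abs_nonneg _) hη
      linarith
    have s3 : |θ * RR1 r θ (p + cl δ h) (η * cl 1 x) - θ * RR1 r θ (p + cl δ h') (η * cl 1 x')|
        ≤ 2 * (θ * L) * M := by
      rw [← mul_sub, abs_mul, abs_of_nonneg hθ]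
      calc θ * |RR1 r θ (p + cl δ h) (η * cl 1 x) - RR1 r θ (p + cl δ h') (η * cl 1 x')|
          ≤ θ * (L * (|p + cl δ h - (p + cl δ h')| + |η * cl 1 x - η * cl 1 x'|)) :=
            mul_le_mul_of_nonneg_left t hθ
        _ ≤ θ * (L * (M + M)) := by gcongr
        _ = 2 * (θ * L) * M := by ring
    unfold NN1
    rw [abs_le] at *
    constructor <;> linarith [s1.1, s1.2, s2.1, s2.2, s3.1, s3.2]
  zero := by
    intro p hp hp'
    have c0 : ∀ a : ℝ, 0 ≤ a → cl a 0 = 0 := fun a ha => cl_eq (by simpa using ha)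
    have t := h1 p 0 0 0 (by rw [abs_of_nonneg hp]; linarith) (by simp) (by simp) (by simp)
    rw [RR1_zero, sub_zero, sub_zero, sub_zero, abs_zero, add_zero, abs_of_nonneg hp] at t
    unfold NN1
    rw [c0 δ hδ, c0 1 (by norm_num)]
    simp only [mul_zero, add_zero, sub_zero, zero_add]
    rw [abs_mul, abs_of_nonneg hθ]
    calc θ * |RR1 r θ p 0| ≤ θ * (L * p) := mul_le_mul_of_nonneg_left t hθ
      _ = θ * L * p := by ring
  cont := by
    intro h x hh hx
    have ch : Continuous (fun y => cl δ (h y)) := (continuous_cl δ).comp hh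
    have cx : Continuous (fun y => cl 1 (x y)) := (continuous_cl 1).comp hx
    have cp := continuous_p0
    have c3 : Continuous (fun y => RR1 r θ (p0 y + cl δ (h y)) (η * cl 1 (x y))) := by
      refine continuous_of_lip h1 (cp.add ch) (continuous_const.mul cx) ?_ ?_
      · intro y
        exact box_q hδ hδ1 (p0_pos y).le (p0_le y) _
      · intro y
        exact box_e hη hη1 _
    unfold NN1
    fun_prop

lemma dataL_Λ : dataL.Λ ≤ 25 := by
  show (4:ℝ) * 37 / 8 * (1 / (2 - 1) + 1 / (2 + 1)) ≤ 25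
  norm_num

/-- Existence of the scaled pulse. -/
theorem exists_scaled {r : ℝ} (hr : 0 < r) : ∃ θ₀ : ℝ, 0 < θ₀ ∧ θ₀ ≤ 1 ∧ θ₀ ≤ r / 6 ∧
    ∀ θ, 0 < θ → θ < θ₀ → ∃ q q' e e' : ℝ → ℝ,
      (∀ y, HasDerivAt q (q' y) y) ∧ (∀ y, HasDerivAt e (e' y) y) ∧
      (∀ y, HasDerivAt q' (QQ r θ (q y) (e y)) y) ∧
      (∀ y, HasDerivAt e' (8 * r / θ * e y - 8 * r * RR2 r θ (q y) (e y)) y) ∧
      (∀ y, q (-y) = q y) ∧ (∀ y, e (-y) = e y) ∧
      (∀ y, |q y - p0 y| ≤ 1 / 1600 * exp (-|y|)) ∧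
      (∀ y, |e y| ≤ 1 / 4800 * exp (-|y|)) := by
  obtain ⟨θ₁, L, hθ₁, hθ₁1, hθ₁r, hL, hlip⟩ := exists_lip hr
  refine ⟨min θ₁ (1 / (10 ^ 9 * L)), lt_min hθ₁ (by positivity), (min_le_left _ _).trans hθ₁1,
    (min_le_left _ _).trans hθ₁r, fun θ h0 h1 => ?_⟩
  have hθ1 : θ ≤ θ₁ := (h1.trans_le (min_le_left _ _)).le
  have hθL : θ * L ≤ 1 / 10 ^ 9 := by
    have h2 : θ < 1 / (10 ^ 9 * L) := h1.trans_le (min_le_right _ _)
    have h3 : θ * L < 1 / (10 ^ 9 * L) * L := mul_lt_mul_of_pos_right h2 hL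
    have h4 : 1 / (10 ^ 9 * L) * L = 1 / 10 ^ 9 := by field_simp
    linarith
  have hθL0 : 0 ≤ θ * L := by positivity
  have l1 : ∀ q q' e e' : ℝ, |q| ≤ 2 → |q'| ≤ 2 → |e| ≤ 1 → |e'| ≤ 1 →
      |RR1 r θ q e - RR1 r θ q' e'| ≤ L * (|q - q'| + |e - e'|) :=
    fun q q' e e' a b c d => (hlip θ h0.le hθ1 q q' e e' a b c d).1
  have l2 : ∀ q q' e e' : ℝ, |q| ≤ 2 → |q'| ≤ 2 → |e| ≤ 1 → |e'| ≤ 1 →
      |RR2 r θ q e - RR2 r θ q' e'| ≤ L * (|q - q'| + |e - e'|) :=
    fun q q' e e' a b c d => (hlip θ h0.le hθ1 q q' e e' a b c d).2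
  have hr6 : θ ≤ r / 6 := hθ1.trans hθ₁r
  set κ : ℝ := sqrt (8 * r / θ) with hκdef
  have hκ2 : κ ^ 2 = 8 * r / θ := Real.sq_sqrt (by positivity)
  have hκ : 2 ≤ κ := by
    rw [hκdef]
    apply Real.le_sqrt_of_sq_le
    rw [le_div_iff₀ h0]
    linarith
  have hκ1 : 1 < κ := by linarith
  have hΛK : (dataK κ hκ1).Λ ≤ θ / (2 * r) := by
    refine (dataK_Λ κ hκ).trans (le_of_eq ?_)
    rw [hκ2]
    field_simp
    norm_num
  obtain ⟨h, h', x, x', dh, dx, dh', dx', evh, evx, bh, bx⟩ :=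
    exists_pair dataL (dataK κ hκ1) (η := 1 / 4800) (ρ := 1 / 1600) (by norm_num)
      (NN1_NL (r := r) (δ := 1 / 1600) (η := 1 / 4800) h0.le hL.le (by norm_num) (by norm_num)
        (by norm_num) (by norm_num) l1)
      (NN2_NL (θ := θ) (δ := 1 / 1600) (η := 1 / 4800) hr hL.le (by norm_num) (by norm_num)
        (by norm_num) (by norm_num) l2)
      (by
        have := dataL_Λ
        have h2 : 0 ≤ 8 * (1 / 1600 : ℝ) + 24 * (1 / 4800) + 2 * (θ * L) := by positivity
        calc dataL.Λ * (8 * (1 / 1600) + 24 * (1 / 4800) + 2 * (θ * L))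
            ≤ 25 * (8 * (1 / 1600) + 24 * (1 / 4800) + 2 * (θ * L)) :=
              mul_le_mul_of_nonneg_right this h2
          _ ≤ 1 / 2 := by linarith)
      (by
        have h2 : 0 ≤ 16 * r * L := by positivity
        calc (1 / 4800 : ℝ)⁻¹ * ((dataK κ hκ1).Λ * (16 * r * L))
            ≤ (1 / 4800 : ℝ)⁻¹ * (θ / (2 * r) * (16 * r * L)) := by
              apply mul_le_mul_of_nonneg_left _ (by norm_num)
              exact mul_le_mul_of_nonneg_right hΛK h2
          _ = 38400 * (θ * L) := by field_simp; norm_num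
          _ ≤ 1 / 2 := by linarith)
      (by
        have := dataL_Λ
        have h2 : 0 ≤ 6 * (θ * L) := by positivity
        calc 2 * (dataL.Λ * (6 * (θ * L))) ≤ 2 * (25 * (6 * (θ * L))) := by
              apply mul_le_mul_of_nonneg_left _ (by norm_num)
              exact mul_le_mul_of_nonneg_right this h2
          _ ≤ 1 / 1600 := by linarith)
      (by
        have h2 : 0 ≤ 6 * (8 * r * L) := by positivity
        calc 2 * ((1 / 4800 : ℝ)⁻¹ * ((dataK κ hκ1).Λ * (6 * (8 * r * L))))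
            ≤ 2 * ((1 / 4800 : ℝ)⁻¹ * (θ / (2 * r) * (6 * (8 * r * L)))) := by
              apply mul_le_mul_of_nonneg_left _ (by norm_num)
              apply mul_le_mul_of_nonneg_left _ (by norm_num)
              exact mul_le_mul_of_nonneg_right hΛK h2
          _ = 230400 * (θ * L) := by field_simp; norm_num
          _ ≤ 1 / 1600 := by linarith)
  have bh' : ∀ y, |h y| ≤ 1 / 1600 := fun y => by
    have h1 := bh y
    have h2 : exp (-|y|) ≤ 1 := exp_le_one_iff.2 (by simp)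
    have h3 := exp_pos (-|y|)
    linarith
  have bx' : ∀ y, |x y| ≤ 1 := fun y => by
    have h1 := bx y
    have h2 : exp (-|y|) ≤ 1 := exp_le_one_iff.2 (by simp)
    have h3 := exp_pos (-|y|)
    linarith
  refine ⟨fun y => p0 y + h y, fun y => p0' y + h' y, fun y => 1 / 4800 * x y,
    fun y => 1 / 4800 * x' y, fun y => (hasDerivAt_p0 y).add (dh y),
    fun y => (dx y).const_mul _, fun y => ?_, fun y => ?_, fun y => ?_, fun y => ?_,
    fun y => ?_, fun y => ?_⟩
  · refine ((hasDerivAt_p0' y).add (dh' y)).congr_deriv ?_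
    have e1 : dataL.q y = 4 - 8 * p0 y := by
      show 4 - 12 / cosh y ^ 2 = 4 - 8 * (3 / 2 / cosh y ^ 2)
      ring
    unfold NN1
    rw [e1, cl_eq (bh' y), cl_eq (bx' y)]
    unfold QQ
    ring
  · refine ((dx' y).const_mul (1 / 4800)).congr_deriv ?_
    have e1 : (dataK κ hκ1).q y = 8 * r / θ := hκ2
    unfold NN2
    rw [e1, cl_eq (bh' y), cl_eq (bx' y)]
    ring
  · show p0 (-y) + h (-y) = p0 y + h y
    rw [p0_even, evh]
  · show 1 / 4800 * x (-y) = 1 / 4800 * x y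
    rw [evx]
  · show |p0 y + h y - p0 y| ≤ _
    rw [add_sub_cancel_left]
    exact bh y
  · show |1 / 4800 * x y| ≤ _
    rw [abs_mul, abs_of_pos (by norm_num : (0:ℝ) < 1 / 4800)]
    have h1 := bx y
    have h3 := exp_pos (-|y|)
    nlinarith

/-- A function tending to zero which satisfies `q'' = a q` with `a > 0` beyond `Y` and
`q Y ≥ 0` is nonnegative beyond `Y`. -/
lemma nonneg_of_convex {q q' a : ℝ → ℝ} {Y : ℝ} (dq : ∀ y, HasDerivAt q (q' y) y)
    (dq' : ∀ y, HasDerivAt q' (a y * q y) y) (ha : ∀ y, Y < y → 0 < a y)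
    (hY : 0 ≤ q Y) (hlim : Tendsto q atTop (𝓝 0)) : ∀ y, Y ≤ y → 0 ≤ q y := by
  by_contra hcon
  push Not at hcon
  obtain ⟨y₁, hy₁, hq₁⟩ := hcon
  have hcont : Continuous q := continuous_iff_continuousAt.2 fun y => (dq y).continuousAt
  obtain ⟨z, hz, hmin⟩ := hcont.continuousOn.exists_isMinOn' (s := Ici Y) isClosed_Ici
    (x₀ := y₁) hy₁ (by
      have h1 : ∀ᶠ x in atTop, q y₁ ≤ q x := by
        have := hlim.eventually (lt_mem_nhds hq₁)
        exact this.mono fun x hx => le_of_lt hx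
      have h2 : cocompact ℝ ⊓ 𝓟 (Ici Y) ≤ atTop := by
        rw [cocompact_eq_atBot_atTop, inf_sup_right]
        refine sup_le ?_ inf_le_left
        have : (atBot : Filter ℝ) ⊓ 𝓟 (Ici Y) = ⊥ := by
          rw [← _root_.disjoint_iff, Filter.disjoint_principal_right]
          filter_upwards [eventually_lt_atBot Y] with x hx
          simpa using hx
        rw [this]
        exact bot_le
      exact h2 h1)
  have hzneg : q z < 0 := (hmin (show y₁ ∈ Ici Y from hy₁)).trans_lt hq₁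
  have hzY : Y < z := by
    rcases (show Y ≤ z from hz).eq_or_lt with h | h
    · rw [← h] at hzneg; linarith
    · exact h
  have hloc : IsLocalMin q z := by
    filter_upwards [Ioi_mem_nhds hzY] with x hx
    exact hmin (mem_Ici.2 (mem_Ioi.1 hx).le)
  have hd0 : q' z = 0 := hloc.hasDerivAt_eq_zero (dq z)
  have hderiv : deriv q = q' := funext fun y => (dq y).deriv
  have hmax : IsLocalMax q z := by
    apply isLocalMax_of_deriv_deriv_neg
    · rw [hderiv, (dq' z).deriv]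
      exact mul_neg_of_pos_of_neg (ha z hzY) hzneg
    · rw [hderiv]; exact hd0
    · exact (dq z).continuousAt
  have hconst : q =ᶠ[𝓝 z] fun _ => q z := by
    filter_upwards [hloc, hmax] with x h1 h2
    exact le_antisymm h2 h1
  have hd1 : q' =ᶠ[𝓝 z] fun _ => 0 := by
    have := hconst.eventuallyEq_nhds
    filter_upwards [this] with x hx
    have h1 : HasDerivAt q 0 x := (hasDerivAt_const x (q z)).congr_of_eventuallyEq hx
    exact (dq x).unique h1
  have hd2 : HasDerivAt q' 0 z := (hasDerivAt_const z (0:ℝ)).congr_of_eventuallyEq hd1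
  have := (dq' z).unique hd2
  have h3 := mul_neg_of_pos_of_neg (ha z hzY) hzneg
  linarith

/-- The pulse is nonnegative, once `θ` is small. -/
theorem exists_scaled_nonneg {r : ℝ} (hr : 0 < r) : ∃ θ₀ : ℝ, 0 < θ₀ ∧ θ₀ ≤ 1 ∧ θ₀ ≤ r / 6 ∧
    ∀ θ, 0 < θ → θ < θ₀ → ∃ q q' e e' : ℝ → ℝ,
      (∀ y, HasDerivAt q (q' y) y) ∧ (∀ y, HasDerivAt e (e' y) y) ∧
      (∀ y, HasDerivAt q' (QQ r θ (q y) (e y)) y) ∧
      (∀ y, HasDerivAt e' (8 * r / θ * e y - 8 * r * RR2 r θ (q y) (e y)) y) ∧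
      (∀ y, q (-y) = q y) ∧ (∀ y, e (-y) = e y) ∧
      (∀ y, |q y - p0 y| ≤ 1 / 1600 * exp (-|y|)) ∧
      (∀ y, |e y| ≤ 1 / 4800 * exp (-|y|)) ∧ (∀ y, 0 ≤ q y) := by
  obtain ⟨θ₁, h1, h2, h3, H⟩ := exists_scaled hr
  -- bound for the second factor of `RR1`
  have hBB : BL θ₁ (fun θ q e => 4 * AA r θ q e
      + 4 * ((2 - θ)⁻¹ * (1 + (-1) * q + (-2) * e + θ * AA r θ q e))) :=
    ((BL.const 4).mul (BL.AA h2 hr h3)).add ((BL.const 4).mul ((BL.inv2 h2).mul
      ((((BL.const 1).add ((BL.const (-1)).mul BL.q)).add ((BL.const (-2)).mul BL.e)).add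
        ((BL.theta h2).mul (BL.AA h2 hr h3)))))
  obtain ⟨C, hC, hCB⟩ := hBB
  refine ⟨min θ₁ (1 / (C + 1)), lt_min h1 (by positivity), (min_le_left _ _).trans h2,
    (min_le_left _ _).trans h3, fun θ hθ0 hθ => ?_⟩
  have hθ1 : θ < θ₁ := hθ.trans_le (min_le_left _ _)
  have hθC : θ * C ≤ 1 := by
    have h4 : θ < 1 / (C + 1) := hθ.trans_le (min_le_right _ _)
    rw [lt_div_iff₀ (by positivity)] at h4
    nlinarith
  obtain ⟨q, q', e, e', dq, de, dq', de', evq, eve, bq, be⟩ := H θ hθ0 hθ1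
  refine ⟨q, q', e, e', dq, de, dq', de', evq, eve, bq, be, ?_⟩
  set a : ℝ → ℝ := fun y => 4 * (1 - q y) - 8 * e y + θ * (4 * AA r θ (q y) (e y)
      + 4 * ((2 - θ)⁻¹ * (1 + (-1) * q y + (-2) * e y + θ * AA r θ (q y) (e y)))) with ha
  have hqa : ∀ y, QQ r θ (q y) (e y) = a y * q y := by
    intro y
    simp only [ha, QQ, RR1]
    ring
  have hlim : Tendsto q atTop (𝓝 0) := by
    have h5 : Tendsto (fun y : ℝ => 7 * exp (-y)) atTop (𝓝 0) := by
      have := (Real.tendsto_exp_neg_atTop_nhds_zero).const_mul 7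
      simpa using this
    refine squeeze_zero_norm' ?_ h5
    filter_upwards [eventually_ge_atTop (0:ℝ)] with y hy
    have h6 := bq y
    have h7 := p0_le_exp1 y
    have h8 := (p0_pos y).le
    rw [abs_of_nonneg hy] at h6 h7
    have h9 := exp_pos (-y)
    rw [Real.norm_eq_abs]
    have h10 := abs_add_le (q y - p0 y) (p0 y)
    rw [sub_add_cancel, abs_of_nonneg h8] at h10
    linarith
  -- positivity of `a` beyond `log 10`
  have hexp10 : ∀ y, log 10 ≤ y → exp (-y) ≤ 1 / 10 := by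
    intro y hy
    have : exp (-y) ≤ exp (-log 10) := exp_le_exp.2 (by linarith)
    rw [exp_neg (log 10), exp_log (by norm_num)] at this
    linarith
  have hlog10 : 0 ≤ log 10 := log_nonneg (by norm_num)
  have hapos : ∀ y, log 10 < y → 0 < a y := by
    intro y hy
    have hy0 : 0 ≤ y := hlog10.trans hy.le
    have h5 := hexp10 y hy.le
    have h6 := bq y
    have h7 := p0_le_exp y
    have h8 := be y
    have h8' := (p0_pos y).le
    rw [abs_of_nonneg hy0] at h6 h7 h8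
    have h9 := exp_pos (-y)
    have h10 : exp (-(2 * y)) ≤ 1 / 100 := by
      rw [show -(2 * y) = -y + -y by ring, exp_add]
      nlinarith
    have hq1 : |q y| ≤ 1 / 8 := by
      have h10 := abs_add_le (q y - p0 y) (p0 y)
      rw [sub_add_cancel, abs_of_nonneg h8'] at h10
      linarith
    have he1 : |e y| ≤ 1 / 8 := by linarith
    have hB := (hCB θ hθ0.le hθ1.le (q y) (q y) (e y) (e y) (by linarith) (by linarith)
      (by linarith) (by linarith)).1
    simp only at hB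
    have hB' : |θ * (4 * AA r θ (q y) (e y)
      + 4 * ((2 - θ)⁻¹ * (1 + (-1) * q y + (-2) * e y + θ * AA r θ (q y) (e y))))| ≤ 1 := by
      rw [abs_mul, abs_of_pos hθ0]
      exact (mul_le_mul_of_nonneg_left hB hθ0.le).trans hθC
    simp only [ha]
    rw [abs_le] at hq1 he1 hB'
    linarith [hq1.1, hq1.2, he1.1, he1.2, hB'.1, hB'.2]
  have hpos_small : ∀ y, 0 ≤ y → y ≤ log 10 → 0 ≤ q y := by
    intro y hy0 hy
    have h6 := bq y
    have h7 := p0_ge y
    rw [abs_of_nonneg hy0] at h6 h7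
    have h9 := exp_pos (-y)
    have h10 : 1 / 10 ≤ exp (-y) := by
      have : exp (-log 10) ≤ exp (-y) := exp_le_exp.2 (by linarith)
      rw [exp_neg (log 10), exp_log (by norm_num)] at this
      linarith
    have h11 : exp (-(2 * y)) = exp (-y) * exp (-y) := by
      rw [← exp_add]; congr 1; ring
    rw [h11] at h7
    rw [abs_le] at h6
    nlinarith [h6.1, h6.2]
  have hpos_large := nonneg_of_convex (Y := log 10) dq
    (fun y => (dq' y).congr_deriv (hqa y)) hapos (hpos_small _ hlog10 le_rfl) hlim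
  have hpos : ∀ y, 0 ≤ y → 0 ≤ q y := fun y hy => by
    rcases le_total y (log 10) with h | h
    · exact hpos_small y hy h
    · exact hpos_large y h
  intro y
  rcases le_total 0 y with h | h
  · exact hpos y h
  · rw [← evq]
    exact hpos (-y) (by linarith)

end Pool.Agent.Helper90.Pulse
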