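import Pool.Agent.Helper93.Thurston.Space

/-! The barycentric subdivision map of the doubled triangle is expanding. -/

namespace Pool.Agent.Helper93.Thurston

open Set Filter Topology
open scoped ENNReal

namespace D

/-- The `ℓ¹` distance of the barycentric coordinates. -/
noncomputable def NN (p q : D) : ℝ := |X p - X q| + |Y p - Y q| + |Z p - Z q|

lemma contraction_aux (a b c : ℝ) (h : a + b + c = 0) :
    |a + b / 2 + c / 3| + |b / 2 + c / 3| + |c / 3| ≤ 2 / 3 * (|a| + |b| + |c|) := by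
  have hc : c = -a - b := by linarith
  subst hc
  rcases abs_cases a with ⟨h1, h1'⟩ | ⟨h1, h1'⟩ <;>
  rcases abs_cases b with ⟨h2, h2'⟩ | ⟨h2, h2'⟩ <;>
  rcases abs_cases (-a - b) with ⟨h3, h3'⟩ | ⟨h3, h3'⟩ <;>
  rcases abs_cases ((-a - b) / 3) with ⟨h4, h4'⟩ | ⟨h4, h4'⟩ <;>
  rcases abs_cases (b / 2 + (-a - b) / 3) with ⟨h5, h5'⟩ | ⟨h5, h5'⟩ <;>
  rcases abs_cases (a + b / 2 + (-a - b) / 3) with ⟨h6, h6'⟩ | ⟨h6, h6'⟩ <;>
  linarith

lemma NN_nonneg (p q : D) : 0 ≤ NN p q := by unfold NN; positivity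

lemma NN_le_two (p q : D) : NN p q ≤ 2 := by
  unfold NN
  have h1 := X_nonneg p
  have h2 := Y_nonneg p
  have h3 := Z_nonneg p
  have h4 := X_nonneg q
  have h5 := Y_nonneg q
  have h6 := Z_nonneg q
  have h7 := sum_eq p
  have h8 := sum_eq q
  have g1 : |X p - X q| ≤ X p + X q := abs_le.2 ⟨by linarith, by linarith⟩
  have g2 : |Y p - Y q| ≤ Y p + Y q := abs_le.2 ⟨by linarith, by linarith⟩
  have g3 : |Z p - Z q| ≤ Z p + Z q := abs_le.2 ⟨by linarith, by linarith⟩
  linarith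

/-- `p` and `q` are in the same open small triangle. -/
def Same (p q : D) : Prop :=
  0 < W p * W q ∧ 0 < (X p - Y p) * (X q - Y q) ∧ 0 < (Y p - Z p) * (Y q - Z q) ∧
    0 < (X p - Z p) * (X q - Z q)

lemma ord1 {p : D} (h1 : Y p < X p) (h2 : Z p < Y p) :
    mx p = X p ∧ md p = Y p ∧ mn p = Z p := by
  rcases order_cases p with h | h | h | h | h | h <;> obtain ⟨g1, g2, e1, e2, e3⟩ := h <;>
    first
      | exact ⟨e1, e2, e3⟩
      | (exfalso; linarith)

lemma ord2 {p : D} (h1 : Z p < X p) (h2 : Y p < Z p) :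
    mx p = X p ∧ md p = Z p ∧ mn p = Y p := by
  rcases order_cases p with h | h | h | h | h | h <;> obtain ⟨g1, g2, e1, e2, e3⟩ := h <;>
    first
      | exact ⟨e1, e2, e3⟩
      | (exfalso; linarith)

lemma ord3 {p : D} (h1 : X p < Y p) (h2 : Z p < X p) :
    mx p = Y p ∧ md p = X p ∧ mn p = Z p := by
  rcases order_cases p with h | h | h | h | h | h <;> obtain ⟨g1, g2, e1, e2, e3⟩ := h <;>
    first
      | exact ⟨e1, e2, e3⟩
      | (exfalso; linarith)

lemma ord4 {p : D} (h1 : Z p < Y p) (h2 : X p < Z p) :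
    mx p = Y p ∧ md p = Z p ∧ mn p = X p := by
  rcases order_cases p with h | h | h | h | h | h <;> obtain ⟨g1, g2, e1, e2, e3⟩ := h <;>
    first
      | exact ⟨e1, e2, e3⟩
      | (exfalso; linarith)

lemma ord5 {p : D} (h1 : X p < Z p) (h2 : Y p < X p) :
    mx p = Z p ∧ md p = X p ∧ mn p = Y p := by
  rcases order_cases p with h | h | h | h | h | h <;> obtain ⟨g1, g2, e1, e2, e3⟩ := h <;>
    first
      | exact ⟨e1, e2, e3⟩
      | (exfalso; linarith)

lemma ord6 {p : D} (h1 : Y p < Z p) (h2 : X p < Y p) :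
    mx p = Z p ∧ md p = Y p ∧ mn p = X p := by
  rcases order_cases p with h | h | h | h | h | h <;> obtain ⟨g1, g2, e1, e2, e3⟩ := h <;>
    first
      | exact ⟨e1, e2, e3⟩
      | (exfalso; linarith)

/-- the contraction estimate, for sorted coordinates -/
lemma sorted_le (a b c a' b' c' : ℝ) (h : a + b + c = 1) (h' : a' + b' + c' = 1) :
    |a - a'| + |b - b'| + |c - c'| ≤
      2 / 3 * (|(a - b) - (a' - b')| + |2 * (b - c) - 2 * (b' - c')| + |3 * c - 3 * c'|) := by
  have key := contraction_aux ((a - b) - (a' - b')) (2 * (b - c) - 2 * (b' - c'))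
    (3 * c - 3 * c') (by linarith)
  have e1 : (a - b) - (a' - b') + (2 * (b - c) - 2 * (b' - c')) / 2 + (3 * c - 3 * c') / 3
      = a - a' := by ring
  have e2 : (2 * (b - c) - 2 * (b' - c')) / 2 + (3 * c - 3 * c') / 3 = b - b' := by ring
  have e3 : (3 * c - 3 * c') / 3 = c - c' := by ring
  rw [e1, e2, e3] at key
  exact key

lemma NN_le_of_same {p q : D} (h : Same p q) : NN p q ≤ 2 / 3 * NN (F p) (F q) := by
  obtain ⟨-, hxy, hyz, hxz⟩ := h
  have hp := sum_eq p
  have hq := sum_eq q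
  unfold NN
  rw [X_F, Y_F, Z_F, X_F, Y_F, Z_F]
  unfold T1 T2 T3
  rcases mul_pos_iff.1 hxy with ⟨a1, a2⟩ | ⟨a1, a2⟩ <;>
  rcases mul_pos_iff.1 hyz with ⟨b1, b2⟩ | ⟨b1, b2⟩ <;>
  rcases mul_pos_iff.1 hxz with ⟨c1, c2⟩ | ⟨c1, c2⟩
  · obtain ⟨e1, e2, e3⟩ := ord1 (p := p) (by linarith) (by linarith)
    obtain ⟨f1, f2, f3⟩ := ord1 (p := q) (by linarith) (by linarith)
    rw [e1, e2, e3, f1, f2, f3]
    have := sorted_le (X p) (Y p) (Z p) (X q) (Y q) (Z q) (by linarith) (by linarith)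
    linarith
  · exfalso; linarith
  · obtain ⟨e1, e2, e3⟩ := ord2 (p := p) (by linarith) (by linarith)
    obtain ⟨f1, f2, f3⟩ := ord2 (p := q) (by linarith) (by linarith)
    rw [e1, e2, e3, f1, f2, f3]
    have := sorted_le (X p) (Z p) (Y p) (X q) (Z q) (Y q) (by linarith) (by linarith)
    linarith
  · obtain ⟨e1, e2, e3⟩ := ord5 (p := p) (by linarith) (by linarith)
    obtain ⟨f1, f2, f3⟩ := ord5 (p := q) (by linarith) (by linarith)
    rw [e1, e2, e3, f1, f2, f3]
    have := sorted_le (Z p) (X p) (Y p) (Z q) (X q) (Y q) (by linarith) (by linarith)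
    linarith
  · obtain ⟨e1, e2, e3⟩ := ord3 (p := p) (by linarith) (by linarith)
    obtain ⟨f1, f2, f3⟩ := ord3 (p := q) (by linarith) (by linarith)
    rw [e1, e2, e3, f1, f2, f3]
    have := sorted_le (Y p) (X p) (Z p) (Y q) (X q) (Z q) (by linarith) (by linarith)
    linarith
  · obtain ⟨e1, e2, e3⟩ := ord4 (p := p) (by linarith) (by linarith)
    obtain ⟨f1, f2, f3⟩ := ord4 (p := q) (by linarith) (by linarith)
    rw [e1, e2, e3, f1, f2, f3]
    have := sorted_le (Y p) (Z p) (X p) (Y q) (Z q) (X q) (by linarith) (by linarith)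
    linarith
  · exfalso; linarith
  · obtain ⟨e1, e2, e3⟩ := ord6 (p := p) (by linarith) (by linarith)
    obtain ⟨f1, f2, f3⟩ := ord6 (p := q) (by linarith) (by linarith)
    rw [e1, e2, e3, f1, f2, f3]
    have := sorted_le (Z p) (Y p) (X p) (Z q) (Y q) (X q) (by linarith) (by linarith)
    linarith

lemma abs_min_sub_min_le (a b c d : ℝ) : |min a b - min c d| ≤ max |a - c| |b - d| :=
  abs_min_sub_min_le_max a b c d

lemma W_sub_le {p q : D} (h : 0 < W p * W q) : |W p - W q| ≤ NN p q := by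
  have h1 : |W p - W q| = |mn p - mn q| := by
    rw [← abs_W_eq_mn, ← abs_W_eq_mn]
    rcases mul_pos_iff.1 h with ⟨h1, h2⟩ | ⟨h1, h2⟩
    · rw [abs_of_pos h1, abs_of_pos h2]
    · rw [abs_of_neg h1, abs_of_neg h2, ← abs_neg]; congr 1; ring
  rw [h1]
  unfold mn NN
  refine (abs_min_sub_min_le _ _ _ _).trans ?_
  have h2 := abs_min_sub_min_le (Y p) (Z p) (Y q) (Z q)
  have a1 := abs_nonneg (X p - X q)
  have a2 := abs_nonneg (Y p - Y q)
  have a3 := abs_nonneg (Z p - Z q)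
  refine max_le (by linarith) (h2.trans (max_le (by linarith) (by linarith)))

lemma dist_eq (p q : D) : dist p q = max |X p - X q| (max |Y p - Y q| |W p - W q|) := rfl

lemma dist_le_NN {p q : D} (h : 0 < W p * W q) : dist p q ≤ NN p q := by
  rw [dist_eq]
  have h1 := W_sub_le h
  have a1 := abs_nonneg (X p - X q)
  have a2 := abs_nonneg (Y p - Y q)
  have a3 := abs_nonneg (Z p - Z q)
  refine max_le ?_ (max_le ?_ h1) <;> unfold NN <;> linarith

/-- The sign of a function without zeros is constant on a preconnected set. -/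
lemma mul_pos_of_preconnected {E : Set D} (hE : IsPreconnected E) {u : D → ℝ}
    (hu : Continuous u) (h0 : ∀ p ∈ E, u p ≠ 0) {p q : D} (hp : p ∈ E) (hq : q ∈ E) :
    0 < u p * u q := by
  rcases lt_or_gt_of_ne (h0 p hp) with h1 | h1 <;> rcases lt_or_gt_of_ne (h0 q hq) with h2 | h2
  · exact mul_pos_of_neg_of_neg h1 h2
  · exfalso
    obtain ⟨r, hr, hr0⟩ := hE.intermediate_value hp hq hu.continuousOn ⟨h1.le, h2.le⟩
    exact h0 r hr hr0
  · exfalso
    obtain ⟨r, hr, hr0⟩ := hE.intermediate_value hq hp hu.continuousOn ⟨h2.le, h1.le⟩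
    exact h0 r hr hr0
  · exact mul_pos h1 h2

lemma same_of_preconnected {E : Set D} (hE : IsPreconnected E)
    (h0 : ∀ p ∈ E, W p * V p ≠ 0) {p q : D} (hp : p ∈ E) (hq : q ∈ E) : Same p q := by
  have hW : ∀ p ∈ E, W p ≠ 0 := fun p hp h => h0 p hp (by rw [h, zero_mul])
  have hV : ∀ p ∈ E, V p ≠ 0 := fun p hp h => h0 p hp (by rw [h, mul_zero])
  have h1 : ∀ p ∈ E, X p - Y p ≠ 0 := fun p hp h => hV p hp (by unfold V; rw [h]; ring)
  have h2 : ∀ p ∈ E, Y p - Z p ≠ 0 := fun p hp h => hV p hp (by unfold V; rw [h]; ring)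
  have h3 : ∀ p ∈ E, X p - Z p ≠ 0 := fun p hp h => hV p hp (by unfold V; rw [h]; ring)
  exact ⟨mul_pos_of_preconnected hE continuous_W hW hp hq,
    mul_pos_of_preconnected hE (continuous_X.sub continuous_Y) h1 hp hq,
    mul_pos_of_preconnected hE (continuous_Y.sub continuous_Z) h2 hp hq,
    mul_pos_of_preconnected hE (continuous_X.sub continuous_Z) h3 hp hq⟩

lemma W_F_eq_zero {p : D} (h : W p * V p = 0) : W (F p) = 0 := by
  rw [W_F, h, Real.sign_zero, zero_mul]

lemma W_iterate_ne {n : ℕ} : ∀ {p : D}, W (F^[n] p) ≠ 0 → ∀ k ≤ n, W (F^[k] p) ≠ 0 := by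
  induction n with
  | zero =>
    intro p h k hk
    obtain rfl : k = 0 := by omega
    exact h
  | succ n ih =>
    intro p h k hk
    have h1 : W (F^[n] p) ≠ 0 := by
      intro h0
      apply h
      rw [Function.iterate_succ_apply']
      exact W_F_eq_zero (by rw [h0, zero_mul])
    rcases Nat.lt_or_ge k (n + 1) with hk' | hk'
    · exact ih h1 k (by omega)
    · obtain rfl : k = n + 1 := by omega
      exact h

lemma WV_iterate_ne {n : ℕ} {p : D} (h : W (F^[n] p) ≠ 0) {k : ℕ} (hk : k < n) :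
    W (F^[k] p) * V (F^[k] p) ≠ 0 := by
  intro h0
  have h1 := W_iterate_ne h (k + 1) hk
  rw [Function.iterate_succ_apply'] at h1
  exact h1 (W_F_eq_zero h0)

lemma NN_le_iterate {n : ℕ} {E : Set D} (hE : IsPreconnected E)
    (hn : ∀ p ∈ E, W (F^[n] p) ≠ 0) {p q : D} (hp : p ∈ E) (hq : q ∈ E) :
    ∀ k ≤ n, NN p q ≤ (2 / 3) ^ k * NN (F^[k] p) (F^[k] q) := by
  intro k
  induction k with
  | zero => intro _; simp
  | succ k ih =>
    intro hk
    have h1 := ih (by omega)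
    have hEk : IsPreconnected (F^[k] '' E) :=
      hE.image _ (continuous_F.iterate k).continuousOn
    have h2 : Same (F^[k] p) (F^[k] q) := by
      refine same_of_preconnected hEk ?_ (mem_image_of_mem _ hp) (mem_image_of_mem _ hq)
      rintro _ ⟨r, hr, rfl⟩
      exact WV_iterate_ne (hn r hr) (by omega)
    have h3 := NN_le_of_same h2
    rw [Function.iterate_succ_apply', Function.iterate_succ_apply']
    calc NN p q ≤ (2 / 3) ^ k * NN (F^[k] p) (F^[k] q) := h1
      _ ≤ (2 / 3) ^ k * (2 / 3 * NN (F (F^[k] p)) (F (F^[k] q))) := by gcongr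
      _ = (2 / 3) ^ (k + 1) * NN (F (F^[k] p)) (F (F^[k] q)) := by ring

lemma mesh_F_le (n : ℕ) (hn : 1 ≤ n) :
    mesh F n {p : D | W p = 0} ≤ ENNReal.ofReal ((2 / 3) ^ n * 2) := by
  unfold mesh
  refine iSup₂_le fun x hx => ?_
  refine Metric.ediam_le fun p hp q hq => ?_
  have hE : IsPreconnected (connectedComponentIn ((F^[n]) ⁻¹' {p : D | W p = 0}ᶜ) x) :=
    isPreconnected_connectedComponentIn
  have hsub := connectedComponentIn_subset ((F^[n]) ⁻¹' {p : D | W p = 0}ᶜ) x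
  have hne : ∀ p ∈ connectedComponentIn ((F^[n]) ⁻¹' {p : D | W p = 0}ᶜ) x,
      W (F^[n] p) ≠ 0 := fun p hp => hsub hp
  have h1 := NN_le_iterate hE hne hp hq n le_rfl
  have hs : Same p q :=
    same_of_preconnected hE (fun r hr => WV_iterate_ne (k := 0) (hne r hr) (by omega)) hp hq
  rw [edist_dist]
  refine ENNReal.ofReal_le_ofReal ?_
  calc dist p q ≤ NN p q := dist_le_NN hs.1
    _ ≤ (2 / 3) ^ n * NN (F^[n] p) (F^[n] q) := h1
    _ ≤ (2 / 3) ^ n * 2 := by
      have := NN_le_two (F^[n] p) (F^[n] q)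
      gcongr

theorem tendsto_mesh_F : Tendsto (fun n => mesh F n {p : D | W p = 0}) atTop (𝓝 0) := by
  have h1 : Tendsto (fun n : ℕ => ((2 / 3 : ℝ)) ^ n * 2) atTop (𝓝 0) := by
    have := (tendsto_pow_atTop_nhds_zero_of_lt_one (r := (2 / 3 : ℝ)) (by norm_num)
      (by norm_num)).mul_const 2
    rwa [zero_mul] at this
  have h2 : Tendsto (fun n : ℕ => ENNReal.ofReal ((2 / 3 : ℝ) ^ n * 2)) atTop (𝓝 0) := by
    have := ENNReal.tendsto_ofReal h1
    rwa [ENNReal.ofReal_zero] at this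
  refine tendsto_of_tendsto_of_tendsto_of_le_of_le' tendsto_const_nhds h2
    (Eventually.of_forall fun n => bot_le) ?_
  filter_upwards [eventually_ge_atTop 1] with n hn
  exact mesh_F_le n hn

end D

end Pool.Agent.Helper93.Thurston
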