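import Pool.Agent.Helper90.ThPost
import Mathlib.Geometry.Manifold.Instances.Sphere
import Mathlib.MeasureTheory.Function.Jacobian
import Mathlib.MeasureTheory.Measure.Haar.InnerProductSpace
import Mathlib.Analysis.Calculus.InverseFunctionTheorem.FDeriv

/-! An expanding fixed critical point excludes conjugacy to a `C¹` map. -/

namespace Pool.Agent.Helper93.Thurston

open Set Filter Topology MeasureTheory
open scoped ENNReal ContDiff Manifold

/-- The plane version. -/
theorem plane_contradiction {G : EuclideanSpace ℝ (Fin 2) → EuclideanSpace ℝ (Fin 2)}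
    {a : EuclideanSpace ℝ (Fin 2)} (hG : ContDiffAt ℝ 1 G a)
    (hninj : ∀ V ∈ 𝓝 a, ¬ InjOn G V)
    (hU : ∀ V ∈ 𝓝 a, ∃ U ⊆ V, IsOpen U ∧ U.Nonempty ∧ U ⊆ G '' U) : False := by
  -- the derivative at `a` is singular
  have hstrict : HasStrictFDerivAt G (fderiv ℝ G a) a := hG.hasStrictFDerivAt (by norm_num)
  have hdet : (fderiv ℝ G a).det = 0 := by
    by_contra hne
    have hs : HasStrictFDerivAt G
        ((fderiv ℝ G a).toContinuousLinearEquivOfDetNeZero hne :
          EuclideanSpace ℝ (Fin 2) →L[ℝ] EuclideanSpace ℝ (Fin 2)) a := by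
      rw [ContinuousLinearMap.coe_toContinuousLinearEquivOfDetNeZero]
      exact hstrict
    refine hninj (hs.toOpenPartialHomeomorph G).source ?_ ?_
    · exact (hs.toOpenPartialHomeomorph G).open_source.mem_nhds
        hs.mem_toOpenPartialHomeomorph_source
    · exact (hs.toOpenPartialHomeomorph G).injOn
  -- near `a` the determinant is small
  have hcont : ContinuousAt (fderiv ℝ G) a :=
    (hG.fderiv_right (m := 0) (by norm_num)).continuousAt
  have hdiff : ∀ᶠ x in 𝓝 a, DifferentiableAt ℝ G x := by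
    have := hG.eventually (by norm_num)
    filter_upwards [this] with x hx
    exact hx.differentiableAt (by norm_num)
  have hdetc : ContinuousAt (fun x => |(fderiv ℝ G x).det|) a :=
    (ContinuousLinearMap.continuous_det.continuousAt.comp hcont).abs
  have hsmall : ∀ᶠ x in 𝓝 a, |(fderiv ℝ G x).det| < 1 / 2 := by
    refine hdetc.eventually (gt_mem_nhds ?_)
    simp only [hdet, abs_zero]
    norm_num
  obtain ⟨U, hUV, hUo, hUn, hUG⟩ := hU _ ((hdiff.and hsmall).and (Metric.ball_mem_nhds a one_pos))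
  have hfin : volume U < ⊤ :=
    (measure_mono fun x hx => (hUV hx).2).trans_lt (measure_ball_lt_top (x := a) (r := 1))
  have hpos : 0 < volume U := hUo.measure_pos volume hUn
  have h1 : volume U ≤ ENNReal.ofReal (1 / 2) * volume U := by
    calc volume U ≤ volume (G '' U) := measure_mono hUG
      _ ≤ ∫⁻ x in U, ENNReal.ofReal |(fderiv ℝ G x).det| :=
        addHaar_image_le_lintegral_abs_det_fderiv volume hUo.measurableSet
          fun x hx => (hUV hx).1.1.hasFDerivAt.hasFDerivWithinAt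
      _ ≤ ∫⁻ _ in U, ENNReal.ofReal (1 / 2) :=
        setLIntegral_mono' hUo.measurableSet fun x hx =>
          ENNReal.ofReal_le_ofReal (hUV hx).1.2.le
      _ = ENNReal.ofReal (1 / 2) * volume U := by rw [setLIntegral_const]
  have h2 := ENNReal.toReal_mono (ENNReal.mul_ne_top ENNReal.ofReal_ne_top hfin.ne) h1
  rw [ENNReal.toReal_mul, ENNReal.toReal_ofReal (by norm_num)] at h2
  have h3 : 0 < (volume U).toReal := ENNReal.toReal_pos hpos.ne' hfin.ne
  linarith

theorem no_C1_aux {S M : Type*} [TopologicalSpace S] [TopologicalSpace M]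
    [ChartedSpace (EuclideanSpace ℝ (Fin 2)) M] (f : S → S) (p : S) (hp : f p = p)
    (hninj : ∀ V ∈ 𝓝 p, ¬ InjOn f V)
    (hU : ∀ V ∈ 𝓝 p, ∃ U ⊆ V, IsOpen U ∧ U.Nonempty ∧ U ⊆ f '' U)
    (h : S ≃ₜ M) (g : M → M) (hh : ∀ x, h (f x) = g (h x))
    (hg : ContMDiffAt (𝓡 2) (𝓡 2) 1 g (h p)) : False := by
  have hgq : g (h p) = h p := by rw [← hh, hp]
  rw [contMDiffAt_iff] at hg
  obtain ⟨hgc, hgd⟩ := hg
  rw [hgq] at hgd
  set q := h p with hq
  set e := chartAt (EuclideanSpace ℝ (Fin 2)) q with he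
  have hqe : q ∈ e.source := mem_chart_source _ q
  have hgd' : ContDiffAt ℝ 1 (e ∘ g ∘ e.symm) (e q) := by
    have h1 : range (𝓡 2) = univ := ModelWithCorners.range_eq_univ _
    rw [h1, contDiffWithinAt_univ] at hgd
    exact hgd
  -- points near `q`
  have hnear : ∀ B ∈ 𝓝 (e q), h ⁻¹' (e.source ∩ g ⁻¹' e.source ∩ e ⁻¹' B) ∈ 𝓝 p := by
    intro B hB
    apply h.continuous.continuousAt
    refine Filter.inter_mem (Filter.inter_mem (e.open_source.mem_nhds hqe) ?_) ?_
    · apply hgc
      rw [hgq]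
      exact e.open_source.mem_nhds hqe
    · exact (e.continuousAt hqe) hB
  refine plane_contradiction hgd' ?_ ?_
  · intro V hV hinj
    refine hninj _ (hnear V hV) ?_
    rintro x ⟨⟨x1, x2⟩, x3⟩ y ⟨⟨y1, y2⟩, y3⟩ hxy
    have e1 : (e ∘ g ∘ e.symm) (e (h x)) = (e ∘ g ∘ e.symm) (e (h y)) := by
      simp only [Function.comp_apply]
      rw [e.left_inv x1, e.left_inv y1, ← hh, ← hh, hxy]
    exact h.injective (e.injOn x1 y1 (hinj x3 y3 e1))
  · intro V hV
    obtain ⟨U, hUV, hUo, hUn, hUf⟩ := hU _ (hnear V hV)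
    refine ⟨e '' (h '' U), ?_, ?_, (hUn.image h).image e, ?_⟩
    · rintro _ ⟨_, ⟨u, hu, rfl⟩, rfl⟩
      exact (hUV hu).2
    · refine e.isOpen_image_of_subset_source (h.isOpenMap U hUo) ?_
      rintro _ ⟨u, hu, rfl⟩
      exact (hUV hu).1.1
    · rintro _ ⟨_, ⟨u, hu, rfl⟩, rfl⟩
      obtain ⟨v, hv, rfl⟩ := hUf hu
      refine ⟨e (h v), ⟨_, ⟨v, hv, rfl⟩, rfl⟩, ?_⟩
      simp only [Function.comp_apply]
      rw [e.left_inv (hUV hv).1.1, hh]

namespace D

/-- points near the vertex `v1` -/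
lemma mem_nhds_v1 {V' : Set D} (hV : V' ∈ 𝓝 v1) : ∃ ε > 0, {p : D | 1 - X p < ε} ⊆ V' := by
  obtain ⟨ε, hε, hball⟩ := Metric.mem_nhds_iff.1 hV
  refine ⟨ε, hε, fun p hp => hball ?_⟩
  rw [Metric.mem_ball, dist_eq]
  have hp : 1 - X p < ε := hp
  have h1 := sum_eq p
  have h2 := Y_nonneg p
  have h3 := Z_nonneg p
  have h4 := X_nonneg p
  have h5 : |W p| ≤ Y p := (abs_W p).le.trans ((min_le_right _ _).trans (min_le_left _ _))
  have e1 : X v1 = 1 := rfl
  have e2 : Y v1 = 0 := rfl
  have e3 : W v1 = 0 := rfl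
  rw [e1, e2, e3, sub_zero, sub_zero, abs_of_nonneg h2]
  refine max_lt (abs_lt.2 ⟨by linarith, by linarith⟩) (max_lt (by linarith) (by linarith))

lemma isOpen_nhd_v1 (ε : ℝ) : IsOpen {p : D | 1 - X p < ε} :=
  isOpen_lt (continuous_const.sub continuous_X) continuous_const

theorem not_injOn_v1 : ∀ V' ∈ 𝓝 v1, ¬ InjOn F V' := by
  intro V' hV hinj
  obtain ⟨ε, hε, hsub⟩ := mem_nhds_v1 hV
  set t := min (ε / 2) (1 / 4) with ht
  have ht0 : 0 < t := lt_min (by linarith) (by norm_num)
  have ht1 : t ≤ ε / 2 := min_le_left _ _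
  have ht2 : t ≤ 1 / 4 := min_le_right _ _
  have hp1 : |(0 : ℝ)| = min (1 - t) (min t (1 - (1 - t) - t)) := by
    have : 1 - (1 - t) - t = 0 := by ring
    rw [this, min_eq_right (a := t) ht0.le, min_eq_right (by linarith), abs_zero]
  have hq1 : |(0 : ℝ)| = min (1 - t) (min 0 (1 - (1 - t) - 0)) := by
    rw [min_eq_left (a := 0) (by linarith), min_eq_right (by linarith), abs_zero]
  set p := mk' (1 - t) t 0 hp1 with hp
  set q := mk' (1 - t) 0 0 hq1 with hq
  have hpX : X p = 1 - t := rfl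
  have hpY : Y p = t := rfl
  have hpZ : Z p = 0 := by rw [hp, Z_mk']; ring
  have hqX : X q = 1 - t := rfl
  have hqY : Y q = 0 := rfl
  have hqZ : Z q = t := by rw [hq, Z_mk']; ring
  have hpW : W p = 0 := rfl
  have hqW : W q = 0 := rfl
  obtain ⟨a1, a2, a3⟩ := ord1 (p := p) (by rw [hpX, hpY]; linarith) (by rw [hpZ, hpY]; linarith)
  obtain ⟨b1, b2, b3⟩ := ord2 (p := q) (by rw [hqX, hqZ]; linarith) (by rw [hqZ, hqY]; linarith)
  have hF : F p = F q := by
    apply ext'
    · rw [X_F, X_F, T1, T1, a1, a2, b1, b2, hpX, hpY, hqX, hqZ]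
    · rw [Y_F, Y_F, T2, T2, a2, a3, b2, b3, hpY, hpZ, hqY, hqZ]
    · rw [W_F, W_F, hpW, hqW, zero_mul, zero_mul, Real.sign_zero, zero_mul, zero_mul]
  have hpV : p ∈ V' := hsub (show 1 - X p < ε by rw [hpX]; linarith)
  have hqV : q ∈ V' := hsub (show 1 - X q < ε by rw [hqX]; linarith)
  have := hinj hpV hqV hF
  have h2 := congrArg Y this
  rw [hpY, hqY] at h2
  linarith

/-- Every small neighbourhood of `v1` expands. -/
theorem exists_expanding_nhd_v1 :
    ∀ V' ∈ 𝓝 v1, ∃ U ⊆ V', IsOpen U ∧ U.Nonempty ∧ U ⊆ F '' U := by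
  intro V' hV
  obtain ⟨ε, hε, hsub⟩ := mem_nhds_v1 hV
  refine ⟨{p : D | 1 - X p < ε}, hsub, isOpen_nhd_v1 ε, ⟨v1, ?_⟩, ?_⟩
  · show 1 - X v1 < ε
    rw [show X v1 = 1 from rfl]
    linarith
  · intro q hq
    have hq : 1 - X q < ε := hq
    have h0 := sum_eq q
    have h1 := X_nonneg q
    have h2 := Y_nonneg q
    have h3 := Z_nonneg q
    have h4 := abs_W q
    set a := X q + Y q / 2 + Z q / 3 with ha
    set b := Y q / 2 + Z q / 3 with hb
    set c := Z q / 3 with hc
    set s : ℝ := if W q < 0 then -1 else 1 with hs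
    have hsabs : |s| = 1 := by
      rw [hs]; split_ifs <;> norm_num
    have hmem : |s * c| = min a (min b (1 - a - b)) := by
      have e : 1 - a - b = c := by rw [ha, hb, hc]; linarith
      rw [e, abs_mul, hsabs, one_mul, abs_of_nonneg (by positivity),
        min_eq_right (a := b) (by rw [hb, hc]; linarith),
        min_eq_right (by rw [ha, hc]; linarith)]
    set p := mk' a b (s * c) hmem with hp
    have hpX : X p = a := rfl
    have hpY : Y p = b := rfl
    have hpW : W p = s * c := rfl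
    have hpZ : Z p = c := by rw [hp, Z_mk', ha, hb, hc]; linarith
    have hmx : mx p = a := by
      unfold mx
      rw [hpX, hpY, hpZ, max_eq_left (a := b) (by rw [hb, hc]; linarith),
        max_eq_left (by rw [ha, hb]; linarith)]
    have hmn : mn p = c := by
      unfold mn
      rw [hpX, hpY, hpZ, min_eq_right (a := b) (by rw [hb, hc]; linarith),
        min_eq_right (by rw [ha, hc]; linarith)]
    have hmd : md p = b := by
      unfold md; rw [hmx, hmn, ha, hb, hc]; linarith
    have hT1 : T1 p = X q := by unfold T1; rw [hmx, hmd, ha, hb]; ring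
    have hT2 : T2 p = Y q := by unfold T2; rw [hmd, hmn, hb, hc]; ring
    have hT3 : T3 p = Z q := by unfold T3; rw [hmn, hc]; ring
    have hTm : Tm p = |W q| := by unfold Tm; rw [hT1, hT2, hT3, ← h4]
    have hVp : V p = X q * (Y q / 2) * (X q + Y q / 2) := by
      unfold V; rw [hpX, hpY, hpZ, ha, hb, hc]; ring
    refine ⟨p, ?_, ?_⟩
    · show 1 - X p < ε
      rw [hpX, ha]
      linarith
    · apply ext'
      · rw [X_F, hT1]
      · rw [Y_F, hT2]
      · rw [W_F, hTm]
        rcases eq_or_ne (W q) 0 with hw | hw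
        · rw [hw, abs_zero, mul_zero]
        · have hpos : 0 < |W q| := abs_pos.2 hw
          rw [h4] at hpos
          obtain ⟨k1, k2⟩ := lt_min_iff.1 hpos
          obtain ⟨k2, k3⟩ := lt_min_iff.1 k2
          have hVpos : 0 < V p := by rw [hVp]; positivity
          have hcpos : 0 < c := by rw [hc]; positivity
          rcases lt_or_gt_of_ne hw with hw' | hw'
          · have hs' : s = -1 := by rw [hs, if_pos hw']
            have : W p * V p < 0 := by
              rw [hpW, hs']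
              nlinarith [mul_pos hcpos hVpos]
            rw [Real.sign_of_neg this, abs_of_neg hw']
            ring
          · have hs' : s = 1 := by rw [hs, if_neg (not_lt.2 hw'.le)]
            have : 0 < W p * V p := by
              rw [hpW, hs']
              nlinarith [mul_pos hcpos hVpos]
            rw [Real.sign_of_pos this, abs_of_pos hw']
            ring

end D

/-- A map with an expanding non-injective fixed point is not conjugate to a `C¹` map. -/
theorem no_C1_model {S : Type*} [TopologicalSpace S] (f : S → S) (p : S) (hp : f p = p)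
    (hninj : ∀ V ∈ 𝓝 p, ¬ Set.InjOn f V)
    (hU : ∀ V ∈ 𝓝 p, ∃ U ⊆ V, IsOpen U ∧ U.Nonempty ∧ U ⊆ f '' U) (g : S2 → S2)
    (hg : ContMDiff (𝓡 2) (𝓡 2) 1 g) : ¬ ∃ h : S ≃ₜ S2, ∀ x, h (f x) = g (h x) := by
  rintro ⟨h, hh⟩
  exact no_C1_aux f p hp hninj hU h g hh (hg (h p))

/-- The barycentric subdivision map is not conjugate to a `C¹` map. -/
theorem D.no_C1_model_F (g : S2 → S2) (hg : ContMDiff (𝓡 2) (𝓡 2) 1 g) :
    ¬ ∃ h : D ≃ₜ S2, ∀ x, h (D.F x) = g (h x) :=
  no_C1_model D.F D.v1 D.F_v1 D.not_injOn_v1 D.exists_expanding_nhd_v1 g hg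

end Pool.Agent.Helper93.Thurston
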