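import Pool.Agent.Helper90.ThExpand

/-! Critical and postcritical points of the barycentric subdivision map. -/

namespace Pool.Agent.Helper93.Thurston

open Set Filter Topology

/-- A map with local degree at least two is not locally injective. -/
theorem not_injOn_of_isPowerNear {S : Type*} [TopologicalSpace S] {f : S → S} {p : S} {d : ℕ}
    {φ ψ : OpenPartialHomeomorph S ℂ} (h : IsPowerNear f p d φ ψ) (hd : 2 ≤ d)
    {V : Set S} (hV : V ∈ 𝓝 p) : ¬ InjOn f V := by
  obtain ⟨hp, hp0, -, -, hpow⟩ := h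
  intro hinj
  -- the image of V contains a ball
  have h0 : (0 : ℂ) ∈ φ.target := hp0 ▸ φ.map_source hp
  have hsymm : φ.symm 0 = p := by rw [← hp0, φ.left_inv hp]
  have hcont : ContinuousAt φ.symm 0 := φ.symm.continuousAt h0
  have hV' : φ.symm ⁻¹' V ∈ 𝓝 (0 : ℂ) := by
    apply hcont
    rw [hsymm]
    exact hV
  have ht : φ.target ∈ 𝓝 (0 : ℂ) := φ.open_target.mem_nhds h0
  obtain ⟨r, hr, hball⟩ := Metric.mem_nhds_iff.1 (Filter.inter_mem hV' ht)
  -- a nontrivial root of unity
  have hζ := Complex.isPrimitiveRoot_exp d (by omega)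
  set ζ := Complex.exp (2 * Real.pi * Complex.I / d) with hζdef
  have hζn : ‖ζ‖ = 1 := hζ.norm'_eq_one (by omega)
  have hζ1 : ζ ≠ 1 := hζ.ne_one (by omega)
  set z : ℂ := ((r / 2 : ℝ) : ℂ) with hz
  have hzn : ‖z‖ = r / 2 := by rw [hz, Complex.norm_real, Real.norm_of_nonneg (by positivity)]
  have hz0 : z ≠ 0 := by rw [← norm_pos_iff, hzn]; positivity
  have hz1 : z ∈ Metric.ball (0 : ℂ) r := by
    rw [mem_ball_zero_iff, hzn]; linarith
  have hz2 : ζ * z ∈ Metric.ball (0 : ℂ) r := by
    rw [mem_ball_zero_iff, norm_mul, hζn, hzn]; linarith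
  obtain ⟨hz1V, hz1t⟩ := hball hz1
  obtain ⟨hz2V, hz2t⟩ := hball hz2
  have e1 := hpow _ (φ.map_target hz1t)
  have e2 := hpow _ (φ.map_target hz2t)
  rw [φ.right_inv hz1t] at e1
  rw [φ.right_inv hz2t, mul_pow, hζ.pow_eq_one, one_mul] at e2
  have e3 : f (φ.symm z) = f (φ.symm (ζ * z)) :=
    ψ.injOn e1.1 e2.1 (e1.2.trans e2.2.symm)
  have e4 := hinj hz1V hz2V e3
  have e5 := φ.symm.injOn hz1t hz2t e4
  apply hζ1
  have e6 : ζ * z = 1 * z := by rw [one_mul]; exact e5.symm
  exact mul_right_cancel₀ hz0 e6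

namespace D

lemma T_eq_of_F {p q : D} (h : F p = F q) : T1 p = T1 q ∧ T2 p = T2 q ∧ T3 p = T3 q := by
  refine ⟨?_, ?_, ?_⟩
  · rw [← X_F, ← X_F, h]
  · rw [← Y_F, ← Y_F, h]
  · rw [← Z_F, ← Z_F, h]

lemma mx_eq (p : D) : mx p = T1 p + T2 p / 2 + T3 p / 3 := by
  unfold T1 T2 T3; ring
lemma md_eq (p : D) : md p = T2 p / 2 + T3 p / 3 := by
  unfold T2 T3; ring
lemma mn_eq (p : D) : mn p = T3 p / 3 := by
  unfold T3; ring

lemma sorted_eq_of_F {p q : D} (h : F p = F q) : mx p = mx q ∧ md p = md q ∧ mn p = mn q := by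
  obtain ⟨h1, h2, h3⟩ := T_eq_of_F h
  rw [mx_eq, mx_eq, md_eq, md_eq, mn_eq, mn_eq, h1, h2, h3]
  exact ⟨rfl, rfl, rfl⟩

lemma Tm_eq_of_F {p q : D} (h : F p = F q) : Tm p = Tm q := by
  obtain ⟨h1, h2, h3⟩ := T_eq_of_F h
  unfold Tm
  rw [h1, h2, h3]

lemma mn_le_all (p : D) : mn p ≤ X p ∧ mn p ≤ Y p ∧ mn p ≤ Z p :=
  ⟨min_le_left _ _, (min_le_right _ _).trans (min_le_left _ _),
    (min_le_right _ _).trans (min_le_right _ _)⟩

/-- positivity of `Tm` -/
lemma Tm_pos {p : D} (hW : W p ≠ 0) (hV : V p ≠ 0) : 0 < Tm p := by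
  rcases (Tm_nonneg p).lt_or_eq with h | h
  · exact h
  · exfalso
    have hmn : 0 < mn p := by rw [← abs_W_eq_mn]; exact abs_pos.2 hW
    have h1 := T1_nonneg p
    have h2 := T2_nonneg p
    have h3 : 0 < T3 p := by unfold T3; linarith
    have hv : 0 < |V p| := abs_pos.2 hV
    rw [abs_V] at hv
    have h4 : T1 p ≠ 0 := by intro h0; rw [h0] at hv; simp at hv
    have h5 : T2 p ≠ 0 := by intro h0; rw [h0] at hv; simp at hv
    have h6 : 0 < T1 p := lt_of_le_of_ne h1 h4.symm
    have h7 : 0 < T2 p := lt_of_le_of_ne h2 h5.symm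
    have : 0 < Tm p := lt_min h6 (lt_min h7 h3)
    linarith

/-- If two points have the same image and different sign of `W * V`, then `W * V = 0`. -/
lemma not_opposite {p q : D} (h : F p = F q) (h1 : 0 < W p * V p) (h2 : W q * V q < 0) :
    False := by
  have hWp : W p ≠ 0 := by intro h0; rw [h0] at h1; simp at h1
  have hVp : V p ≠ 0 := by intro h0; rw [h0] at h1; simp at h1
  have hT := Tm_pos hWp hVp
  have hTe := Tm_eq_of_F h
  have e : W (F p) = W (F q) := by rw [h]
  rw [W_F, W_F, Real.sign_of_pos h1, Real.sign_of_neg h2] at e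
  linarith

/-- Same coordinates and same image imply equality, if the coordinates are distinct. -/
lemma eq_of_coords {p q : D} (h : F p = F q) (hX : X p = X q) (hY : Y p = Y q)
    (hV : V p ≠ 0) : p = q := by
  have hZ : Z p = Z q := by rw [Z_eq, Z_eq, hX, hY]
  have hVe : V p = V q := by unfold V; rw [hX, hY, hZ]
  have habs : |W p| = |W q| := by rw [abs_W, abs_W, hX, hY, hZ]
  refine ext' hX hY ?_
  rcases abs_eq_abs.1 habs with h0 | h0
  · exact h0
  · by_contra hne
    have hWp : W p ≠ 0 := by
      intro h1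
      apply hne
      rw [h1] at h0 ⊢
      linarith
    have hprod : W q * V q = -(W p * V p) := by rw [← hVe, h0]; ring
    rcases lt_or_gt_of_ne (mul_ne_zero hWp hV) with h1 | h1
    · exact not_opposite h.symm (by rw [hprod]; linarith) h1
    · exact not_opposite h h1 (by rw [hprod]; linarith)

/-- Injectivity on a small triangle and its neighbour across `W = 0`. -/
lemma eq_of_same_order {p q : D} (h : F p = F q) (hxy : 0 < (X p - Y p) * (X q - Y q))
    (hyz : 0 < (Y p - Z p) * (Y q - Z q)) (hxz : 0 < (X p - Z p) * (X q - Z q)) : p = q := by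
  obtain ⟨s1, s2, s3⟩ := sorted_eq_of_F h
  have hV : V p ≠ 0 := by
    unfold V
    refine mul_ne_zero (mul_ne_zero ?_ ?_) ?_
    · exact left_ne_zero_of_mul hxy.ne'
    · exact left_ne_zero_of_mul hyz.ne'
    · exact left_ne_zero_of_mul hxz.ne'
  rcases mul_pos_iff.1 hxy with ⟨a1, a2⟩ | ⟨a1, a2⟩ <;>
  rcases mul_pos_iff.1 hyz with ⟨b1, b2⟩ | ⟨b1, b2⟩ <;>
  rcases mul_pos_iff.1 hxz with ⟨c1, c2⟩ | ⟨c1, c2⟩
  · obtain ⟨e1, e2, e3⟩ := ord1 (p := p) (by linarith) (by linarith)
    obtain ⟨f1, f2, f3⟩ := ord1 (p := q) (by linarith) (by linarith)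
    exact eq_of_coords h (by linarith) (by linarith) hV
  · exfalso; linarith
  · obtain ⟨e1, e2, e3⟩ := ord2 (p := p) (by linarith) (by linarith)
    obtain ⟨f1, f2, f3⟩ := ord2 (p := q) (by linarith) (by linarith)
    exact eq_of_coords h (by linarith) (by linarith) hV
  · obtain ⟨e1, e2, e3⟩ := ord5 (p := p) (by linarith) (by linarith)
    obtain ⟨f1, f2, f3⟩ := ord5 (p := q) (by linarith) (by linarith)
    exact eq_of_coords h (by linarith) (by linarith) hV
  · obtain ⟨e1, e2, e3⟩ := ord3 (p := p) (by linarith) (by linarith)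
    obtain ⟨f1, f2, f3⟩ := ord3 (p := q) (by linarith) (by linarith)
    exact eq_of_coords h (by linarith) (by linarith) hV
  · obtain ⟨e1, e2, e3⟩ := ord4 (p := p) (by linarith) (by linarith)
    obtain ⟨f1, f2, f3⟩ := ord4 (p := q) (by linarith) (by linarith)
    exact eq_of_coords h (by linarith) (by linarith) hV
  · exfalso; linarith
  · obtain ⟨e1, e2, e3⟩ := ord6 (p := p) (by linarith) (by linarith)
    obtain ⟨f1, f2, f3⟩ := ord6 (p := q) (by linarith) (by linarith)
    exact eq_of_coords h (by linarith) (by linarith) hV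

lemma sum3 (p : D) : X p + Y p + Z p = mx p + md p + mn p := by
  rw [sum_eq]; unfold md; ring

/-- The elementary symmetric functions are determined by the image. -/
lemma sym_eq_of_F {p q : D} (h : F p = F q) :
    X p * Y p + Y p * Z p + X p * Z p = X q * Y q + Y q * Z q + X q * Z q ∧
    X p * Y p * Z p = X q * Y q * Z q := by
  obtain ⟨s1, s2, s3⟩ := sorted_eq_of_F h
  have key : ∀ r : D, X r * Y r + Y r * Z r + X r * Z r =
      mx r * md r + md r * mn r + mx r * mn r ∧ X r * Y r * Z r = mx r * md r * mn r := by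
    intro r
    rcases order_cases r with h | h | h | h | h | h <;> obtain ⟨g1, g2, e1, e2, e3⟩ := h <;>
      rw [e1, e2, e3] <;> constructor <;> ring
  rw [(key p).1, (key q).1, (key p).2, (key q).2, s1, s2, s3]
  exact ⟨rfl, rfl⟩

lemma W_eq_of_F {p q : D} (h : F p = F q) (hW : 0 < W p * W q) : W p = W q := by
  obtain ⟨-, -, s3⟩ := sorted_eq_of_F h
  rw [← abs_W_eq_mn, ← abs_W_eq_mn] at s3
  rcases mul_pos_iff.1 hW with ⟨h1, h2⟩ | ⟨h1, h2⟩
  · rwa [abs_of_pos h1, abs_of_pos h2] at s3
  · rw [abs_of_neg h1, abs_of_neg h2] at s3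
    linarith

/-- exclusion of a transposition -/
lemma no_swap {p q : D} (h : F p = F q) (hW : 0 < W p * W q) (hV : V q = -V p) : V p = 0 := by
  by_contra hV0
  have hWe := W_eq_of_F h hW
  have hWp : W p ≠ 0 := left_ne_zero_of_mul hW.ne'
  have hprod : W q * V q = -(W p * V p) := by rw [hV, ← hWe]; ring
  rcases lt_or_gt_of_ne (mul_ne_zero hWp hV0) with h1 | h1
  · exact not_opposite h.symm (by rw [hprod]; linarith) h1
  · exact not_opposite h h1 (by rw [hprod]; linarith)

lemma eq_of_Z {p q : D} (h : F p = F q) (hW : 0 < W p * W q) (hZ : Z p = Z q)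
    (h1 : X p ≠ Z p) (h2 : Y p ≠ Z p) : p = q := by
  obtain ⟨g1, g2⟩ := sym_eq_of_F h
  have hs : X p + Y p = X q + Y q := by
    have := sum_eq p; have := sum_eq q; linarith
  have hm : X p * Y p = X q * Y q := by
    have e1 : X p * Y p + Z p * (X p + Y p) = X q * Y q + Z q * (X q + Y q) := by linarith
    rw [hZ, hs] at e1
    linarith
  have hc : (X p - X q) * (X p - Y q) = 0 := by
    have : (X p - X q) * (X p - Y q) = X p * X p - X p * (X q + Y q) + X q * Y q := by ring
    rw [this, ← hs, ← hm]; ring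
  have hWe := W_eq_of_F h hW
  rcases mul_eq_zero.1 hc with hc | hc
  · exact ext' (by linarith) (by linarith) hWe
  · have hX : X p = Y q := by linarith
    have hY : Y p = X q := by linarith
    have hV := no_swap h hW (by unfold V; rw [← hX, ← hY, ← hZ]; ring)
    unfold V at hV
    have h3 : Y p - Z p ≠ 0 := sub_ne_zero.2 h2
    have h4 : X p - Z p ≠ 0 := sub_ne_zero.2 h1
    have h5 : X p - Y p = 0 := by
      rcases mul_eq_zero.1 hV with hV | hV
      · rcases mul_eq_zero.1 hV with hV | hV
        · exact hV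
        · exact absurd hV h3
      · exact absurd hV h4
    exact ext' (by linarith) (by linarith) hWe

lemma eq_of_X {p q : D} (h : F p = F q) (hW : 0 < W p * W q) (hX : X p = X q)
    (h1 : X p ≠ Y p) (h2 : X p ≠ Z p) : p = q := by
  obtain ⟨g1, g2⟩ := sym_eq_of_F h
  have hs : Y p + Z p = Y q + Z q := by
    have := sum_eq p; have := sum_eq q; linarith
  have hm : Y p * Z p = Y q * Z q := by
    have e1 : Y p * Z p + X p * (Y p + Z p) = Y q * Z q + X q * (Y q + Z q) := by linarith
    rw [hX, hs] at e1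
    linarith
  have hc : (Y p - Y q) * (Y p - Z q) = 0 := by
    have : (Y p - Y q) * (Y p - Z q) = Y p * Y p - Y p * (Y q + Z q) + Y q * Z q := by ring
    rw [this, ← hs, ← hm]; ring
  have hWe := W_eq_of_F h hW
  rcases mul_eq_zero.1 hc with hc | hc
  · exact ext' (by linarith) (by linarith) hWe
  · have hY : Y p = Z q := by linarith
    have hZ : Z p = Y q := by linarith
    have hV := no_swap h hW (by unfold V; rw [← hX, ← hY, ← hZ]; ring)
    unfold V at hV
    have h3 : X p - Y p ≠ 0 := sub_ne_zero.2 h1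
    have h4 : X p - Z p ≠ 0 := sub_ne_zero.2 h2
    have h5 : Y p - Z p = 0 := by
      rcases mul_eq_zero.1 hV with hV | hV
      · rcases mul_eq_zero.1 hV with hV | hV
        · exact absurd hV h3
        · exact hV
      · exact absurd hV h4
    exact ext' (by linarith) (by linarith) hWe

lemma eq_of_Y {p q : D} (h : F p = F q) (hW : 0 < W p * W q) (hY : Y p = Y q)
    (h1 : X p ≠ Y p) (h2 : Y p ≠ Z p) : p = q := by
  obtain ⟨g1, g2⟩ := sym_eq_of_F h
  have hs : X p + Z p = X q + Z q := by
    have := sum_eq p; have := sum_eq q; linarith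
  have hm : X p * Z p = X q * Z q := by
    have e1 : X p * Z p + Y p * (X p + Z p) = X q * Z q + Y q * (X q + Z q) := by linarith
    rw [hY, hs] at e1
    linarith
  have hc : (X p - X q) * (X p - Z q) = 0 := by
    have : (X p - X q) * (X p - Z q) = X p * X p - X p * (X q + Z q) + X q * Z q := by ring
    rw [this, ← hs, ← hm]; ring
  have hWe := W_eq_of_F h hW
  rcases mul_eq_zero.1 hc with hc | hc
  · exact ext' (by linarith) (by linarith) hWe
  · have hX : X p = Z q := by linarith
    have hZ : Z p = X q := by linarith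
    have hV := no_swap h hW (by unfold V; rw [← hX, ← hY, ← hZ]; ring)
    unfold V at hV
    have h3 : X p - Y p ≠ 0 := sub_ne_zero.2 h1
    have h4 : Y p - Z p ≠ 0 := sub_ne_zero.2 h2
    have h5 : X p - Z p = 0 := by
      rcases mul_eq_zero.1 hV with hV | hV
      · rcases mul_eq_zero.1 hV with hV | hV
        · exact absurd hV h3
        · exact absurd hV h4
      · exact hV
    exact ext' (by linarith) (by linarith) hWe

lemma mul_pos_trans {a b c : ℝ} (h1 : 0 < a * c) (h2 : 0 < b * c) : 0 < a * b := by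
  have hc : c ≠ 0 := right_ne_zero_of_mul h1.ne'
  have h3 : 0 < (a * b) * (c * c) := by
    have := mul_pos h1 h2
    linarith [show (a * b) * (c * c) = a * c * (b * c) by ring]
  exact (mul_pos_iff_of_pos_right (mul_self_pos.2 hc)).1 h3

/-- `F` is locally injective off the vertices of the small triangles. -/
theorem exists_injOn {p : D} (hp : ¬ (V p = 0 ∧ W p = 0)) (hp' : ¬ (X p = Y p ∧ Y p = Z p)) :
    ∃ N ∈ 𝓝 p, InjOn F N := by
  have hpos : ∀ u : D → ℝ, Continuous u → u p ≠ 0 → ∀ᶠ r in 𝓝 p, 0 < u r * u p := by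
    intro u hu h0
    refine (hu.mul continuous_const).continuousAt.eventually (lt_mem_nhds ?_)
    exact mul_self_pos.2 h0
  by_cases hV : V p = 0
  · have hW : W p ≠ 0 := fun h => hp ⟨hV, h⟩
    have hW' := hpos W continuous_W hW
    have hcase : (X p = Y p ∧ X p ≠ Z p ∧ Y p ≠ Z p) ∨ (Y p = Z p ∧ X p ≠ Y p ∧ X p ≠ Z p) ∨
        (X p = Z p ∧ X p ≠ Y p ∧ Y p ≠ Z p) := by
      unfold V at hV
      rcases mul_eq_zero.1 hV with hV | hV
      · rcases mul_eq_zero.1 hV with hV | hV
        · have h1 : X p = Y p := by linarith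
          have h2 : Y p ≠ Z p := fun h => hp' ⟨h1, h⟩
          exact Or.inl ⟨h1, by rw [h1]; exact h2, h2⟩
        · have h1 : Y p = Z p := by linarith
          have h2 : X p ≠ Y p := fun h => hp' ⟨h, h1⟩
          exact Or.inr (Or.inl ⟨h1, h2, by rw [← h1]; exact h2⟩)
      · have h1 : X p = Z p := by linarith
        have h2 : X p ≠ Y p := fun h => hp' ⟨h, by rw [← h, h1]⟩
        exact Or.inr (Or.inr ⟨h1, h2, by rw [← h1]; exact h2.symm⟩)
    rcases hcase with ⟨h1, h2, h3⟩ | ⟨h1, h2, h3⟩ | ⟨h1, h2, h3⟩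
    · have g1 := hpos (fun r => X r - Z r) (continuous_X.sub continuous_Z) (sub_ne_zero.2 h2)
      have g2 := hpos (fun r => Y r - Z r) (continuous_Y.sub continuous_Z) (sub_ne_zero.2 h3)
      refine ⟨_, hW'.and (g1.and g2), ?_⟩
      rintro r ⟨r0, r1, r2⟩ s ⟨s0, s1, s2⟩ hrs
      rw [h1] at r1 s1
      have hZ : Z r = Z s := by
        obtain ⟨t1, t2, t3⟩ := sorted_eq_of_F hrs
        rcases lt_or_gt_of_ne h3 with h4 | h4
        · have a1 : X r - Z r < 0 := by by_contra h; nlinarith
          have a2 : Y r - Z r < 0 := by by_contra h; nlinarith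
          have a3 : X s - Z s < 0 := by by_contra h; nlinarith
          have a4 : Y s - Z s < 0 := by by_contra h; nlinarith
          have b1 : mx r = Z r := by
            unfold mx; rw [max_eq_right (a := Y r) (by linarith), max_eq_right (by linarith)]
          have b2 : mx s = Z s := by
            unfold mx; rw [max_eq_right (a := Y s) (by linarith), max_eq_right (by linarith)]
          rw [← b1, ← b2, t1]
        · have a1 : 0 < X r - Z r := by by_contra h; nlinarith
          have a2 : 0 < Y r - Z r := by by_contra h; nlinarith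
          have a3 : 0 < X s - Z s := by by_contra h; nlinarith
          have a4 : 0 < Y s - Z s := by by_contra h; nlinarith
          have b1 : mn r = Z r := by
            unfold mn; rw [min_eq_right (a := Y r) (by linarith), min_eq_right (by linarith)]
          have b2 : mn s = Z s := by
            unfold mn; rw [min_eq_right (a := Y s) (by linarith), min_eq_right (by linarith)]
          rw [← b1, ← b2, t3]
      refine eq_of_Z hrs (mul_pos_trans r0 s0) hZ ?_ ?_
      · intro h; rw [h] at r1; simp at r1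
      · intro h; rw [h] at r2; simp at r2
    · have g1 := hpos (fun r => X r - Y r) (continuous_X.sub continuous_Y) (sub_ne_zero.2 h2)
      have g2 := hpos (fun r => X r - Z r) (continuous_X.sub continuous_Z) (sub_ne_zero.2 h3)
      refine ⟨_, hW'.and (g1.and g2), ?_⟩
      rintro r ⟨r0, r1, r2⟩ s ⟨s0, s1, s2⟩ hrs
      rw [h1] at r1 s1
      have hX : X r = X s := by
        obtain ⟨t1, t2, t3⟩ := sorted_eq_of_F hrs
        rcases lt_or_gt_of_ne h3 with h4 | h4
        · have a1 : X r - Y r < 0 := by by_contra h; nlinarith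
          have a2 : X r - Z r < 0 := by by_contra h; nlinarith
          have a3 : X s - Y s < 0 := by by_contra h; nlinarith
          have a4 : X s - Z s < 0 := by by_contra h; nlinarith
          have b1 : mn r = X r := by
            unfold mn; exact min_eq_left (le_min (by linarith) (by linarith))
          have b2 : mn s = X s := by
            unfold mn; exact min_eq_left (le_min (by linarith) (by linarith))
          rw [← b1, ← b2, t3]
        · have a1 : 0 < X r - Y r := by by_contra h; nlinarith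
          have a2 : 0 < X r - Z r := by by_contra h; nlinarith
          have a3 : 0 < X s - Y s := by by_contra h; nlinarith
          have a4 : 0 < X s - Z s := by by_contra h; nlinarith
          have b1 : mx r = X r := by
            unfold mx; exact max_eq_left (max_le (by linarith) (by linarith))
          have b2 : mx s = X s := by
            unfold mx; exact max_eq_left (max_le (by linarith) (by linarith))
          rw [← b1, ← b2, t1]
      refine eq_of_X hrs (mul_pos_trans r0 s0) hX ?_ ?_
      · intro h; rw [h] at r1; simp at r1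
      · intro h; rw [h] at r2; simp at r2
    · have g1 := hpos (fun r => X r - Y r) (continuous_X.sub continuous_Y) (sub_ne_zero.2 h2)
      have g2 := hpos (fun r => Y r - Z r) (continuous_Y.sub continuous_Z) (sub_ne_zero.2 h3)
      refine ⟨_, hW'.and (g1.and g2), ?_⟩
      rintro r ⟨r0, r1, r2⟩ s ⟨s0, s1, s2⟩ hrs
      rw [h1] at r1 s1
      have hY : Y r = Y s := by
        obtain ⟨t1, t2, t3⟩ := sorted_eq_of_F hrs
        rcases lt_or_gt_of_ne h3 with h4 | h4
        · have a1 : 0 < X r - Y r := by by_contra h; nlinarith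
          have a2 : Y r - Z r < 0 := by by_contra h; nlinarith
          have a3 : 0 < X s - Y s := by by_contra h; nlinarith
          have a4 : Y s - Z s < 0 := by by_contra h; nlinarith
          have b1 : mn r = Y r := by
            unfold mn; rw [min_eq_left (a := Y r) (by linarith)]; exact min_eq_right (by linarith)
          have b2 : mn s = Y s := by
            unfold mn; rw [min_eq_left (a := Y s) (by linarith)]; exact min_eq_right (by linarith)
          rw [← b1, ← b2, t3]
        · have a1 : X r - Y r < 0 := by by_contra h; nlinarith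
          have a2 : 0 < Y r - Z r := by by_contra h; nlinarith
          have a3 : X s - Y s < 0 := by by_contra h; nlinarith
          have a4 : 0 < Y s - Z s := by by_contra h; nlinarith
          have b1 : mx r = Y r := by
            unfold mx; rw [max_eq_left (a := Y r) (by linarith)]; exact max_eq_right (by linarith)
          have b2 : mx s = Y s := by
            unfold mx; rw [max_eq_left (a := Y s) (by linarith)]; exact max_eq_right (by linarith)
          rw [← b1, ← b2, t1]
      refine eq_of_Y hrs (mul_pos_trans r0 s0) hY ?_ ?_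
      · intro h; rw [h] at r1; simp at r1
      · intro h; rw [h] at r2; simp at r2
  · have n1 : X p - Y p ≠ 0 := fun h => hV (by unfold V; rw [h]; ring)
    have n2 : Y p - Z p ≠ 0 := fun h => hV (by unfold V; rw [h]; ring)
    have n3 : X p - Z p ≠ 0 := fun h => hV (by unfold V; rw [h]; ring)
    have g1 := hpos (fun r => X r - Y r) (continuous_X.sub continuous_Y) n1
    have g2 := hpos (fun r => Y r - Z r) (continuous_Y.sub continuous_Z) n2
    have g3 := hpos (fun r => X r - Z r) (continuous_X.sub continuous_Z) n3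
    refine ⟨_, g1.and (g2.and g3), ?_⟩
    rintro r ⟨r1, r2, r3⟩ s ⟨s1, s2, s3⟩ hrs
    exact eq_of_same_order hrs (mul_pos_trans r1 s1) (mul_pos_trans r2 s2) (mul_pos_trans r3 s3)

theorem crit_subset {p : D} (h : p ∈ crit F) : (V p = 0 ∧ W p = 0) ∨ (X p = Y p ∧ Y p = Z p) := by
  by_contra hcon
  rw [not_or] at hcon
  obtain ⟨N, hN, hinj⟩ := exists_injOn hcon.1 hcon.2
  obtain ⟨d, hd, φ, ψ, hpow⟩ := h
  exact not_injOn_of_isPowerNear hpow hd hN hinj

/-- the vertex `(0,1,0)` -/
def v2 : D := mk' 0 1 0 (by norm_num)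
/-- the vertex `(0,0,1)` -/
def v3 : D := mk' 0 0 0 (by norm_num)

lemma eq_of_T {p : D} {a b : ℝ} (h1 : T1 p = a) (h2 : T2 p = b) (hW : W p * V p = 0)
    (h : |(0 : ℝ)| = min a (min b (1 - a - b))) : F p = mk' a b 0 h := by
  apply ext'
  · rw [X_F, h1, X_mk']
  · rw [Y_F, h2, Y_mk']
  · rw [W_F, hW, Real.sign_zero, zero_mul, W_mk']

lemma F_crit {p : D} (h : (V p = 0 ∧ W p = 0) ∨ (X p = Y p ∧ Y p = Z p)) :
    F p = v1 ∨ F p = v2 ∨ F p = v3 := by
  rcases h with ⟨hV, hW⟩ | ⟨h1, h2⟩
  · have h3 : T3 p = 0 := by unfold T3; rw [← abs_W_eq_mn, hW, abs_zero, mul_zero]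
    have hsum := T_sum p
    have habs := abs_V p
    rw [hV, abs_zero] at habs
    have t1 := T1_nonneg p
    have t2 := T2_nonneg p
    have h12 : T1 p = 0 ∨ T2 p = 0 := by
      rcases mul_eq_zero.1 habs.symm with h | h
      · rcases mul_eq_zero.1 h with h | h
        · exact Or.inl h
        · right; linarith
      · left; linarith
    rcases h12 with h | h
    · right; left
      exact eq_of_T h (by linarith) (by rw [hW, zero_mul]) _
    · left
      exact eq_of_T (by linarith) h (by rw [hW, zero_mul]) _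
  · right; right
    have hs := sum_eq p
    have e1 : mx p = 1 / 3 := by unfold mx; rw [h1, h2, max_self, max_self]; linarith
    have e3 : mn p = 1 / 3 := by unfold mn; rw [h1, h2, min_self, min_self]; linarith
    have hV : V p = 0 := by unfold V; rw [h1]; ring
    refine eq_of_T ?_ ?_ (by rw [hV, mul_zero]) _
    · unfold T1 md; rw [e1, e3]; norm_num
    · unfold T2 md; rw [e1, e3]; norm_num

lemma V_v1 : V v1 = 0 := by norm_num [V, v1]
lemma V_v2 : V v2 = 0 := by norm_num [V, v2]
lemma V_v3 : V v3 = 0 := by norm_num [V, v3]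

lemma F_v1 : F v1 = v1 := by
  have e1 : mx v1 = 1 := by norm_num [mx, v1]
  have e3 : mn v1 = 0 := by norm_num [mn, v1]
  refine eq_of_T ?_ ?_ (by rw [V_v1, mul_zero]) _
  · unfold T1 md; rw [e1, e3]; norm_num
  · unfold T2 md; rw [e1, e3]; norm_num

lemma F_v2 : F v2 = v1 := by
  have e1 : mx v2 = 1 := by norm_num [mx, v2]
  have e3 : mn v2 = 0 := by norm_num [mn, v2]
  refine eq_of_T ?_ ?_ (by rw [V_v2, mul_zero]) _
  · unfold T1 md; rw [e1, e3]; norm_num
  · unfold T2 md; rw [e1, e3]; norm_num

lemma F_v3 : F v3 = v1 := by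
  have e1 : mx v3 = 1 := by norm_num [mx, v3]
  have e3 : mn v3 = 0 := by norm_num [mn, v3]
  refine eq_of_T ?_ ?_ (by rw [V_v3, mul_zero]) _
  · unfold T1 md; rw [e1, e3]; norm_num
  · unfold T2 md; rw [e1, e3]; norm_num

theorem post_subset : post F ⊆ {v1, v2, v3} := by
  intro q hq
  simp only [post, mem_iUnion] at hq
  obtain ⟨n, hn, p, hp, rfl⟩ := hq
  have key : ∀ m : ℕ, F^[m + 1] p ∈ ({v1, v2, v3} : Set D) := by
    intro m
    induction m with
    | zero => exact F_crit (crit_subset hp)
    | succ m ih =>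
      rw [Function.iterate_succ_apply']
      rcases ih with h | h | h
      · rw [h, F_v1]; exact Or.inl rfl
      · rw [h, F_v2]; exact Or.inl rfl
      · rw [mem_singleton_iff.1 h, F_v3]; exact Or.inl rfl
  obtain ⟨m, rfl⟩ : ∃ m, n = m + 1 := ⟨n - 1, by omega⟩
  exact key m

theorem post_finite : (post F).Finite := (Set.toFinite _).subset post_subset

theorem post_subset_W : post F ⊆ {p | W p = 0} := by
  intro q hq
  rcases post_subset hq with h | h | h
  · rw [h]; exact rfl
  · rw [h]; exact rfl
  · rw [mem_singleton_iff.1 h]; exact rfl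

theorem two_le_topDegree : 2 ≤ topDegree F := by
  have h : ({v1, v2} : Set D) ⊆ F ⁻¹' {v1} := by
    rintro p (rfl | hp)
    · exact F_v1
    · rw [mem_singleton_iff.1 hp]; exact F_v2
  have hne : v1 ≠ v2 := by
    intro h
    have := congrArg X h
    norm_num [v1, v2] at this
  calc (2 : ℕ∞) = ({v1, v2} : Set D).encard := (Set.encard_pair hne).symm
    _ ≤ (F ⁻¹' {v1}).encard := Set.encard_le_encard h
    _ ≤ topDegree F := le_iSup (fun q => (F ⁻¹' {q}).encard) v1

end D

end Pool.Agent.Helper93.Thurston
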