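import Pool.Agent.Helper93.Thurston.Space

/-! The doubled triangle is a sphere, and its equator is a Jordan curve. -/

namespace Pool.Agent.Helper93.Thurston

open Set Filter Topology

namespace D

/-- The gauge of the bipyramid with respect to its centre. -/
noncomputable def ell (a b w : ℝ) : ℝ := |w| + max (-a) (max (-b) (a + b))

lemma ell_nonneg (a b w : ℝ) : 0 ≤ ell a b w := by
  unfold ell
  have h0 := abs_nonneg w
  have h1 : -a ≤ max (-a) (max (-b) (a + b)) := le_max_left _ _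
  have h2 : -b ≤ max (-a) (max (-b) (a + b)) := (le_max_left _ _).trans (le_max_right _ _)
  have h3 : a + b ≤ max (-a) (max (-b) (a + b)) := (le_max_right _ _).trans (le_max_right _ _)
  linarith

lemma ell_pos {a b w : ℝ} (h : ¬ (a = 0 ∧ b = 0 ∧ w = 0)) : 0 < ell a b w := by
  rcases (ell_nonneg a b w).lt_or_eq with h' | h'
  · exact h'
  · exfalso
    apply h
    unfold ell at h'
    have h0 := abs_nonneg w
    have h1 : -a ≤ max (-a) (max (-b) (a + b)) := le_max_left _ _
    have h2 : -b ≤ max (-a) (max (-b) (a + b)) := (le_max_left _ _).trans (le_max_right _ _)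
    have h3 : a + b ≤ max (-a) (max (-b) (a + b)) := (le_max_right _ _).trans (le_max_right _ _)
    have hw : |w| = 0 := by linarith
    refine ⟨by linarith, by linarith, abs_eq_zero.1 hw⟩

lemma ell_smul {t : ℝ} (ht : 0 ≤ t) (a b w : ℝ) :
    ell (t * a) (t * b) (t * w) = t * ell a b w := by
  unfold ell
  rw [abs_mul, abs_of_nonneg ht, mul_add, mul_max_of_nonneg _ _ ht, mul_max_of_nonneg _ _ ht]
  congr 2
  · ring
  · congr 1 <;> ring

lemma continuous_ell {T : Type*} [TopologicalSpace T] {a b w : T → ℝ} (ha : Continuous a)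
    (hb : Continuous b) (hw : Continuous w) : Continuous fun t => ell (a t) (b t) (w t) := by
  unfold ell
  fun_prop

lemma ell_iff (a b w : ℝ) :
    |w| = min (a + 1 / 3) (min (b + 1 / 3) (1 - (a + 1 / 3) - (b + 1 / 3))) ↔
      ell a b w = 1 / 3 := by
  have h : min (a + 1 / 3) (min (b + 1 / 3) (1 - (a + 1 / 3) - (b + 1 / 3))) =
      1 / 3 - max (-a) (max (-b) (a + b)) := by
    rw [← min_sub_sub_left, ← min_sub_sub_left]
    congr 1
    · ring
    · congr 1 <;> ring
  rw [h, ell]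
  constructor <;> intro h' <;> linarith

lemma ell_eq (p : D) : ell (X p - 1 / 3) (Y p - 1 / 3) (W p) = 1 / 3 := by
  rw [← ell_iff, sub_add_cancel, sub_add_cancel]
  exact p.2

/-- The point of `D` on a given ray. -/
noncomputable def ray (a b w : ℝ) (h : ¬ (a = 0 ∧ b = 0 ∧ w = 0)) : D :=
  mk' ((3 * ell a b w)⁻¹ * a + 1 / 3) ((3 * ell a b w)⁻¹ * b + 1 / 3) ((3 * ell a b w)⁻¹ * w) (by
    have h1 := ell_pos h
    rw [ell_iff, ell_smul (by positivity)]
    field_simp)

lemma ray_eq (p : D) {t : ℝ} (ht : 0 < t)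
    (h : ¬ (t * (X p - 1 / 3) = 0 ∧ t * (Y p - 1 / 3) = 0 ∧ t * W p = 0)) :
    ray (t * (X p - 1 / 3)) (t * (Y p - 1 / 3)) (t * W p) h = p := by
  have h1 := ell_eq p
  unfold ray
  apply ext' <;> simp only [X_mk', Y_mk', W_mk'] <;> rw [ell_smul ht.le, h1] <;> field_simp <;>
    ring

lemma ne_center (p : D) : ¬ (X p - 1 / 3 = 0 ∧ Y p - 1 / 3 = 0 ∧ W p = 0) := by
  rintro ⟨h1, h2, h3⟩
  have := ell_eq p
  rw [h1, h2, h3] at this
  norm_num [ell] at this

/-- The vector from the centre. -/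
noncomputable def vec (p : D) : EuclideanSpace ℝ (Fin 3) := !₂[X p - 1 / 3, Y p - 1 / 3, W p]

lemma vec_ne_zero (p : D) : vec p ≠ 0 := by
  intro h
  apply ne_center p
  have h0 : X p - 1 / 3 = 0 := congrArg (fun v : EuclideanSpace ℝ (Fin 3) => v 0) h
  have h1 : Y p - 1 / 3 = 0 := congrArg (fun v : EuclideanSpace ℝ (Fin 3) => v 1) h
  have h2 : W p = 0 := congrArg (fun v : EuclideanSpace ℝ (Fin 3) => v 2) h
  exact ⟨h0, h1, h2⟩

lemma continuous_vec : Continuous vec := by
  unfold vec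
  fun_prop

lemma s2_ne (u : S2) : ¬ (u.1 0 = 0 ∧ u.1 1 = 0 ∧ u.1 2 = 0) := by
  rintro ⟨h0, h1, h2⟩
  have h : u.1 = 0 := by
    ext i
    fin_cases i
    · exact h0
    · exact h1
    · exact h2
  have := u.2
  rw [h] at this
  simp at this

/-- The radial homeomorphism. -/
noncomputable def homeoS2 : D ≃ₜ S2 where
  toFun p := ⟨‖vec p‖⁻¹ • vec p, by
    rw [mem_sphere_zero_iff_norm, norm_smul, norm_inv, norm_norm,
      inv_mul_cancel₀ (norm_ne_zero_iff.2 (vec_ne_zero p))]⟩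
  invFun u := ray (u.1 0) (u.1 1) (u.1 2) (s2_ne u)
  left_inv p := by
    have h := ray_eq p (t := ‖vec p‖⁻¹) (inv_pos.2 (norm_pos_iff.2 (vec_ne_zero p)))
    have e0 : (‖vec p‖⁻¹ • vec p) 0 = ‖vec p‖⁻¹ * (X p - 1 / 3) := by simp [vec]
    have e1 : (‖vec p‖⁻¹ • vec p) 1 = ‖vec p‖⁻¹ * (Y p - 1 / 3) := by simp [vec]
    have e2 : (‖vec p‖⁻¹ • vec p) 2 = ‖vec p‖⁻¹ * W p := by simp [vec]
    simp only [e0, e1, e2]
    exact h _
  right_inv u := by
    apply Subtype.ext
    have hpos := ell_pos (s2_ne u)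
    have hv : vec (ray (u.1 0) (u.1 1) (u.1 2) (s2_ne u)) =
        (3 * ell (u.1 0) (u.1 1) (u.1 2))⁻¹ • u.1 := by
      ext i
      fin_cases i <;> simp [vec, ray]
    have hu : ‖u.1‖ = 1 := mem_sphere_zero_iff_norm.1 u.2
    simp only [hv, norm_smul, hu, mul_one, norm_inv, smul_smul]
    rw [Real.norm_of_nonneg (by positivity), inv_inv, mul_inv_cancel₀ (by positivity), one_smul]
  continuous_toFun := by
    refine Continuous.subtype_mk ?_ _
    exact (continuous_vec.norm.inv₀ fun p => norm_ne_zero_iff.2 (vec_ne_zero p)).smul continuous_vec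
  continuous_invFun := by
    have h0 : Continuous fun u : S2 => u.1 0 := by fun_prop
    have h1 : Continuous fun u : S2 => u.1 1 := by fun_prop
    have h2 : Continuous fun u : S2 => u.1 2 := by fun_prop
    have h3 : Continuous fun u : S2 => (3 * ell (u.1 0) (u.1 1) (u.1 2))⁻¹ :=
      (continuous_const.mul (continuous_ell h0 h1 h2)).inv₀ fun u => by
        exact mul_ne_zero (by norm_num) (ell_pos (s2_ne u)).ne'
    unfold ray mk'
    refine Continuous.subtype_mk (p := fun p : ℝ × ℝ × ℝ =>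
      |p.2.2| = min p.1 (min p.2.1 (1 - p.1 - p.2.1))) ?_ _
    exact ((h3.mul h0).add continuous_const).prodMk
      (((h3.mul h1).add continuous_const).prodMk (h3.mul h2))

theorem nonempty_homeo : Nonempty (D ≃ₜ S2) := ⟨homeoS2⟩

lemma circle_ne (u : Circle) : ¬ ((u : ℂ).re = 0 ∧ (u : ℂ).im = 0 ∧ (0 : ℝ) = 0) := by
  rintro ⟨h0, h1, -⟩
  exact Circle.coe_ne_zero u (Complex.ext h0 h1)

theorem isJordanCurve_W : IsJordanCurve {p : D | W p = 0} := by
  refine ⟨fun u => ray (u : ℂ).re (u : ℂ).im 0 (circle_ne u), ?_, ?_, ?_⟩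
  · have h0 : Continuous fun u : Circle => (u : ℂ).re := by fun_prop
    have h1 : Continuous fun u : Circle => (u : ℂ).im := by fun_prop
    have h3 : Continuous fun u : Circle => (3 * ell (u : ℂ).re (u : ℂ).im 0)⁻¹ :=
      (continuous_const.mul (continuous_ell h0 h1 continuous_const)).inv₀ fun u => by
        exact mul_ne_zero (by norm_num) (ell_pos (circle_ne u)).ne'
    unfold ray mk'
    refine Continuous.subtype_mk (p := fun p : ℝ × ℝ × ℝ =>
      |p.2.2| = min p.1 (min p.2.1 (1 - p.1 - p.2.1))) ?_ _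
    exact ((h3.mul h0).add continuous_const).prodMk
      (((h3.mul h1).add continuous_const).prodMk (h3.mul continuous_const))
  · intro u v huv
    have hX := congrArg X huv
    have hY := congrArg Y huv
    simp only [ray, X_mk', Y_mk'] at hX hY
    have hu := ell_pos (circle_ne u)
    have hv := ell_pos (circle_ne v)
    set s := ell (u : ℂ).re (u : ℂ).im 0
    set t := ell (v : ℂ).re (v : ℂ).im 0
    have h1 : (3 * s)⁻¹ * (u : ℂ).re = (3 * t)⁻¹ * (v : ℂ).re := by linarith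
    have h2 : (3 * s)⁻¹ * (u : ℂ).im = (3 * t)⁻¹ * (v : ℂ).im := by linarith
    have h3 : (((3 * s)⁻¹ : ℝ) : ℂ) * (u : ℂ) = (((3 * t)⁻¹ : ℝ) : ℂ) * (v : ℂ) := by
      apply Complex.ext
      · rw [Complex.re_ofReal_mul, Complex.re_ofReal_mul]; exact h1
      · rw [Complex.im_ofReal_mul, Complex.im_ofReal_mul]; exact h2
    have h4 := congrArg (fun z : ℂ => ‖z‖) h3
    simp only [norm_mul, Circle.norm_coe, mul_one, Complex.norm_real] at h4
    rw [Real.norm_of_nonneg (by positivity), Real.norm_of_nonneg (by positivity)] at h4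
    rw [h4] at h3
    have h5 : (((3 * t)⁻¹ : ℝ) : ℂ) ≠ 0 := by
      have : ((3 * t)⁻¹ : ℝ) ≠ 0 := by positivity
      exact_mod_cast this
    exact Circle.ext (mul_left_cancel₀ h5 h3)
  · ext p
    simp only [mem_range, mem_ofPred_eq]
    constructor
    · rintro ⟨u, rfl⟩
      simp [ray]
    · intro hp
      set z : ℂ := ⟨X p - 1 / 3, Y p - 1 / 3⟩ with hz
      have hz0 : z ≠ 0 := by
        intro h
        apply ne_center p
        have h1 := congrArg Complex.re h
        have h2 := congrArg Complex.im h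
        exact ⟨h1, h2, hp⟩
      have hz1 : 0 < ‖z‖ := norm_pos_iff.2 hz0
      refine ⟨⟨((‖z‖⁻¹ : ℝ) : ℂ) * z, ?_⟩, ?_⟩
      · refine mem_sphere_zero_iff_norm.2 ?_
        rw [norm_mul, Complex.norm_real, norm_inv, norm_norm, inv_mul_cancel₀ hz1.ne']
      · have h := ray_eq p (t := ‖z‖⁻¹) (inv_pos.2 hz1)
        have e0 : (((‖z‖⁻¹ : ℝ) : ℂ) * z).re = ‖z‖⁻¹ * (X p - 1 / 3) := by
          rw [Complex.re_ofReal_mul]
        have e1 : (((‖z‖⁻¹ : ℝ) : ℂ) * z).im = ‖z‖⁻¹ * (Y p - 1 / 3) := by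
          rw [Complex.im_ofReal_mul]
        have e2 : (0 : ℝ) = ‖z‖⁻¹ * W p := by rw [hp, mul_zero]
        simp only [e0, e1]
        have key : ∀ (w : ℝ) (hw : w = ‖z‖⁻¹ * W p)
            (h' : ¬ (‖z‖⁻¹ * (X p - 1 / 3) = 0 ∧ ‖z‖⁻¹ * (Y p - 1 / 3) = 0 ∧ w = 0)),
            ray (‖z‖⁻¹ * (X p - 1 / 3)) (‖z‖⁻¹ * (Y p - 1 / 3)) w h' = p := by
          intro w hw h'
          subst hw
          exact h h'
        exact key 0 e2 _

end D

end Pool.Agent.Helper93.Thurston
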